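import Pool.Agent.MP_855f4c_ag.NG.Near

namespace Pool.Agent.MP_855f4c_ag.LP

open PowerSeries IsLocalRing

variable {p : ℕ} [Fact p.Prime]

lemma sm_alg {Λ : Type*} [CommRing Λ] (x v Y U U' E : Λ) (m N S a r : ℕ) (hv : x * v = 1)
    (hU : U * U' = 1) (hE : U * x ^ S * v ^ (m * r) * E = 1) (hN : N + S = a + m * r + m) :
    x ^ m * (x ^ a * Y * E) = x ^ N * (Y * U') := by
  have h1 : x ^ N * x ^ S = x ^ a * x ^ (m * r) * x ^ m := by
    rw [← pow_add, hN, pow_add, pow_add]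
  have h2 : x ^ (m * r) * v ^ (m * r) = 1 := by rw [← mul_pow, hv, one_pow]
  calc x ^ m * (x ^ a * Y * E)
      = x ^ m * (x ^ a * Y * E) * (x ^ (m * r) * v ^ (m * r)) * (U * U') := by
        rw [h2, hU, mul_one, mul_one]
    _ = (x ^ a * x ^ (m * r) * x ^ m) * (Y * U') * (U * v ^ (m * r) * E) := by ring
    _ = x ^ N * (Y * U') * (U * x ^ S * v ^ (m * r) * E) := by rw [← h1]; ring
    _ = x ^ N * (Y * U') := by rw [hE, mul_one]

lemma sm_num (m D k r n S : ℕ) (hk : k ≠ 0)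
    (h1 : n + S = m * (r + 1) + m * ((r + 2) * (D + 1) + 2) * k) (h2 : n + S ≤ (r + 1) * n) :
    S + m * D ≤ m * ((r + 2) * (D + 1) + 1) * k + m * r + m := by
  obtain ⟨k, rfl⟩ := Nat.exists_eq_succ_of_ne_zero hk
  have h3 : m * (k + 1) + m * D ≤ n := by
    refine Nat.le_of_mul_le_mul_left (le_trans ?_ h2) r.succ_pos
    rw [h1, Nat.succ_eq_add_one]
    nlinarith [Nat.zero_le (m * D * k * r), Nat.zero_le (m * D * k), Nat.zero_le (m * r),
      Nat.zero_le (m * D), Nat.zero_le (m * k), Nat.zero_le m]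
  rw [Nat.succ_eq_add_one] at h1 ⊢
  nlinarith [h1, h3]

/-- Elements of the surface that come from `W[[X]]` modulo `d`. -/
noncomputable def Surf.sub {Φ : Frame p} (Q : Surf Φ) (d : Q.S) : Subring Q.S :=
  ((Ideal.Quotient.mk (Ideal.span {d})).comp Q.j).range.comap (Ideal.Quotient.mk _)

lemma Surf.mem_sub {Φ : Frame p} (Q : Surf Φ) (d s : Q.S) :
    s ∈ Q.sub d ↔ ∃ f, d ∣ s - Q.j f :=
  exists_congr fun _ => eq_comm.trans (Ideal.Quotient.eq.trans Ideal.mem_span_singleton)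

lemma Surf.j_sub {Φ : Frame p} (Q : Surf Φ) (d : Q.S) (f : Φ.U.W⟦X⟧) : Q.j f ∈ Q.sub d :=
  (Q.mem_sub d _).2 ⟨f, by rw [sub_self]; exact dvd_zero _⟩

/-- The base ring and a factorisation of `c` map to the surface. -/
lemma sm_base (K : IntermediateField ℚ_[p] (PadicAlgCl p)) [FiniteDimensional ℚ_[p] K]
    {O : Type} [CommRing O] (o : O →+* PadicAlgCl p) (ho : ∀ c, o c ∈ K ∧ ‖o c‖ ≤ 1) (c : O)
    (hc0 : o c ≠ 0) (hc1 : ‖o c‖ < 1) (j D : ℕ) :
    ∃ z : PadicAlgCl p, z ≠ 0 ∧ ‖z‖ < 1 ∧ ∀ y : Fin j → PadicAlgCl p, ∏ i, y i = o c →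
      ∀ t : Set (PadicAlgCl p), t.Finite → (∀ i, y i ∈ t) → (∀ w ∈ t, ‖z * w‖ ≤ 1) →
      ∃ (Φ : Frame p) (Q : Surf Φ) (Z : Q.S) (m : ℕ) (S₀ : Subring Q.S) (β : O →+* Q.S)
        (τ : Fin j → Q.L), Z ∈ maximalIdeal Q.S ∧ Q.ι Z = 0 ∧ (∀ f, Q.j f ∈ S₀) ∧
        (∀ c ∈ S₀, Q.ι c = 0 → Q.j X ^ (m * D) * Z ∣ c) ∧
        (∀ c, β c ∈ S₀ ∧ Q.ι (β c) = o c ∧ IsAlgebraic (Polynomial (ZMod p)) (Q.r (β c)) ∧
          (‖o c‖ < 1 → Q.r (β c) = 0)) ∧
        (∀ w ∈ t, ∃ q : Polynomial Φ.U.W, Φ.ι q = Φ.ι X ^ m * w) ∧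
        ∏ i, τ i = algebraMap Q.S Q.L (β c) ∧ ∀ i, Q.ev (τ i) = y i ∧
          IsAlgebraic (Polynomial (ZMod p)) (Q.red (τ i)) ∧
          ∃ d ∈ S₀, algebraMap Q.S Q.L (Q.j X) ^ m * τ i = algebraMap Q.S Q.L d := by
  obtain ⟨Ψ, h1, h2, h3⟩ := fk K
  obtain ⟨e, u, hu, he⟩ := rf_unit Ψ K h1 h2 h3 (natCast_mem K p)
    (Nat.cast_ne_zero.2 (Fact.out : p.Prime).ne_zero) (IsUltrametricDist.norm_natCast_le_one _ p)
  obtain ⟨k, w, hw, hk⟩ := rf_unit Ψ K h1 h2 h3 (ho c).1 hc0 hc1.le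
  have kn : ‖o c‖ = ‖Ψ.ι X‖ ^ k := by
    rw [← hk, map_mul, map_pow, norm_mul, norm_pow, nglb_unit Ψ hw, one_mul]
  have k0 : k ≠ 0 := fun h => hc1.ne (by rw [kn, h, pow_zero])
  obtain ⟨D', hD'⟩ : ∃ D', D' = (j + 1) * (D + 1) := ⟨_, rfl⟩
  have hDD : D ≤ D' + 1 := by rw [hD']; nlinarith [Nat.zero_le (j * D), Nat.zero_le j]
  obtain ⟨z, hz⟩ := IsAlgClosed.exists_pow_nat_eq (Ψ.ι X) (Nat.succ_pos (D' + 1))
  have z0 : z ≠ 0 := fun h => Ψ.ne (by rw [← hz, h, zero_pow (by omega)])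
  have z1 : ‖z‖ < 1 := lt_of_not_ge fun h =>
    Ψ.lt.not_ge (by rw [← hz, norm_pow]; exact one_le_pow₀ h)
  refine ⟨z, z0, z1, fun y hy t ht hyt hzt => ?_⟩
  have := (ht.insert z).to_subtype
  have : FiniteDimensional ℚ_[p] (IntermediateField.adjoin ℚ_[p] (insert z t)) :=
    IntermediateField.finiteDimensional_adjoin fun x _ =>
      (Algebra.IsAlgebraic.isAlgebraic x).isIntegral
  have hK : ∀ x ∈ K, x ∈ K ⊔ IntermediateField.adjoin ℚ_[p] (insert z t) :=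
    fun x hx => (le_sup_left : K ≤ _) hx
  have hT : ∀ x ∈ insert z t, x ∈ K ⊔ IntermediateField.adjoin ℚ_[p] (insert z t) :=
    fun x hx => (le_sup_right : _ ≤ K ⊔ _) (IntermediateField.subset_adjoin _ _ hx)
  obtain ⟨Φ, g1, g2, g3⟩ := fk (K ⊔ IntermediateField.adjoin ℚ_[p] (insert z t))
  obtain ⟨θ, hθ, -⟩ := rf_theta Ψ Φ fun w => g1 _ (hK _ (h2 _)) (Ψ.le _)
  obtain ⟨m, v, hv, hm⟩ := rf_unit Φ _ g1 g2 g3 (hT z (.inl rfl)) z0 z1.le
  have zn : ‖z‖ = ‖Φ.ι X‖ ^ m := by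
    rw [← hm, map_mul, map_pow, norm_mul, norm_pow, nglb_unit Φ hv, one_mul]
  have m0 : m ≠ 0 := fun h => z1.ne (by rw [zn, h, pow_zero])
  have π0 := norm_pos_iff.2 Φ.ne
  obtain ⟨h, hh⟩ := g1 (Ψ.ι X / Φ.ι X ^ (m * (D' + 1) + 1))
    (div_mem (hK _ (h2 _)) (pow_mem (g2 _) _)) (by
      rw [norm_div, norm_pow, div_le_one (pow_pos π0 _), ← hz, norm_pow, zn, ← pow_mul]
      exact pow_le_pow_of_le_one π0.le Φ.lt.le (by rw [Nat.mul_succ m (D' + 1)]; omega))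
  have hh' : Φ.ι (X ^ (m * (D' + 1)) * (X * h)) = Ψ.ι X := by
    rw [← mul_assoc, ← pow_succ, map_mul, map_pow, hh, mul_div_cancel₀ _ (pow_ne_zero _ Φ.ne)]
  obtain ⟨Q, Z, σ, s1, s2, s3, s4, s5, s6, s7, s8⟩ := ss Ψ Φ θ hθ (m * (D' + 1)) e
    (mul_ne_zero m0 D'.succ_ne_zero) h hh' u hu he
  have hdd : Q.j X ^ (m * D) * Z ∣ Q.j X ^ (m * (D' + 1)) * Z :=
    mul_dvd_mul_right (pow_dvd_pow _ (Nat.mul_le_mul_left m hDD)) Z
  have hker : RingHom.ker Ψ.ι.rangeRestrict ≤ RingHom.ker σ := fun f hf =>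
    s4 f (congrArg Subtype.val hf)
  obtain ⟨β, hβ⟩ : ∃ β : O →+* Q.S, ∀ c f, Ψ.ι f = o c → β c = σ f :=
    ⟨(Ψ.ι.rangeRestrict.liftOfSurjective Ψ.ι.rangeRestrict_surjective ⟨σ, hker⟩).comp
      (o.codRestrict Ψ.ι.range fun c => h1 _ (ho c).1 (ho c).2), fun c f hf => by
      have hc : o.codRestrict Ψ.ι.range (fun c => h1 _ (ho c).1 (ho c).2) c =
          Ψ.ι.rangeRestrict f := Subtype.ext hf.symm
      exact (congrArg _ hc).trans (RingHom.liftOfSurjective_comp_apply _ _ _ _)⟩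
  have hB : ∀ c, β c ∈ Q.sub (Q.j X ^ (m * D) * Z) ∧ Q.ι (β c) = o c ∧
      IsAlgebraic (Polynomial (ZMod p)) (Q.r (β c)) ∧ (‖o c‖ < 1 → Q.r (β c) = 0) := fun c => by
    obtain ⟨f, hf⟩ := h1 _ (ho c).1 (ho c).2
    have hr : Q.r (σ f) = Q.r (Q.j (C (θ (constantCoeff f)))) := by
      rw [← s8]
      conv_lhs => rw [eq_X_mul_shift_add_const f, map_add, map_mul, map_add, map_mul, s7,
        zero_mul, zero_add]
    rw [hβ c f hf, hr, s3]
    refine ⟨(Q.mem_sub _ _).2 ((s5 f).imp fun _ h => hdd.trans h), hf, ?_, fun hn => ?_⟩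
    · rw [Q.hr, ← Polynomial.coe_C]
      exact al_red _ Q.r0 Q.hr0 _ (al_poly _ _)
    · obtain ⟨w, hw⟩ := ps_dvd Ψ.U (constantCoeff f) fun g =>
        hn.ne (hf ▸ nglb_unit Ψ (isUnit_iff_constantCoeff.2 g))
      have := gp_char (p := p)
      simp only [hw, map_mul, map_natCast, CharP.cast_eq_zero, zero_mul]
  have hle : ∀ w ∈ t, ‖Φ.ι X ^ m * w‖ ≤ 1 := fun w hw => by
    rw [norm_mul, norm_pow, ← zn, ← norm_mul]; exact hzt w hw
  have y0 : ∀ i, y i ≠ 0 := fun i h =>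
    hc0 (hy ▸ Finset.prod_eq_zero (Finset.mem_univ i) h)
  choose n a ha hn using fun i => rf_unit Φ _ g1 g2 g3
    (mul_mem (pow_mem (g2 X) m) (hT (y i) (.inr (hyt i))))
    (mul_ne_zero (pow_ne_zero m Φ.ne) (y0 i)) (hle _ (hyt i))
  obtain _ | r := j
  · rw [Fin.prod_univ_zero] at hy
    exact absurd hc1 (by rw [← hy, norm_one]; exact lt_irrefl 1)
  have hsum : ∑ i, n i = m * (r + 1) + m * (D' + 2) * k := by
    apply (pow_right_strictAnti₀ π0 Φ.lt).injective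
    have e1 : ∀ i, ‖Φ.ι X‖ ^ n i = ‖Φ.ι X‖ ^ m * ‖y i‖ := fun i => by
      rw [← norm_pow _ m, ← norm_mul, ← hn, map_mul, map_pow, norm_mul, norm_pow,
        nglb_unit Φ (ha i), one_mul]
    change ‖Φ.ι X‖ ^ _ = ‖Φ.ι X‖ ^ _
    rw [← Finset.prod_pow_eq_pow_sum, Finset.prod_congr rfl fun i _ => e1 i,
      Finset.prod_mul_distrib, ← norm_prod, hy, kn, ← hz, norm_pow z, zn, Finset.prod_const,
      Finset.card_univ, Fintype.card_fin, ← pow_mul, ← pow_mul, ← pow_mul, ← pow_add, mul_assoc]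
  obtain ⟨i0, -, hi0⟩ := Finset.exists_max_image Finset.univ n Finset.univ_nonempty
  have hs1 : n i0 + ∑ i, n (i0.succAbove i) = ∑ i, n i := (Fin.sum_univ_succAbove n i0).symm
  have hs2 : ∑ i, n i ≤ (r + 1) * n i0 := by
    have := Finset.sum_le_card_nsmul Finset.univ n (n i0) hi0
    rwa [Finset.card_univ, Fintype.card_fin, smul_eq_mul] at this
  obtain ⟨N, hN⟩ := Nat.exists_eq_add_of_le (sm_num m D k r (n i0) _ k0
    (hs1.trans (by rw [hsum, hD'])) (hs1 ▸ hs2))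
  obtain ⟨Y, hY, hY'⟩ : ∃ Y ∈ Q.sub Z, σ X = Q.j X ^ (m * (D' + 1)) * Y := by
    obtain ⟨f, s, hs⟩ := s5 X
    have e1 := congrArg Q.ι hs
    rw [map_mul, map_mul, s2, mul_zero, zero_mul, map_sub, s3, Q.hι, ← hh', ← map_sub] at e1
    obtain ⟨s', hs'⟩ := s6 _ e1
    rw [map_sub, map_mul, map_pow] at hs'
    exact ⟨Q.j (X * h) + Z * (s - s'), (Q.mem_sub _ _).2 ⟨X * h, s - s', by ring⟩, by
      linear_combination hs - hs'⟩
  let x : Q.L := algebraMap Q.S Q.L (Q.j X)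
  let v' : Q.L := IsLocalization.Away.invSelf (Q.j X)
  have hv' : x * v' = 1 := IsLocalization.Away.mul_invSelf _
  let T : Fin (r + 1) → Q.L := fun i => algebraMap Q.S Q.L (Q.j (a i)) * x ^ n i * v' ^ m
  have hT1 : ∀ i, Q.ev (T i) = y i := fun i => by
    have e1 := congrArg Q.ev hv'
    rw [map_mul, map_one, Q.ev_algebraMap, Q.hι] at e1
    have e2 := hn i
    rw [map_mul, map_pow] at e2
    rw [map_mul, map_mul, map_pow, map_pow, Q.ev_algebraMap, Q.ev_algebraMap, Q.hι, Q.hι, e2,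
      mul_right_comm, ← mul_pow, e1, one_pow, one_mul]
  obtain ⟨U', hU'⟩ := (IsUnit.prod_univ_iff.2 fun i => ha (i0.succAbove i)).exists_right_inv
  have hP : ∏ i, T (i0.succAbove i) =
      algebraMap Q.S Q.L (Q.j (∏ i, (a (i0.succAbove i) : Φ.U.W⟦X⟧))) *
        x ^ (∑ i, n (i0.succAbove i)) * v' ^ (m * r) := by
    simp only [T, Finset.prod_mul_distrib, Finset.prod_pow_eq_pow_sum, map_prod, Finset.sum_const,
      Finset.card_univ, Fintype.card_fin, smul_eq_mul, mul_comm r m]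
  have hUU : algebraMap Q.S Q.L (Q.j (∏ i, (a (i0.succAbove i) : Φ.U.W⟦X⟧))) *
      algebraMap Q.S Q.L (Q.j U') = 1 := by rw [← map_mul, ← map_mul, hU', map_one, map_one]
  obtain ⟨E, hE⟩ : ∃ E, (∏ i, T (i0.succAbove i)) * E = 1 := by
    rw [hP]
    exact (((IsUnit.of_mul_eq_one _ hUU).mul ((IsUnit.of_mul_eq_one _ hv').pow _)).mul
      ((IsUnit.of_mul_eq_one_right _ hv').pow _)).exists_right_inv
  have hva : IsAlgebraic (Polynomial (ZMod p)) (Q.red x) ∧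
      IsAlgebraic (Polynomial (ZMod p)) (Q.red v') := by
    have e := congrArg Q.red hv'
    rw [map_mul, map_one] at e
    have h := nglc_alg Q Polynomial.X
    rw [Polynomial.coe_X, ← Q.red_algebraMap] at h
    exact ⟨h, eq_inv_of_mul_eq_one_right e ▸ h.inv⟩
  refine ⟨Φ, Q, Z, m, Q.sub (Q.j X ^ (m * D) * Z), β,
    i0.insertNth (algebraMap Q.S Q.L (β c) * E) fun i => T (i0.succAbove i), s1, s2, Q.j_sub _,
    fun c hc h0 => ?_, hB, fun w hw => ?_, ?_, fun i => ?_⟩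
  · obtain ⟨f, hf⟩ := (Q.mem_sub _ c).1 hc
    have := map_dvd Q.ι hf
    rw [map_mul, s2, mul_zero, zero_dvd_iff, map_sub, h0, Q.hι, zero_sub, neg_eq_zero] at this
    exact (sub_add_cancel c (Q.j f)) ▸ hf.add (hdd.trans (s6 f this))
  · obtain ⟨f, hf⟩ := g1 (Φ.ι X ^ m * w) (mul_mem (pow_mem (g2 _) _) (hT w (.inr hw))) (hle w hw)
    exact hf ▸ Φ.poly f
  · rw [Fin.prod_insertNth, mul_assoc, mul_comm E, hE, mul_one]
  · refine Fin.succAboveCases i0 ?_ (fun i => ?_) i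
    · rw [Fin.insertNth_apply_same]
      refine ⟨?_, ?_, Q.j X ^ (m * D + N) * (Y ^ k * σ w * Q.j U'), ?_, ?_⟩
      · have e1 := congrArg Q.ev hE
        rw [map_mul, map_prod, map_one, Finset.prod_congr rfl fun i _ => hT1 _] at e1
        rw [map_mul, Q.ev_algebraMap, (hB c).2.1, ← hy, Fin.prod_univ_succAbove y i0, mul_assoc,
          e1, mul_one]
      · rw [map_mul, Q.red_algebraMap, (hB c).2.2.2 hc1, zero_mul]
        exact isAlgebraic_zero
      · obtain ⟨f, s, hs⟩ := (Q.mem_sub Z _).1 (mul_mem (mul_mem (pow_mem hY k)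
          ((Q.mem_sub Z _).2 ((s5 w).imp fun _ h => (dvd_mul_left _ _).trans h))) (Q.j_sub Z U'))
        exact (Q.mem_sub _ _).2 ⟨X ^ (m * D + N) * f, Q.j X ^ N * s, by
          rw [map_mul, map_pow, ← mul_sub, hs]; ring⟩
      · have e1 : algebraMap Q.S Q.L (β c) =
            x ^ (m * (D' + 1) * k) * algebraMap Q.S Q.L (Y ^ k * σ w) := by
          rw [hβ c _ hk, map_mul σ, map_pow σ, hY', ← map_pow (algebraMap Q.S Q.L),
            ← map_mul (algebraMap Q.S Q.L)]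
          congr 1
          ring
        rw [e1, map_mul _ (Q.j X ^ _), map_pow _ (Q.j X), map_mul _ _ (Q.j U')]
        refine sm_alg x v' _ _ _ E m _ _ _ r hv' hUU (hP ▸ hE) ?_
        rw [hD', hN]
        ring
    · rw [Fin.insertNth_apply_succAbove]
      refine ⟨hT1 _, ?_, Q.j ((a (i0.succAbove i) : Φ.U.W⟦X⟧) * X ^ n (i0.succAbove i)),
        Q.j_sub _ _, ?_⟩
      · rw [map_mul, map_mul, map_pow, map_pow, Q.red_algebraMap]
        exact ((nglc_alg Q _).mul (hva.1.pow _)).mul (hva.2.pow _)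
      · rw [map_mul Q.j, map_pow Q.j, map_mul (algebraMap Q.S Q.L), map_pow (algebraMap Q.S Q.L),
          mul_left_comm (x ^ m), ← mul_pow, hv', one_pow, mul_one]

/-- `P` is `O[t_1, ..., t_j] / (t_1 ⋯ t_j - c)`. -/
structure SP {O P : Type} [CommRing O] [CommRing P] [Algebra O P] (c : O) {j : ℕ}
    (t : Fin j → P) : Prop where
  ind : ∀ M : P → Prop, (∀ a, M (algebraMap O P a)) → (∀ i, M (t i)) →
    (∀ f g, M f → M g → M (f + g)) → (∀ f g, M f → M g → M (f * g)) → ∀ f, M f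
  rel : ∏ i, t i = algebraMap O P c
  lift : ∀ (Λ : Type) [CommRing Λ] (β : O →+* Λ) (τ : Fin j → Λ), ∏ i, τ i = β c →
    ∃ β' : P →+* Λ, (∀ a, β' (algebraMap O P a) = β a) ∧ ∀ i, β' (t i) = τ i

lemma sm_sp {O : Type} [CommRing O] (c : O) (j : ℕ) :
    SP (P := MvPolynomial (Fin j) O ⧸
      Ideal.span {∏ i, MvPolynomial.X i - MvPolynomial.C (σ := Fin j) c}) c
      fun i => Ideal.Quotient.mk _ (MvPolynomial.X i) where
  ind := fun M h1 h2 h3 h4 f => by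
    obtain ⟨a, rfl⟩ := Ideal.Quotient.mk_surjective f
    induction a using MvPolynomial.induction_on with
    | C a => exact h1 a
    | add f g hf hg => rw [map_add]; exact h3 _ _ hf hg
    | mul_X f i hf => rw [map_mul]; exact h4 _ _ hf (h2 i)
  rel := by
    rw [← map_prod]
    exact Ideal.Quotient.eq.2 (Ideal.mem_span_singleton_self _)
  lift := fun Λ _ β τ h => ⟨Ideal.Quotient.lift _ (MvPolynomial.eval₂Hom β τ) (fun a ha => by
      obtain ⟨e, rfl⟩ := Ideal.mem_span_singleton.1 ha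
      simp [h]),
    fun a => MvPolynomial.eval₂Hom_C β τ a, fun i => MvPolynomial.eval₂Hom_X' β τ i⟩

lemma SP.ind' {O P : Type} [CommRing O] [CommRing P] [Algebra O P] {c : O} {j : ℕ}
    {t : Fin j → P} (h : SP c t) {d : ℕ} (M : MvPolynomial (Fin d) P → Prop)
    (h1 : ∀ a, M (MvPolynomial.C (algebraMap O P a))) (h2 : ∀ i, M (MvPolynomial.C (t i)))
    (h3 : ∀ i, M (MvPolynomial.X i)) (h4 : ∀ f g, M f → M g → M (f + g))
    (h5 : ∀ f g, M f → M g → M (f * g)) (f : MvPolynomial (Fin d) P) : M f := by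
  induction f using MvPolynomial.induction_on with
  | C a =>
    exact h.ind (fun a => M (MvPolynomial.C a)) h1 h2
      (fun f g hf hg => by rw [map_add]; exact h4 _ _ hf hg)
      (fun f g hf hg => by rw [map_mul]; exact h5 _ _ hf hg) a
  | add f g hf hg => exact h4 _ _ hf hg
  | mul_X f i hf => exact h5 _ _ hf (h3 i)

/-- Lifting on one chart. -/
lemma sm_chart (K : IntermediateField ℚ_[p] (PadicAlgCl p)) [FiniteDimensional ℚ_[p] K]
    {O : Type} [CommRing O] (o : O →+* PadicAlgCl p) (ho : ∀ c, o c ∈ K ∧ ‖o c‖ ≤ 1) (c : O)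
    (hc0 : o c ≠ 0) (hc1 : ‖o c‖ < 1) {P : Type} [CommRing P] [Algebra O P] {j : ℕ}
    {t₀ : Fin j → P} (hP : SP c t₀) {G : Type} [CommRing G] {d : ℕ}
    (φ : MvPolynomial (Fin d) P →+* G) (hφ : φ.Etale) :
    ∃ (R : ℝ) (k : ℕ) (b : Fin k → G), 1 < R ∧ ∀ y : G →+* PadicAlgCl p,
      (∀ a, y (φ (MvPolynomial.C (algebraMap O _ a))) = o a) → (∀ i, ‖y (b i)‖ ≤ R) →
      ∃ (Φ : Frame p) (Q : Surf Φ) (ψ : G →+* Q.L), (∀ z, Q.ev (ψ z) = y z) ∧
        (∀ z, IsAlgebraic (Polynomial (ZMod p)) (Q.red (ψ z))) ∧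
        ∀ a, ‖o a‖ < 1 → Q.red (ψ (φ (MvPolynomial.C (algebraMap O _ a)))) = 0 := by
  let _ : Algebra (MvPolynomial (Fin d) P) G := φ.toAlgebra
  have _ : Algebra.Etale (MvPolynomial (Fin d) P) G := hφ
  obtain ⟨T, hT⟩ :=
    (Algebra.FiniteType.out : (⊤ : Subalgebra (MvPolynomial (Fin d) P) G).FG)
  let b' : Fin T.card → G := fun i => (T.equivFin.symm i : G)
  have hb' : Algebra.adjoin (MvPolynomial (Fin d) P) (Set.range b') = ⊤ := by
    rw [← hT]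
    congr 1
    ext g
    exact ⟨fun ⟨i, hi⟩ => hi ▸ (T.equivFin.symm i).2,
      fun hg => ⟨T.equivFin ⟨g, hg⟩, by simp [b']⟩⟩
  let t : Fin j → MvPolynomial (Fin d) P := fun i => MvPolynomial.C (t₀ i)
  have hs : Subring.closure ((Set.range fun a : O => MvPolynomial.C (algebraMap O P a)) ∪
      (Set.range t ∪ Set.range MvPolynomial.X)) = ⊤ :=
    eq_top_iff.2 fun f _ => hP.ind' (· ∈ Subring.closure _)
      (fun a => Subring.subset_closure (Or.inl ⟨a, rfl⟩))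
      (fun i => Subring.subset_closure (Or.inr (Or.inl ⟨i, rfl⟩)))
      (fun i => Subring.subset_closure (Or.inr (Or.inr ⟨i, rfl⟩)))
      (fun _ _ => add_mem) (fun _ _ => mul_mem) f
  obtain ⟨D, hD⟩ := newton _ hs b' hb'
  obtain ⟨z, hz0, hz1, hϖ⟩ := sm_base K o ho c hc0 hc1 j D
  have hzp : 0 < ‖z‖ := norm_pos_iff.mpr hz0
  let b : Fin (T.card + d + j) → G :=
    Fin.append (Fin.append b' fun i => φ (MvPolynomial.X i)) fun i => φ (t i)
  refine ⟨‖z‖⁻¹, T.card + d + j, b, (one_lt_inv₀ hzp).mpr hz1, fun y hy hR => ?_⟩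
  obtain ⟨Φ, Q, Z, m, S₀, β, τ, hZ, hZ0, hj, hk, hβ, hq, hτ, hτ'⟩ := hϖ (fun i => y (φ (t i)))
    (by rw [← map_prod, ← map_prod, ← map_prod, hP.rel, hy])
    (Set.range fun i => y (b i)) (Set.finite_range _)
    (fun i => ⟨Fin.natAdd _ i, congrArg y (Fin.append_right _ _ i)⟩) (by
      rintro _ ⟨i, rfl⟩
      rw [norm_mul]
      exact (mul_le_mul_of_nonneg_left (hR i) hzp.le).trans (mul_inv_cancel₀ hzp.ne').le)
  choose q hq using fun i => hq _ ⟨Fin.castAdd j i, rfl⟩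
  simp only [b, Fin.append_left] at hq
  let v : Q.L := IsLocalization.Away.invSelf (Q.j X)
  have hv : algebraMap Q.S Q.L (Q.j X) * v = 1 := IsLocalization.Away.mul_invSelf _
  obtain ⟨β', hβ1, hβ2⟩ := hP.lift Q.L ((algebraMap Q.S Q.L).comp β) τ hτ
  let ψ₀ : MvPolynomial (Fin d) P →+* Q.L := MvPolynomial.eval₂Hom β'
    (fun i => algebraMap Q.S Q.L (Q.j (q (Fin.natAdd T.card i) : Φ.U.W⟦X⟧)) * v ^ m)
  have hC : ∀ a, ψ₀ (MvPolynomial.C (algebraMap O _ a)) = algebraMap Q.S Q.L (β a) := fun a =>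
    (MvPolynomial.eval₂Hom_C _ _ _).trans (hβ1 a)
  have ht : ∀ i, ψ₀ (t i) = τ i := fun i =>
    (MvPolynomial.eval₂Hom_C _ _ _).trans (hβ2 i)
  have hX : ∀ i, ψ₀ (MvPolynomial.X i) =
      algebraMap Q.S Q.L (Q.j (q (Fin.natAdd T.card i) : Φ.U.W⟦X⟧)) * v ^ m := fun i =>
    MvPolynomial.eval₂Hom_X' _ _ i
  have hc : ∀ f, y (φ f) = Q.ev (ψ₀ f) := hP.ind' (fun f => y (φ f) = Q.ev (ψ₀ f))
    (fun a => by rw [hy, hC, Q.ev_algebraMap, (hβ a).2.1])
    (fun i => ((congrArg Q.ev (ht i)).trans (hτ' i).1).symm)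
    (fun i => by
      have e := congrArg Q.ev hv
      rw [map_mul, map_one, Q.ev_algebraMap, Q.hι] at e
      rw [hX, map_mul, map_pow, Q.ev_algebraMap, Q.hι, hq,
        Fin.append_right, mul_right_comm, ← mul_pow, e, one_pow, one_mul])
    (fun f g hf hg => by rw [map_add, map_add, map_add, map_add, hf, hg])
    (fun f g hf hg => by rw [map_mul, map_mul, map_mul, map_mul, hf, hg])
  obtain ⟨ψ, hψ, hψ'⟩ := hD Q.S Q.L (PadicAlgCl p) (maximalIdeal Q.S) (Q.j X) Z Q.ev m _ S₀ ψ₀ y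
    Q.X_ne hZ (by rw [Q.ev_algebraMap, hZ0]) le_rfl (hj X)
    (fun c h h' => hk c h (by rwa [Q.ev_algebraMap] at h'))
    (by
      rintro _ (⟨a, rfl⟩ | ⟨i, rfl⟩ | ⟨i, rfl⟩)
      · exact ⟨Q.j X ^ m * β a, mul_mem (pow_mem (hj X) m) (hβ a).1, by
          rw [hC, map_mul, map_pow]⟩
      · rw [ht]; exact (hτ' i).2.2
      · exact ⟨_, hj (q (Fin.natAdd T.card i)), by
          rw [hX, mul_left_comm, ← mul_pow, hv, one_pow, mul_one]⟩)
    hc (fun i => ⟨_, hj (q (Fin.castAdd d i)), by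
      rw [Q.ev_algebraMap, Q.ev_algebraMap, Q.hι, Q.hι, hq, Fin.append_left]⟩)
  have hva : IsAlgebraic (Polynomial (ZMod p)) (Q.red v) := by
    have e := congrArg Q.red hv
    rw [map_mul, map_one, Q.red_algebraMap] at e
    have h := nglc_alg Q Polynomial.X
    rw [Polynomial.coe_X] at h
    rw [eq_inv_of_mul_eq_one_right e]
    exact h.inv
  refine ⟨Φ, Q, ψ, hψ', fun w => alg_et (P := MvPolynomial (Fin d) P) (Q.red.comp ψ)
    (fun f => ?_) w, fun a h => ?_⟩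
  · rw [RingHom.comp_apply, hψ]
    refine hP.ind' (fun f => IsAlgebraic (Polynomial (ZMod p)) (Q.red (ψ₀ f))) (fun a => ?_)
      (fun i => (congrArg Q.red (ht i)).symm ▸ (hτ' i).2.1) (fun i => ?_) (fun f g hf hg => ?_)
      (fun f g hf hg => ?_) f
    · rw [hC, Q.red_algebraMap]; exact (hβ a).2.2.1
    · rw [hX, map_mul, map_pow, Q.red_algebraMap]
      exact (nglc_alg Q _).mul (hva.pow m)
    · rw [map_add, map_add]; exact hf.add hg
    · rw [map_mul, map_mul]; exact hf.mul hg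
  · have e : ψ (φ (MvPolynomial.C (algebraMap O _ a))) = ψ₀ (MvPolynomial.C (algebraMap O _ a)) :=
      hψ _
    rw [e, hC, Q.red_algebraMap]
    exact (hβ a).2.2.2 h

/-- Points of a semistable algebra that are close to integral lift to a surface. -/
lemma sm_near (K : IntermediateField ℚ_[p] (PadicAlgCl p)) [FiniteDimensional ℚ_[p] K]
    {O : Type} [CommRing O] (o : O →+* PadicAlgCl p) (ho : ∀ c, o c ∈ K ∧ ‖o c‖ ≤ 1) (c₀ : O)
    (hc0 : o c₀ ≠ 0) (hc1 : ‖o c₀‖ < 1) {P : Type} [CommRing P] [Algebra O P] {j : ℕ}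
    {t₀ : Fin j → P} (hP : SP c₀ t₀) (B : Type) [CommRing B] [Algebra O B]
    [Algebra P B] [IsScalarTower O P B] [Algebra.Smooth P B]
    (s : Set B) (hs : Algebra.adjoin O s = ⊤) :
    ∃ r : ℝ, 1 < r ∧ ∀ y : B →+* PadicAlgCl p, (∀ c, y (algebraMap O B c) = o c) →
      (∀ a ∈ s, ‖y a‖ ≤ r) →
      ∃ (Φ : Frame p) (Q : Surf Φ) (ψ : B →+* Q.L), (∀ z, Q.ev (ψ z) = y z) ∧
        (∀ z, IsAlgebraic (Polynomial (ZMod p)) (Q.red (ψ z))) ∧
        ∀ c, ‖o c‖ < 1 → Q.red (ψ (algebraMap O B c)) = 0 := by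
  obtain ⟨k, g, c, hsum, hch⟩ := charts P B
  choose d φ hφe hφC' using hch
  have hφC : ∀ i a, φ i (MvPolynomial.C (algebraMap O _ a)) =
      algebraMap B _ (algebraMap O B a) := fun i a => by
    rw [hφC', ← IsScalarTower.algebraMap_apply O P B]
  choose R n b hR hlift using fun i => sm_chart K o ho c₀ hc0 hc1 hP (φ i) (hφe i)
  have hs' := closure_adjoin s hs
  obtain ⟨D1, hD1⟩ := grow_norm _ hs' c
  choose D2 hD2 using fun i => grow_norm _ (closure_away (G := Localization.Away (g i)) (g i) _ hs'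
    (IsLocalization.Away.invSelf (g i)) (IsLocalization.Away.mul_invSelf (g i))) (b i)
  obtain ⟨r, hr, hrR⟩ := near_one R hR (fun i => (D1 + 1) * D2 i)
  refine ⟨r, hr, fun y hy1 hy2 => ?_⟩
  have hy : ∀ a ∈ Set.range (algebraMap O B) ∪ s, ‖y a‖ ≤ r := by
    rintro a (⟨x, rfl⟩ | ha)
    · rw [hy1]
      exact (ho x).2.trans hr.le
    · exact hy2 a ha
  obtain ⟨i, hi⟩ := nglf_big (fun i => y (c i) * y (g i)) (by
    simp only [← map_mul, ← map_sum, hsum, map_one])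
  rw [norm_mul] at hi
  have hc := hD1 p r hr.le y hy i
  have hg0 : y (g i) ≠ 0 := by
    intro h
    rw [h, norm_zero, mul_zero] at hi
    exact absurd hi (by norm_num)
  have hu : IsUnit (y (g i)) := IsUnit.mk0 _ hg0
  let y' : Localization.Away (g i) →+* PadicAlgCl p := IsLocalization.Away.lift (g i) hu
  have hy' : ∀ a, y' (algebraMap B _ a) = y a := IsLocalization.Away.lift_eq (g i) hu
  have hr1 : 1 ≤ r ^ (D1 + 1) := one_le_pow₀ hr.le
  have ht : ‖y' (IsLocalization.Away.invSelf (g i))‖ ≤ r ^ (D1 + 1) := by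
    have h1 : y (g i) * y' (IsLocalization.Away.invSelf (g i)) = 1 := by
      rw [← hy', ← map_mul, IsLocalization.Away.mul_invSelf, map_one]
    have h2 : ‖y (g i)‖ * ‖y' (IsLocalization.Away.invSelf (g i))‖ = 1 := by
      rw [← norm_mul, h1, norm_one]
    calc ‖y' (IsLocalization.Away.invSelf (g i))‖
        ≤ ‖y (c i)‖ * ‖y (g i)‖ * ‖y' (IsLocalization.Away.invSelf (g i))‖ :=
          le_mul_of_one_le_left (norm_nonneg _) hi
      _ = ‖y (c i)‖ := by rw [mul_assoc, h2, mul_one]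
      _ ≤ r ^ D1 := hc
      _ ≤ r ^ (D1 + 1) := pow_le_pow_right₀ hr.le (Nat.le_succ _)
  have hb : ∀ j, ‖y' (b i j)‖ ≤ R i := fun j => by
    refine (hD2 i p (r ^ (D1 + 1)) hr1 y' ?_ j).trans ?_
    · rintro a (⟨x, hx, rfl⟩ | ha)
      · rw [hy']
        exact (hy x hx).trans (le_self_pow₀ hr.le (Nat.succ_ne_zero _))
      · rw [Set.mem_singleton_iff.1 ha]
        exact ht
    · rw [← pow_mul]
      exact hrR i
  obtain ⟨Φ, Q, ψ, h1, h2, h3⟩ := hlift i y' (fun x => by rw [hφC, hy', hy1]) hb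
  refine ⟨Φ, Q, ψ.comp (algebraMap B _), fun z => ?_, fun z => h2 _, fun x hx => ?_⟩
  · rw [RingHom.comp_apply, h1, hy']
  · rw [RingHom.comp_apply, ← hφC]
    exact h3 x hx

open CategoryTheory CommAlgCat in
theorem sm_main (p l : ℕ) [Fact p.Prime] (hl : l.Prime) (hlp : l ≠ p)
    (K : IntermediateField ℚ_[p] (PadicAlgCl p)) [FiniteDimensional ℚ_[p] K] (O A F : Type)
    [CommRing O] [Algebra O (PadicAlgCl p)]
    (hO : ∀ c, algebraMap O (PadicAlgCl p) c ∈ K ∧ ‖algebraMap O (PadicAlgCl p) c‖ ≤ 1)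
    (c₀ : O) (hc0 : algebraMap O (PadicAlgCl p) c₀ ≠ 0) (hc1 : ‖algebraMap O (PadicAlgCl p) c₀‖ < 1)
    {P : Type} [CommRing P] [Algebra O P] [Algebra.FiniteType O P] {j₀ : ℕ} {t₀ : Fin j₀ → P}
    (hP : SP c₀ t₀) [CommRing A] [Algebra O A] [Algebra P A] [IsScalarTower O P A]
    [Algebra.Smooth P A] (s : Set A) (hs : Algebra.adjoin O s = ⊤)
    [Field F] [CharZero F] (L : LocSys A F) (hL : Adic L l) :
    ∃ r : ℝ, 1 < r ∧ ∀ i : ℤ,
      (∀ [Algebra A (Omp p)],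
        (∀ c, ‖algebraMap O (PadicAlgCl p) c‖ < 1 → algebraMap A (Omp p) (algebraMap O A c) = 0) →
        (∀ a, IsAlgebraic (Polynomial (ZMod p)) (algebraMap A (Omp p) a)) →
        WM L l i (ZMod p)⟦X⟧ (Omp p)) →
      ∀ [Algebra A (PadicAlgCl p)] [IsScalarTower O A (PadicAlgCl p)],
        (∀ a ∈ s, ‖algebraMap A (PadicAlgCl p) a‖ ≤ r) → WM L l i ℤ_[p] (PadicAlgCl p) := by
  obtain ⟨V, hV, hT⟩ := hL
  choose T hT using hT
  obtain ⟨N, hN⟩ := fib_bound A (T 1).unop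
  have step : ∀ k : Fin (N + 1), ∃ (R : ℝ) (D : ℕ), 1 < R ∧ ∀ r : ℝ, 1 ≤ r → r ^ D ≤ R →
      ∀ [Algebra A (PadicAlgCl p)] [IsScalarTower O A (PadicAlgCl p)],
        (∀ a ∈ s, ‖algebraMap A (PadicAlgCl p) a‖ ≤ r) →
        ∀ t : Fin k → (T 1).unop →ₐ[A] PadicAlgCl p, ∃ (Φ : Frame p) (Q : Surf Φ) (x : A →+* Q.L),
          (∀ a, Q.ev (x a) = algebraMap A _ a) ∧
          (∀ a, IsAlgebraic (Polynomial (ZMod p)) (Q.red (x a))) ∧
          (∀ c, ‖algebraMap O (PadicAlgCl p) c‖ < 1 → Q.red (x (algebraMap O A c)) = 0) ∧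
          ∀ i, ∃ t' : (T 1).unop →+* Q.L, (∀ a, t' (algebraMap A _ a) = x a) ∧
            ∀ z, Q.ev (t' z) = t i z := fun k => by
    obtain ⟨B, _, _, _, _, j, hj⟩ := tpow A (T 1).unop k
    let : Algebra O B := ((algebraMap A B).comp (algebraMap O A)).toAlgebra
    have : IsScalarTower O A B := IsScalarTower.of_algebraMap_eq' rfl
    let : Algebra P B := ((algebraMap A B).comp (algebraMap P A)).toAlgebra
    have : IsScalarTower P A B := IsScalarTower.of_algebraMap_eq' rfl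
    have : IsScalarTower O P B := IsScalarTower.of_algebraMap_eq (R := O) (S := P) (A := B) fun a =>
      congrArg (algebraMap A B) (IsScalarTower.algebraMap_apply O P A a)
    have : Algebra.Smooth P B := Algebra.Smooth.comp P A B
    have : Algebra.FiniteType O B := Algebra.FiniteType.trans (S := P) inferInstance
      inferInstance
    obtain ⟨g, hg⟩ := (Algebra.FiniteType.out : (⊤ : Subalgebra O B).FG)
    obtain ⟨R, hR, h⟩ := sm_near K (algebraMap O (PadicAlgCl p)) hO c₀ hc0 hc1 hP B g hg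
    obtain ⟨D, hD⟩ := grow_int (B := B) _ (closure_adjoin s hs) (fun b : g => (b : B))
    refine ⟨R, D, hR, fun r hr hrD _ _ hx t => ?_⟩
    obtain ⟨b, hb⟩ := hj (PadicAlgCl p) t
    obtain ⟨Φ, Q, ψ, h1, h2, h3⟩ := h b.toRingHom
      (fun c => (b.commutes _).trans (IsScalarTower.algebraMap_apply O A _ c).symm)
      fun a ha => (hD p r hr b.toRingHom (by
        rintro a (⟨c, rfl⟩ | ha)
        · exact (congrArg norm ((b.commutes _).trans
            (IsScalarTower.algebraMap_apply O A _ c).symm)).trans_le ((hO c).2.trans hr)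
        · exact (congrArg norm (b.commutes a)).trans_le (hx a ha)) ⟨a, ha⟩).trans hrD
    exact ⟨Φ, Q, ψ.comp (algebraMap A B), fun a => (h1 _).trans (b.commutes a), fun a => h2 _, h3,
      fun i => ⟨ψ.comp (j i).toRingHom, fun a => congrArg ψ ((j i).commutes a),
        fun z => (h1 _).trans (AlgHom.congr_fun (hb i) z)⟩⟩
  choose R D hR h using step
  obtain ⟨r, hr, hrD⟩ := near_one R hR D
  refine ⟨r, hr, fun i H _ _ hx => ?_⟩
  obtain ⟨k, hk, t, ht⟩ := hN (PadicAlgCl p)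
  obtain ⟨Φ, Q, x, h1, h2, h3, h4⟩ := h ⟨k, Nat.lt_succ_of_le hk⟩ r hr.le (hrD _) hx t
  refine ng_core l hl hlp L i V hV T hT Q x h1 (fun s => ?_) fun e => H
    (fun c hc => (e _).trans (h3 c hc)) fun a => e a ▸ h2 a
  obtain ⟨i, rfl⟩ := ht s
  exact h4 i

end Pool.Agent.MP_855f4c_ag.LP
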