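import Pool.Agent.MP_855f4c_ag.LP.Alg

namespace Pool.Agent.MP_855f4c_ag.LP

open IsLocalRing

variable {R : Type*} [CommRing R] [IsNoetherianRing R] [IsLocalRing R]

lemma ngkr_max (x q : R) (hx : x ∈ maximalIdeal R) (hq : q ∈ maximalIdeal R) (f : R)
    (hf : ¬ q ∣ f) :
    ∃ (i : ℕ) (u c : R), f = x ^ i * u + q * c ∧ ¬ ∃ u' c', f = x ^ (i + 1) * u' + q * c' := by
  classical
  have hex : ∃ n : ℕ, ¬ ∃ u c, f = x ^ n * u + q * c := by
    by_contra h
    push Not at h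
    have hne : Ideal.span {q} ≠ ⊤ := fun e => by
      rw [Ideal.span_singleton_eq_top] at e
      exact (mem_maximalIdeal q).1 hq e
    have : Nontrivial (R ⧸ Ideal.span {q}) := Ideal.Quotient.nontrivial_iff.2 hne
    have : IsLocalRing (R ⧸ Ideal.span {q}) :=
      IsLocalRing.of_surjective' (Ideal.Quotient.mk _) Ideal.Quotient.mk_surjective
    have hI : Ideal.span {Ideal.Quotient.mk (Ideal.span {q}) x} ≠ ⊤ := fun e => by
      rw [Ideal.span_singleton_eq_top] at e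
      obtain ⟨v, hv⟩ := e.exists_right_inv
      obtain ⟨v, rfl⟩ := Ideal.Quotient.mk_surjective v
      rw [← map_mul, ← map_one (Ideal.Quotient.mk (Ideal.span {q})), Ideal.Quotient.eq,
        Ideal.mem_span_singleton] at hv
      obtain ⟨c, hc⟩ := hv
      have h1 : (1 : R) ∈ maximalIdeal R := by
        have : (1 : R) = x * v - q * c := by linear_combination -hc
        rw [this]
        exact sub_mem (Ideal.mul_mem_right _ _ hx) (Ideal.mul_mem_right _ _ hq)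
      exact (mem_maximalIdeal 1).1 h1 isUnit_one
    have hb := Ideal.iInf_pow_eq_bot_of_isLocalRing _ hI
    have hmem : Ideal.Quotient.mk (Ideal.span {q}) f ∈
        ⨅ n : ℕ, Ideal.span {Ideal.Quotient.mk (Ideal.span {q}) x} ^ n := by
      rw [Ideal.mem_iInf]
      intro n
      obtain ⟨u, c, h⟩ := h n
      rw [Ideal.span_singleton_pow, Ideal.mem_span_singleton]
      refine ⟨Ideal.Quotient.mk _ u, ?_⟩
      rw [← map_pow, ← map_mul, Ideal.Quotient.eq, Ideal.mem_span_singleton]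
      exact ⟨c, by linear_combination h⟩
    rw [hb, Ideal.mem_bot, Ideal.Quotient.eq_zero_iff_mem, Ideal.mem_span_singleton] at hmem
    exact hf hmem
  have h0 : Nat.find hex ≠ 0 := fun e => by
    have := Nat.find_spec hex
    rw [e] at this
    exact this ⟨f, 0, by ring⟩
  obtain ⟨i, hi⟩ := Nat.exists_eq_succ_of_ne_zero h0
  have h1 := Nat.find_min hex (m := i) (by omega)
  push Not at h1
  obtain ⟨u, c, h1⟩ := h1
  have h2 := Nat.find_spec hex
  rw [hi] at h2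
  exact ⟨i, u, c, h1, h2⟩

/-- Krull: an element outside `(q)` is a unit times a power of `x` modulo `q`. -/
lemma kr (x q : R) (hm : maximalIdeal R = Ideal.span {x, q}) (f : R) (hf : ¬ q ∣ f) :
    ∃ (i : ℕ) (u c : R), IsUnit u ∧ f = x ^ i * u + q * c := by
  obtain ⟨i, u, c, h1, h2⟩ := ngkr_max x q (hm ▸ Ideal.subset_span (by simp))
    (hm ▸ Ideal.subset_span (by simp)) f hf
  refine ⟨i, u, c, ?_, h1⟩
  by_contra hu
  have : u ∈ Ideal.span {x, q} := hm ▸ (mem_maximalIdeal u).2 hu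
  obtain ⟨a, b, hab⟩ := Ideal.mem_span_pair.1 this
  exact h2 ⟨a, c + x ^ i * b, by rw [h1, ← hab]; ring⟩

lemma kr_prime (x y : R) (hx : x ≠ 0) (hm : maximalIdeal R = Ideal.span {x, y})
    (hy : ∀ k : ℕ, ¬ x ∣ y ^ k) : Prime x := by
  have hm' : maximalIdeal R = Ideal.span {y, x} := by rw [hm, Set.pair_comm]
  refine ⟨hx, (mem_maximalIdeal x).1 (hm ▸ Ideal.subset_span (by simp)), fun a b hab => ?_⟩
  by_contra h
  push Not at h
  obtain ⟨i, u, c, hu, h1⟩ := kr y x hm' a h.1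
  obtain ⟨j, v, d, hv, h2⟩ := kr y x hm' b h.2
  obtain ⟨e, he⟩ := hab
  refine hy (i + j) ((hu.mul hv).dvd_mul_right.1 ⟨e - (c * b + y ^ i * u * d), ?_⟩)
  rw [h1, h2] at he
  rw [h2]
  linear_combination he

lemma ngkr_fac (x : R) (hx : ¬ IsUnit x) (s : R) (hs : s ≠ 0) :
    ∃ (i : ℕ) (t : R), s = x ^ i * t ∧ ¬ x ∣ t := by
  obtain ⟨i, u, c, h1, h2⟩ := ngkr_max x 0 ((mem_maximalIdeal x).2 hx) (zero_mem _) s
    (by rwa [zero_dvd_iff])
  refine ⟨i, u, by rw [h1]; ring, fun ⟨v, hv⟩ => h2 ⟨v, 0, by rw [h1, hv]; ring⟩⟩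

lemma kr_domain (x : R) (hx : Prime x) (h0 : x ∈ nonZeroDivisors R) : IsDomain R := by
  have : NoZeroDivisors R := ⟨fun {a b} hab => by
    by_contra h
    push Not at h
    obtain ⟨i, s, h1, hs⟩ := ngkr_fac x hx.not_isUnit a h.1
    obtain ⟨j, t, h2, ht⟩ := ngkr_fac x hx.not_isUnit b h.2
    have h3 : s * t * x ^ (i + j) = 0 := by rw [← hab, h1, h2]; ring
    have h4 : s * t = 0 := (mem_nonZeroDivisors_iff_right.1 (pow_mem h0 (i + j))) _ h3
    rcases hx.dvd_or_dvd (h4 ▸ dvd_zero x : x ∣ s * t) with h | h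
    exacts [hs h, ht h]⟩
  exact NoZeroDivisors.to_isDomain R

/-- A prime that contains `y` and not `x` consists of multiples of `y`. -/
lemma kr_over (x y : R) (hm : maximalIdeal R = Ideal.span {x, y}) (P : Ideal R) [P.IsPrime]
    (hy : y ∈ P) (hx : x ∉ P) (f : R) (hf : f ∈ P) : y ∣ f := by
  by_contra h
  obtain ⟨i, u, c, hu, h1⟩ := kr x y hm f h
  have h2 : x ^ i * u ∈ P := by
    have : x ^ i * u = f - y * c := by rw [h1]; ring
    rw [this]
    exact sub_mem hf (Ideal.mul_mem_right _ _ hy)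
  rcases ‹P.IsPrime›.mem_or_mem h2 with h3 | h3
  · exact hx (‹P.IsPrime›.mem_of_pow_mem i h3)
  · exact ‹P.IsPrime›.ne_top (P.eq_top_of_isUnit_mem h3 hu)

lemma ngkr_sat (x y : R) (hm : maximalIdeal R = Ideal.span {x, y}) (I : Ideal R)
    (hI : ∀ s, x * s ∈ I → s ∈ I) : ∃ g, I = Ideal.span {g} := by
  classical
  have hm' : maximalIdeal R = Ideal.span {y, x} := by rw [hm, Set.pair_comm]
  have hxm : x ∈ maximalIdeal R := hm ▸ Ideal.subset_span (by simp)
  have key : ∀ g ∈ I, (∀ f ∈ I, ∃ a s, f = a * g + x * s) → I = Ideal.span {g} := by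
    intro g hg h
    refine le_antisymm ?_ (by rwa [Ideal.span_singleton_le_iff_mem])
    refine Submodule.le_of_le_smul_of_le_jacobson_bot (I := maximalIdeal R)
      (IsNoetherian.noetherian I) (maximalIdeal_le_jacobson _) fun f hf => ?_
    obtain ⟨a, s, hs⟩ := h f hf
    have h1 : x * s ∈ I := by
      have : x * s = f - a * g := by rw [hs]; ring
      rw [this]
      exact sub_mem hf (Ideal.mul_mem_left _ _ hg)
    rw [hs]
    exact Submodule.add_mem_sup (Ideal.mem_span_singleton'.2 ⟨a, rfl⟩)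
      (Submodule.smul_mem_smul hxm (hI s h1))
  by_cases hex : ∃ i : ℕ, ∃ u c, IsUnit u ∧ y ^ i * u + x * c ∈ I
  · obtain ⟨u, c, hu, hg⟩ := Nat.find_spec hex
    refine ⟨_, key _ hg fun f hf => ?_⟩
    by_cases hxf : x ∣ f
    · obtain ⟨s, hs⟩ := hxf
      exact ⟨0, s, by rw [hs]; ring⟩
    · obtain ⟨j, v, d, hv, h1⟩ := kr y x hm' f hxf
      obtain ⟨k, hk⟩ := Nat.exists_eq_add_of_le (Nat.find_min' hex ⟨v, d, hv, h1 ▸ hf⟩)
      obtain ⟨w, hw⟩ := hu.exists_right_inv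
      refine ⟨y ^ k * v * w, d - y ^ k * v * w * c, ?_⟩
      rw [h1, hk]
      generalize Nat.find hex = i
      linear_combination (-(y ^ (i + k) * v)) * hw
  · refine ⟨0, key 0 (zero_mem _) fun f hf => ?_⟩
    by_cases hxf : x ∣ f
    · obtain ⟨s, hs⟩ := hxf
      exact ⟨0, s, by rw [hs]; ring⟩
    · obtain ⟨j, v, d, hv, h1⟩ := kr y x hm' f hxf
      exact (hex ⟨j, v, d, hv, h1 ▸ hf⟩).elim

lemma kr_pid [IsDomain R] (x y : R) (hx : x ≠ 0) (hm : maximalIdeal R = Ideal.span {x, y})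
    (hy : ∀ k : ℕ, ¬ x ∣ y ^ k) (Λ : Type*) [CommRing Λ] [Algebra R Λ] [IsLocalization.Away x Λ] :
    IsPrincipalIdealRing Λ := by
  refine ⟨fun J => ?_⟩
  obtain ⟨g, hg⟩ := ngkr_sat x y hm (J.comap (algebraMap R Λ)) fun s hs => by
    rw [Ideal.mem_comap, map_mul] at hs
    exact (J.unit_mul_mem_iff_mem (IsLocalization.Away.algebraMap_isUnit x)).1 hs
  refine ⟨algebraMap R Λ g, ?_⟩
  rw [← IsLocalization.map_under (Submonoid.powers x) Λ J, Ideal.under, hg, Ideal.map_span,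
    Set.image_singleton]

lemma kr_unit [IsDomain R] (x : R) (hx : Prime x) (Λ : Type*) [CommRing Λ] [Algebra R Λ]
    [IsLocalization.Away x Λ] (a : Λ) (ha : IsUnit a) :
    ∃ (i j : ℕ) (w : R), IsUnit w ∧ a * algebraMap R Λ x ^ j = algebraMap R Λ (w * x ^ i) := by
  obtain ⟨b, hb⟩ := ha.exists_right_inv
  obtain ⟨j, s, hs⟩ := IsLocalization.Away.surj x a
  obtain ⟨k, t, ht⟩ := IsLocalization.Away.surj x b
  have hinj : Function.Injective (algebraMap R Λ) :=
    IsLocalization.injective Λ (powers_le_nonZeroDivisors_of_noZeroDivisors hx.ne_zero)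
  have h1 : s * t = x ^ (j + k) := hinj (by
    rw [map_mul, map_pow, ← hs, ← ht]
    linear_combination (algebraMap R Λ x ^ (j + k)) * hb)
  obtain ⟨i, -, w, hw⟩ := (dvd_prime_pow hx (j + k)).1 ⟨t, h1.symm⟩
  refine ⟨i, j, ↑w⁻¹, Units.isUnit _, ?_⟩
  rw [hs, ← hw, mul_comm s, ← mul_assoc, Units.inv_mul, one_mul]

end Pool.Agent.MP_855f4c_ag.LP

namespace Pool.Agent.MP_855f4c_ag.LP

open PowerSeries IsLocalRing

lemma ngcp_mem {R : Type*} [CommRing R] [IsLocalRing R] (f : R⟦X⟧) :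
    f ∈ maximalIdeal R⟦X⟧ ↔ constantCoeff f ∈ maximalIdeal R := by
  simp only [mem_maximalIdeal, mem_nonunits_iff, isUnit_iff_constantCoeff]

lemma ngcp_pow {R : Type*} [CommRing R] [IsLocalRing R] (n : ℕ) (f : R⟦X⟧) :
    f ∈ maximalIdeal R⟦X⟧ ^ n ↔ ∀ k, coeff k f ∈ maximalIdeal R ^ (n - k) := by
  induction n generalizing f with
  | zero => simp
  | succ n ih =>
    refine ⟨fun hf k => ?_, fun hf => ?_⟩
    · rw [pow_succ] at hf
      refine Submodule.mul_induction_on hf (fun g hg h hh => ?_) fun g h hg hh => ?_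
      · rw [coeff_mul]
        refine Ideal.sum_mem _ fun p hp => ?_
        have hk : p.1 + p.2 = k := by simpa using hp
        rcases Nat.eq_zero_or_pos p.2 with h0 | h0
        · have := Ideal.mul_mem_mul ((ih g).1 hg p.1) ((ngcp_mem h).1 hh)
          rw [← pow_succ, ← coeff_zero_eq_constantCoeff_apply, ← h0] at this
          exact Ideal.pow_le_pow_right (by omega) this
        · exact Ideal.mul_mem_right _ _ (Ideal.pow_le_pow_right (by omega) ((ih g).1 hg p.1))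
      · rw [map_add]; exact Ideal.add_mem _ hg hh
    · rw [eq_X_mul_shift_add_const f]
      refine Ideal.add_mem _ ?_ ?_
      · rw [pow_succ']
        refine Ideal.mul_mem_mul ((ngcp_mem _).2 (by simp)) ((ih _).2 fun k => ?_)
        simpa using hf (k + 1)
      · have h1 : (maximalIdeal R).map (C : R →+* R⟦X⟧) ≤ maximalIdeal R⟦X⟧ :=
          Ideal.map_le_iff_le_comap.2 fun c hc => (ngcp_mem _).2 (by simpa using hc)
        refine Ideal.pow_right_mono h1 _ ?_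
        rw [← Ideal.map_pow]
        exact Ideal.mem_map_of_mem _ (by simpa using hf 0)

lemma cp_ps {R : Type*} [CommRing R] [IsLocalRing R] [IsAdicComplete (maximalIdeal R) R] :
    IsAdicComplete (maximalIdeal R⟦X⟧) R⟦X⟧ := by
  have h1 : IsHausdorff (maximalIdeal R⟦X⟧) R⟦X⟧ := ⟨fun f hf => by
    ext k
    refine IsHausdorff.haus' (I := maximalIdeal R) _ fun n => ?_
    simp only [SModEq.sub_mem, smul_eq_mul, Ideal.mul_top, sub_zero, ngcp_pow] at hf ⊢
    simpa using hf (n + k) k⟩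
  have h2 : IsPrecomplete (maximalIdeal R⟦X⟧) R⟦X⟧ := ⟨fun f hf => by
    simp only [SModEq.sub_mem, smul_eq_mul, Ideal.mul_top, ngcp_pow, map_sub] at hf ⊢
    choose L hL using fun k => IsPrecomplete.prec' (I := maximalIdeal R)
      (fun n => coeff k (f (n + k))) fun {a b} hab => by
        simpa [SModEq.sub_mem] using hf (Nat.add_le_add_right hab k) k
    refine ⟨mk L, fun n k => ?_⟩
    have h3 := hL k n
    rw [SModEq.sub_mem, smul_eq_mul, Ideal.mul_top] at h3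
    simpa using Ideal.add_mem _ (hf (Nat.le_add_right n k) k)
      (Ideal.pow_le_pow_right (Nat.sub_le n k) h3)⟩
  exact ⟨⟩

lemma cp_quot {R S : Type*} [CommRing R] [IsLocalRing R] [IsAdicComplete (maximalIdeal R) R]
    [CommRing S] [IsLocalRing S] [IsNoetherianRing S] (f : R →+* S) (hf : Function.Surjective f) :
    IsAdicComplete (maximalIdeal S) S := by
  let _ := f.toAlgebra
  have h1 : IsPrecomplete (maximalIdeal R) S := by
    refine AdicCompletion.of_surjective_iff.1 fun y => ?_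
    obtain ⟨z, rfl⟩ := AdicCompletion.map_surjective (maximalIdeal R) (f := Algebra.linearMap R S)
      hf y
    obtain ⟨x, rfl⟩ := AdicCompletion.of_surjective (maximalIdeal R) R z
    exact ⟨f x, (AdicCompletion.map_of _ (Algebra.linearMap R S) x).symm⟩
  have h2 : IsPrecomplete (maximalIdeal S) S := by
    rw [← map_maximalIdeal_of_surjective f hf]
    exact IsPrecomplete.map_algebraMap_iff.2 h1
  exact ⟨⟩

/-- A domain that is finite over a complete local ring is local. -/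
lemma cp_local {R S : Type*} [CommRing R] [IsNoetherianRing R] [IsLocalRing R]
    [IsAdicComplete (maximalIdeal R) R] [CommRing S] [IsDomain S] [Algebra R S]
    [Module.Finite R S] : IsLocalRing S := by
  have hc := complete_of_finite (S := S) (maximalIdeal R)
  have ha : IsArtinianRing (S ⧸ (maximalIdeal R).map (algebraMap R S)) := by
    let _ := Ideal.Quotient.field (maximalIdeal R)
    have := Module.Finite.of_restrictScalars_finite R (R ⧸ maximalIdeal R)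
      (S ⧸ (maximalIdeal R).map (algebraMap R S))
    exact IsArtinianRing.of_finite (R ⧸ maximalIdeal R) _
  generalize (maximalIdeal R).map (algebraMap R S) = I at hc ha
  have hu : ∀ x ∈ I, IsUnit (1 - x) := fun x hx => by
    simpa [sub_eq_neg_add] using
      Ideal.mem_jacobson_bot.1 (IsAdicComplete.le_jacobson_bot I hx) (-1)
  refine IsLocalRing.of_isUnit_or_isUnit_one_sub_self fun a => ?_
  obtain ⟨n, y, hy⟩ := IsArtinian.exists_pow_succ_smul_dvd (Ideal.Quotient.mk I a)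
    (1 : S ⧸ I)
  obtain ⟨b, rfl⟩ := Ideal.Quotient.mk_surjective y
  have h1 : ∀ k, Ideal.Quotient.mk I a ^ n * (Ideal.Quotient.mk I a * Ideal.Quotient.mk I b) ^ k =
      Ideal.Quotient.mk I a ^ n := fun k => by
    induction k with
    | zero => simp
    | succ k ih =>
      simp only [smul_eq_mul, mul_one, Nat.succ_eq_add_one] at hy
      linear_combination ih + (Ideal.Quotient.mk I a * Ideal.Quotient.mk I b) ^ k * hy
  have h2 : Ideal.Quotient.mk I ((a * b) ^ n) ^ 2 = Ideal.Quotient.mk I ((a * b) ^ n) := by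
    simp only [map_pow, map_mul]
    linear_combination (exp := 1) Ideal.Quotient.mk I b ^ n * h1 n
  obtain ⟨e, he, he'⟩ := HenselianRing.is_henselian (I := I) (Polynomial.X ^ 2 - Polynomial.X)
    (by monicity!) ((a * b) ^ n) (by
      rw [← Ideal.Quotient.eq_zero_iff_mem]
      simpa [sub_eq_zero] using h2) (by
      have h3 : ∀ t : S, (Polynomial.derivative (Polynomial.X ^ 2 - Polynomial.X)).eval t =
          t + t - 1 := fun t => by simp [add_mul]
      refine IsUnit.of_mul_eq_one (2 * Ideal.Quotient.mk I ((a * b) ^ n) - 1) ?_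
      rw [h3, map_sub, map_add, map_one]
      linear_combination 4 * h2)
  have h3 : e * (e - 1) = 0 := by
    simp only [Polynomial.IsRoot.def, Polynomial.eval_sub, Polynomial.eval_pow,
      Polynomial.eval_X] at he
    linear_combination he
  rcases mul_eq_zero.1 h3 with rfl | h4
  · have h5 : a ^ n ∈ I := by
      rw [zero_sub, neg_mem_iff, ← Ideal.Quotient.eq_zero_iff_mem, map_pow, map_mul] at he'
      rw [← Ideal.Quotient.eq_zero_iff_mem, map_pow, ← h1 n, he', mul_zero]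
    exact Or.inr (isUnit_of_dvd_unit (one_sub_dvd_one_sub_pow a n) (hu _ h5))
  · have h5 := hu _ he'
    rw [sub_eq_zero.1 h4, sub_sub_cancel] at h5
    rcases n with _ | n
    · simp only [smul_eq_mul, mul_one, Nat.succ_eq_add_one, zero_add, pow_one, pow_zero] at hy
      have h6 := hu (1 - a * b) (by
        rw [← Ideal.Quotient.eq_zero_iff_mem, map_sub, map_mul, hy, map_one, sub_self])
      exact Or.inl (isUnit_of_mul_isUnit_left (by simpa using h6))
    · exact Or.inl (isUnit_of_mul_isUnit_left ((isUnit_pow_iff n.succ_ne_zero).1 h5))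

/-- Evaluation of power series in a complete ring. -/
lemma cp_ev {R S : Type*} [CommRing R] [CommRing S] (I : Ideal S) [IsAdicComplete I S]
    (φ : R →+* S) (y : S) (hy : y ∈ I) :
    ∃ σ : R⟦X⟧ →+* S, (∀ w, σ (C w) = φ w) ∧ σ X = y := by
  have H : (Polynomial.X - Polynomial.C y).IsDistinguishedAt I :=
    ⟨⟨fun {n} hn => by
      obtain rfl : n = 0 := by have := Polynomial.natDegree_X_sub_C_le y; omega
      simpa using hy⟩, Polynomial.monic_X_sub_C y⟩
  obtain ⟨τ⟩ : Nonempty ((S⟦X⟧ ⧸ Ideal.span {((Polynomial.X - Polynomial.C y : Polynomial S) :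
      S⟦X⟧)}) →ₐ[S] S) :=
    ⟨(H.algEquivQuotient.symm.trans (Polynomial.quotientSpanXSubCAlgEquiv y) :)⟩
  have h1 : ∀ s, τ (Ideal.Quotient.mk _ (C s)) = s := fun s => τ.commutes s
  refine ⟨(τ.toRingHom.comp (Ideal.Quotient.mk _)).comp (map φ), fun w => by simpa using h1 _, ?_⟩
  have h2 : Ideal.Quotient.mk (Ideal.span {((Polynomial.X - Polynomial.C y : Polynomial S) :
      S⟦X⟧)}) X = Ideal.Quotient.mk _ (C y) :=
    Ideal.Quotient.eq.2 (Ideal.subset_span (by simp))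
  simpa [h2] using h1 y

lemma cp_ext {R S : Type*} [CommRing R] [CommRing S] [IsNoetherianRing S] [IsLocalRing S]
    (σ τ : R⟦X⟧ →+* S) (d : S) (h1 : ∀ w, d ∣ σ (C w) - τ (C w)) (h2 : d ∣ σ X - τ X)
    (h3 : ¬ IsUnit (σ X)) (h4 : ¬ IsUnit (τ X)) (f : R⟦X⟧) : d ∣ σ f - τ f := by
  have _ := h4
  have key : ∀ (n : ℕ) (f : R⟦X⟧), ∃ s ∈ maximalIdeal S ^ n, d ∣ σ f - τ f - s := fun n => by
    induction n with
    | zero => exact fun f => ⟨σ f - τ f, by simp, by simp⟩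
    | succ n ih =>
      intro f
      obtain ⟨g, c, rfl⟩ : ∃ g c, f = X * g + C c := ⟨_, _, eq_X_mul_shift_add_const f⟩
      obtain ⟨s, hs, hd⟩ := ih g
      refine ⟨σ X * s, by rw [pow_succ']; exact Ideal.mul_mem_mul h3 hs, ?_⟩
      convert ((hd.mul_left (σ X)).add (h2.mul_right (τ g))).add (h1 c) using 1
      simp only [map_add, map_mul]
      ring
  rw [← Ideal.mem_span_singleton, ← Ideal.Quotient.eq_zero_iff_mem]
  refine IsHausdorff.haus' (I := maximalIdeal S) _ fun n => ?_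
  obtain ⟨s, hs, hd⟩ := key n f
  rw [← Ideal.mem_span_singleton, ← Ideal.Quotient.eq] at hd
  have e : Ideal.Quotient.mk (Ideal.span {d}) s = s • (1 : S ⧸ Ideal.span {d}) := by
    rw [Algebra.smul_def, mul_one]; rfl
  rw [SModEq.sub_mem, sub_zero, hd, e]
  exact Submodule.smul_mem_smul hs Submodule.mem_top

end Pool.Agent.MP_855f4c_ag.LP

namespace Pool.Agent.MP_855f4c_ag.LP

lemma nggw_one {P : Type*} [CommRing P] (s : Set P) {x : P} (hx : x ∈ Subring.closure s) :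
    ∃ D : ℕ, ∀ (Λ : Type) [CommRing Λ] (F : ℕ → AddSubgroup Λ),
      Monotone F → 1 ∈ F 0 → (∀ i j, ∀ a ∈ F i, ∀ b ∈ F j, a * b ∈ F (i + j)) →
      ∀ ψ : P →+* Λ, (∀ a ∈ s, ψ a ∈ F 1) → ψ x ∈ F D := by
  induction hx using Subring.closure_induction with
  | mem x hx => exact ⟨1, fun Λ _ F _ _ _ ψ h => h x hx⟩
  | zero => exact ⟨0, fun Λ _ F _ _ _ ψ _ => by rw [map_zero]; exact (F 0).zero_mem⟩
  | one => exact ⟨0, fun Λ _ F _ h1 _ ψ _ => by rw [map_one]; exact h1⟩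
  | add x y _ _ hx hy =>
    obtain ⟨D, hD⟩ := hx
    obtain ⟨E, hE⟩ := hy
    refine ⟨max D E, fun Λ _ F hm h1 h2 ψ h => ?_⟩
    rw [map_add]
    exact (F _).add_mem (hm (le_max_left _ _) (hD Λ F hm h1 h2 ψ h))
      (hm (le_max_right _ _) (hE Λ F hm h1 h2 ψ h))
  | neg x _ hx =>
    obtain ⟨D, hD⟩ := hx
    refine ⟨D, fun Λ _ F hm h1 h2 ψ h => ?_⟩
    rw [map_neg]
    exact (F _).neg_mem (hD Λ F hm h1 h2 ψ h)
  | mul x y _ _ hx hy =>
    obtain ⟨D, hD⟩ := hx
    obtain ⟨E, hE⟩ := hy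
    refine ⟨D + E, fun Λ _ F hm h1 h2 ψ h => ?_⟩
    rw [map_mul]
    exact h2 _ _ _ (hD Λ F hm h1 h2 ψ h) _ (hE Λ F hm h1 h2 ψ h)

/-- Polynomial growth along multiplicative filtrations. -/
lemma grow {P : Type*} [CommRing P] (s : Set P) (hs : Subring.closure s = ⊤) {κ : Type*}
    [Finite κ] (g : κ → P) : ∃ D : ℕ, ∀ (Λ : Type) [CommRing Λ] (F : ℕ → AddSubgroup Λ),
      Monotone F → 1 ∈ F 0 → (∀ i j, ∀ a ∈ F i, ∀ b ∈ F j, a * b ∈ F (i + j)) →
      ∀ ψ : P →+* Λ, (∀ a ∈ s, ψ a ∈ F 1) → ∀ k, ψ (g k) ∈ F D := by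
  have h := fun k => nggw_one s (x := g k) (hs ▸ Subring.mem_top _)
  choose D hD using h
  obtain ⟨M, hM⟩ := Finite.exists_le D
  exact ⟨M, fun Λ _ F hm h1 h2 ψ h k => hm (hM k) (hD k Λ F hm h1 h2 ψ h)⟩

/-- Closed balls round zero of an ultrametric field. -/
def nggw_ball (K : Type*) [NormedField K] [IsUltrametricDist K] (c : ℝ) (hc : 0 ≤ c) :
    AddSubgroup K where
  carrier := {z | ‖z‖ ≤ c}
  zero_mem' := by simpa using hc
  add_mem' := fun {a b} ha hb => (IsUltrametricDist.norm_add_le_max a b).trans (max_le ha hb)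
  neg_mem' := fun {a} ha => by simpa using ha

lemma nggw_mem {K : Type*} [NormedField K] [IsUltrametricDist K] {c : ℝ} {hc : 0 ≤ c} {z : K} :
    z ∈ nggw_ball K c hc ↔ ‖z‖ ≤ c := Iff.rfl

lemma nggw_root {K : Type*} [NormedField K] [IsUltrametricDist K] (q : Polynomial K)
    (hq : q.Monic) {c : ℝ} (hc : 1 ≤ c) (h : ∀ i ≤ q.natDegree, ‖q.coeff i‖ ≤ c) {z : K}
    (hz : q.eval z = 0) : ‖z‖ ≤ c := by
  by_contra hlt
  rw [not_le] at hlt
  have z1 : 1 ≤ ‖z‖ := hc.trans hlt.le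
  rw [hq.as_sum, Polynomial.eval_add, Polynomial.eval_pow, Polynomial.eval_X,
    Polynomial.eval_finsetSum] at hz
  rcases hn : q.natDegree with _ | n
  · simp [hn] at hz
  · rw [hn] at hz h
    have h0 : 0 ≤ c * ‖z‖ ^ n := by positivity
    have hs : ∑ i ∈ Finset.range (n + 1),
        Polynomial.eval z (Polynomial.C (q.coeff i) * Polynomial.X ^ i) ∈
          nggw_ball K (c * ‖z‖ ^ n) h0 := by
      refine AddSubgroup.sum_mem _ fun i hi => ?_
      have hi' : i ≤ n := Nat.lt_succ_iff.mp (Finset.mem_range.mp hi)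
      rw [nggw_mem, Polynomial.eval_mul, Polynomial.eval_C, Polynomial.eval_pow, Polynomial.eval_X,
        norm_mul, norm_pow]
      exact mul_le_mul (h i (by omega)) (pow_le_pow_right₀ z1 hi') (by positivity) (by linarith)
    rw [← neg_eq_of_add_eq_zero_right hz, nggw_mem, norm_neg, norm_pow, pow_succ'] at hs
    have : 0 < ‖z‖ ^ n := by positivity
    nlinarith

variable {p : ℕ} [Fact p.Prime]

lemma grow_norm {P : Type*} [CommRing P] (s : Set P) (hs : Subring.closure s = ⊤) {κ : Type*}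
    [Finite κ] (g : κ → P) : ∃ D : ℕ, ∀ (p : ℕ) [Fact p.Prime] (r : ℝ), 1 ≤ r →
      ∀ y : P →+* PadicAlgCl p, (∀ a ∈ s, ‖y a‖ ≤ r) → ∀ k, ‖y (g k)‖ ≤ r ^ D := by
  obtain ⟨D, hD⟩ := grow s hs g
  refine ⟨D, fun p _ r hr y hy k => ?_⟩
  have r0 : 0 ≤ r := zero_le_one.trans hr
  refine nggw_mem.mp (hD (PadicAlgCl p)
    (fun i => nggw_ball (PadicAlgCl p) (r ^ i) (pow_nonneg r0 i)) ?_ ?_ ?_ y ?_ k)
  · intro i j hij z hz
    exact nggw_mem.mpr ((nggw_mem.mp hz).trans (pow_le_pow_right₀ hr hij))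
  · exact nggw_mem.mpr (by simp)
  · intro i j a ha b hb
    refine nggw_mem.mpr ?_
    rw [norm_mul, pow_add]
    exact mul_le_mul (nggw_mem.mp ha) (nggw_mem.mp hb) (norm_nonneg _) (pow_nonneg r0 i)
  · intro a ha
    exact nggw_mem.mpr (by rw [pow_one]; exact hy a ha)

lemma grow_int {P B : Type*} [CommRing P] [CommRing B] [Algebra P B] [Algebra.IsIntegral P B]
    (s : Set P) (hs : Subring.closure s = ⊤) {κ : Type*} [Finite κ] (g : κ → B) :
    ∃ D : ℕ, ∀ (p : ℕ) [Fact p.Prime] (r : ℝ), 1 ≤ r → ∀ y : B →+* PadicAlgCl p,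
      (∀ a ∈ s, ‖y (algebraMap P B a)‖ ≤ r) → ∀ k, ‖y (g k)‖ ≤ r ^ D := by
  have h : ∀ k, ∃ q : Polynomial P, q.Monic ∧ Polynomial.eval₂ (algebraMap P B) (g k) q = 0 :=
    fun k => Algebra.IsIntegral.isIntegral (R := P) (g k)
  choose q hq hz using h
  obtain ⟨D, hD⟩ := grow_norm s hs
    (fun x : Σ k : κ, Fin ((q k).natDegree + 1) => (q x.1).coeff x.2)
  refine ⟨D, fun p _ r hr y hy k => ?_⟩
  refine nggw_root ((q k).map (y.comp (algebraMap P B))) ((hq k).map _) (one_le_pow₀ hr) ?_ ?_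
  · intro i hi
    rw [Polynomial.coeff_map]
    exact hD p r hr (y.comp (algebraMap P B)) hy
      ⟨k, ⟨i, Nat.lt_succ_of_le (hi.trans Polynomial.natDegree_map_le)⟩⟩
  · rw [Polynomial.eval_map, ← Polynomial.hom_eval₂, hz k, map_zero]

lemma near_one {κ : Type*} [Finite κ] (R : κ → ℝ) (hR : ∀ k, 1 < R k) (D : κ → ℕ) :
    ∃ r : ℝ, 1 < r ∧ ∀ k, r ^ D k ≤ R k := by
  have h : ∀ᶠ r in nhds (1 : ℝ), ∀ k, r ^ D k ≤ R k := by
    rw [Filter.eventually_all]
    intro k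
    have hc : Filter.Tendsto (fun r : ℝ => r ^ D k) (nhds 1) (nhds (1 ^ D k)) :=
      (continuous_pow (D k)).tendsto 1
    rw [one_pow] at hc
    exact hc.eventually (eventually_le_nhds (hR k))
  have h2 : ∀ᶠ r in nhdsWithin (1 : ℝ) (Set.Ioi 1), 1 < r ∧ ∀ k, r ^ D k ≤ R k :=
    (eventually_mem_nhdsWithin).and (h.filter_mono nhdsWithin_le_nhds)
  exact h2.exists

lemma closure_adjoin {O A : Type*} [CommRing O] [CommRing A] [Algebra O A] (s : Set A)
    (hs : Algebra.adjoin O s = ⊤) : Subring.closure (Set.range (algebraMap O A) ∪ s) = ⊤ := by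
  rw [← Algebra.adjoin_eq_ring_closure, hs]
  rfl

lemma closure_away {B G : Type*} [CommRing B] [CommRing G] [Algebra B G] (g : B)
    [IsLocalization.Away g G] (s : Set B) (hs : Subring.closure s = ⊤) (t : G)
    (ht : algebraMap B G g * t = 1) : Subring.closure (algebraMap B G '' s ∪ {t}) = ⊤ := by
  rw [eq_top_iff]
  intro z _
  obtain ⟨n, a, ha⟩ := IsLocalization.Away.surj g z
  have h1 : algebraMap B G a ∈ Subring.closure (algebraMap B G '' s ∪ {t}) := by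
    refine Subring.closure_mono Set.subset_union_left ?_
    rw [← RingHom.map_closure, hs]
    exact ⟨a, Subring.mem_top _, rfl⟩
  have h2 : t ∈ Subring.closure (algebraMap B G '' s ∪ {t}) :=
    Subring.subset_closure (Or.inr rfl)
  have h3 : z = algebraMap B G a * t ^ n := by
    rw [← ha, mul_assoc, ← mul_pow, ht, one_pow, mul_one]
  rw [h3]
  exact mul_mem h1 (pow_mem h2 n)

end Pool.Agent.MP_855f4c_ag.LP

namespace Pool.Agent.MP_855f4c_ag.LP

/-- The Newton map of a smooth algebra. -/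
lemma nw_data {P B : Type} [CommRing P] [CommRing B] [Algebra P B] [Algebra.Smooth P B] {n : ℕ}
    (π : MvPolynomial (Fin n) P →ₐ[P] B) (hπ : Function.Surjective π) :
    ∃ (k : ℕ) (f : Fin k → MvPolynomial (Fin n) P)
      (ν : MvPolynomial (Fin n) P →ₐ[P] MvPolynomial (Fin n) P)
      (α : Fin n → Fin k → MvPolynomial (Fin n) P)
      (β : Fin k → Fin k × Fin k → MvPolynomial (Fin n) P),
      RingHom.ker π = Ideal.span (Set.range f) ∧
      (∀ i, ν (MvPolynomial.X i) = MvPolynomial.X i + ∑ j, α i j * f j) ∧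
      ∀ j, ν (f j) = ∑ t, β j t * (f t.1 * f t.2) := by
  classical
  set R := MvPolynomial (Fin n) P with hR
  set I : Ideal R := RingHom.ker π with hI
  have hfg : I.FG := Algebra.FinitePresentation.ker_fG_of_surjective π hπ
  obtain ⟨k, f, hf⟩ := Submodule.fg_iff_exists_fin_generating_family.1 hfg
  have hle : I ^ 2 ≤ RingHom.ker π := Ideal.pow_le_self (by norm_num)
  let q : (R ⧸ I ^ 2) →ₐ[P] B := Ideal.Quotient.liftₐ (I ^ 2) π (fun a ha => hle ha)
  have hq : ∀ a : R, q (Ideal.Quotient.mk _ a) = π a := fun a => rfl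
  have hqs : Function.Surjective q := fun b => by
    obtain ⟨a, rfl⟩ := hπ b
    exact ⟨Ideal.Quotient.mk _ a, hq a⟩
  have hnil : IsNilpotent (RingHom.ker (q : (R ⧸ I ^ 2) →+* B)) := by
    refine ⟨2, ?_⟩
    rw [Ideal.zero_eq_bot, eq_bot_iff, pow_two (RingHom.ker (q : (R ⧸ I ^ 2) →+* B)), Ideal.mul_le]
    intro a ha b hb
    obtain ⟨a, rfl⟩ := Ideal.Quotient.mk_surjective a
    obtain ⟨b, rfl⟩ := Ideal.Quotient.mk_surjective b
    rw [Ideal.mem_bot, ← map_mul, Ideal.Quotient.eq_zero_iff_mem, pow_two I]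
    exact Ideal.mul_mem_mul (show a ∈ I from ha) (show b ∈ I from hb)
  let sc : B →ₐ[P] (R ⧸ I ^ 2) :=
    Algebra.FormallySmooth.liftOfSurjective (AlgHom.id P B) q hqs hnil
  have hsc : ∀ b, q (sc b) = b := fun b =>
    Algebra.FormallySmooth.liftOfSurjective_apply (AlgHom.id P B) q hqs hnil b
  choose N hN using fun i : Fin n =>
    Ideal.Quotient.mk_surjective (I := I ^ 2) (sc (π (MvPolynomial.X i)))
  let ν : R →ₐ[P] R := MvPolynomial.aeval N
  have hν : ∀ a, Ideal.Quotient.mk (I ^ 2) (ν a) = sc (π a) := by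
    have : (Ideal.Quotient.mkₐ P (I ^ 2)).comp ν = sc.comp π := by
      apply MvPolynomial.algHom_ext
      intro i
      simp [ν, hN]
    intro a
    exact congrArg (fun g : R →ₐ[P] (R ⧸ I ^ 2) => g a) this
  have h1 : ∀ i, ∃ c : Fin k → R, ∑ j, c j * f j = ν (MvPolynomial.X i) - MvPolynomial.X i := by
    intro i
    have : ν (MvPolynomial.X i) - MvPolynomial.X i ∈ I := by
      rw [hI, RingHom.mem_ker, map_sub, ← hq (ν _), hν, hsc, sub_self]
    rw [← hf] at this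
    exact Ideal.mem_span_range_iff_exists_fun.1 this
  have hfI : ∀ j, f j ∈ I := fun j => hf ▸ Submodule.subset_span ⟨j, rfl⟩
  have h2 : ∀ j, ∃ c : Fin k × Fin k → R, ∑ t, c t * (f t.1 * f t.2) = ν (f j) := by
    intro j
    have h0 : ν (f j) ∈ I ^ 2 := by
      rw [← Ideal.Quotient.eq_zero_iff_mem, hν, show π (f j) = 0 from hfI j, map_zero]
    have h3 : I ^ 2 ≤ Ideal.span (Set.range fun t : Fin k × Fin k => f t.1 * f t.2) := by
      rw [pow_two, ← hf]
      show Ideal.span (Set.range f) * Ideal.span (Set.range f) ≤ _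
      rw [Ideal.span_mul_span']
      apply Ideal.span_mono
      rintro _ ⟨_, ⟨a, rfl⟩, _, ⟨b, rfl⟩, rfl⟩
      exact ⟨(a, b), rfl⟩
    exact Ideal.mem_span_range_iff_exists_fun.1 (h3 h0)
  choose α hα using h1
  choose β hβ using h2
  refine ⟨k, f, ν, α, β, hf.symm, fun i => ?_, fun j => (hβ j).symm⟩
  rw [hα i]; ring

end Pool.Agent.MP_855f4c_ag.LP

namespace Pool.Agent.MP_855f4c_ag.LP

open MvPolynomial

lemma ngnw_grow {P : Type*} [CommRing P] (s : Set P) (hs : Subring.closure s = ⊤) {κ : Type*}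
    [Finite κ] (g : κ → P) : ∃ D : ℕ, ∀ (Λ : Type) [CommRing Λ] (u : Λ) (T : Subring Λ), u ∈ T →
      ∀ ψ : P →+* Λ, (∀ a ∈ s, u * ψ a ∈ T) → ∀ k, u ^ D * ψ (g k) ∈ T := by
  obtain ⟨D, hD⟩ := grow s hs g
  refine ⟨D, fun Λ _ u T hu ψ h k => ?_⟩
  let F : ℕ → AddSubgroup Λ := fun i => T.toAddSubgroup.comap (AddMonoidHom.mulLeft (u ^ i))
  have hF : ∀ i c, c ∈ F i ↔ u ^ i * c ∈ T := fun _ _ => Iff.rfl
  refine (hF _ _).1 (hD Λ F (fun i j hij c hc => ?_) ?_ (fun i j a ha b hb => ?_) ψ ?_ k)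
  · obtain ⟨r, rfl⟩ := Nat.exists_eq_add_of_le' hij
    rw [hF, pow_add, mul_assoc]
    exact mul_mem (pow_mem hu r) hc
  · rw [hF, pow_zero, one_mul]; exact one_mem T
  · rw [hF, pow_add, mul_mul_mul_comm]; exact mul_mem ha hb
  · intro a ha
    rw [hF, pow_one]; exact h a ha

lemma ngnw_clos {P : Type*} [CommRing P] (s : Set P) (hs : Subring.closure s = ⊤) (σ : Type*) :
    Subring.closure (C '' s ∪ Set.range (X : σ → MvPolynomial σ P)) = ⊤ := by
  rw [eq_top_iff]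
  rintro q -
  have hC : ∀ c : P, (C c : MvPolynomial σ P) ∈
      Subring.closure (C '' s ∪ Set.range (X : σ → MvPolynomial σ P)) := fun c => by
    have : c ∈ Subring.closure s := hs ▸ Subring.mem_top c
    refine Subring.closure_mono Set.subset_union_left ?_
    rw [← RingHom.map_closure]
    exact ⟨c, this, rfl⟩
  induction q using MvPolynomial.induction_on with
  | C c => exact hC c
  | add _ _ h1 h2 => exact add_mem h1 h2
  | mul_X _ i h => exact mul_mem h (Subring.subset_closure (Or.inr ⟨i, rfl⟩))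

lemma ngnw_lim {S ι : Type*} [CommRing S] (I : Ideal S) [IsAdicComplete I S]
    (Q : ℕ → (ι → S) → Prop) (h0 : Q 0 0)
    (hQ : ∀ N W, Q N W → ∃ W', Q (N + 1) W' ∧ ∀ i, W' i - W i ∈ I ^ N) :
    ∃ L : ι → S, ∀ N, ∃ W, Q N W ∧ ∀ i, L i - W i ∈ I ^ N := by
  choose! st h1 h2 using hQ
  let W : ℕ → ι → S := fun N => Nat.rec 0 st N
  have hW : ∀ N, Q N (W N) := fun N => by
    induction N with
    | zero => exact h0
    | succ N ih => exact h1 N _ ih
  have hc : ∀ N r i, W N i - W (N + r) i ∈ I ^ N := fun N r i => by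
    induction r with
    | zero => rw [Nat.add_zero, sub_self]; exact zero_mem _
    | succ r ih =>
      have := sub_mem ih (Ideal.pow_le_pow_right (Nat.le_add_right N r) (h2 _ _ (hW (N + r)) i))
      rwa [sub_sub, add_sub_cancel] at this
  have hl : ∀ i, ∃ L, ∀ N, W N i ≡ L [SMOD (I ^ N • ⊤ : Submodule S S)] := fun i =>
    IsPrecomplete.prec (I := I) inferInstance (f := fun N => W N i) fun {a b} hab => by
      obtain ⟨r, rfl⟩ := Nat.exists_eq_add_of_le hab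
      rw [SModEq.sub_mem, smul_eq_mul, Ideal.mul_top]
      exact hc a r i
  choose L hL using hl
  refine ⟨L, fun N => ⟨W N, hW N, fun i => ?_⟩⟩
  have := (hL i N).symm
  rwa [SModEq.sub_mem, smul_eq_mul, Ideal.mul_top] at this

/-- Quantitative lifting of points of a smooth algebra. -/
lemma newton {P B : Type} [CommRing P] [CommRing B] [Algebra P B] [Algebra.Smooth P B]
    (s : Set P) (hs : Subring.closure s = ⊤) {n : ℕ} (b : Fin n → B)
    (hb : Algebra.adjoin P (Set.range b) = ⊤) :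
    ∃ D : ℕ, ∀ (S Λ Ω : Type) [CommRing S] [IsDomain S] (I : Ideal S) [IsAdicComplete I S]
      [CommRing Λ] [Algebra S Λ] (x Z : S) [IsLocalization.Away x Λ] [CommRing Ω] (ι : Λ →+* Ω)
      (m a : ℕ) (S₀ : Subring S) (ψ₀ : P →+* Λ) (y : B →+* Ω), x ≠ 0 → Z ∈ I →
      ι (algebraMap S Λ Z) = 0 → m * D ≤ a → x ∈ S₀ →
      (∀ c ∈ S₀, ι (algebraMap S Λ c) = 0 → x ^ a * Z ∣ c) →
      (∀ c ∈ s, ∃ d ∈ S₀, algebraMap S Λ x ^ m * ψ₀ c = algebraMap S Λ d) →
      (∀ c, y (algebraMap P B c) = ι (ψ₀ c)) →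
      (∀ i, ∃ d ∈ S₀, ι (algebraMap S Λ d) = ι (algebraMap S Λ x) ^ m * y (b i)) →
      ∃ ψ : B →+* Λ, (∀ c, ψ (algebraMap P B c) = ψ₀ c) ∧ ∀ z, ι (ψ z) = y z := by
  have hπ : Function.Surjective (aeval (R := P) b) := by
    rw [← AlgHom.range_eq_top, ← Algebra.adjoin_range_eq_range_aeval, hb]
  obtain ⟨k, f, ν, α, β, hk, hα, hβ⟩ := nw_data (aeval (R := P) b) hπ
  obtain ⟨D, hD⟩ := ngnw_grow _ (ngnw_clos s hs (Fin n))
    (Sum.elim f (Sum.elim (Function.uncurry α) (Function.uncurry β)))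
  refine ⟨2 * D, fun S Λ Ω _ _ I _ _ _ x Z _ _ ι m a S₀ ψ₀ y hx hZ hιZ ha hxS h0 hψ hy hd => ?_⟩
  set j := algebraMap S Λ with hj
  have hinj : Function.Injective j :=
    IsLocalization.injective Λ (powers_le_nonZeroDivisors_of_noZeroDivisors hx)
  have hu : IsUnit (j (x ^ m)) := by
    rw [map_pow]; exact (IsLocalization.Away.algebraMap_isUnit x).pow m
  obtain ⟨u', hu'⟩ := hu.exists_right_inv
  choose d hd hd' using hd
  let Ψ : (Fin n → S) → MvPolynomial (Fin n) P →+* Λ := fun W =>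
    eval₂Hom ψ₀ fun i => u' * j (d i) + j (Z * W i)
  have hC : ∀ W c, Ψ W (C c) = ψ₀ c := fun W c => eval₂Hom_C _ _ _
  have hX : ∀ W i, Ψ W (X i) = u' * j (d i) + j (Z * W i) := fun W i => eval₂Hom_X' _ _ _
  have hX' : ∀ W i, j (x ^ m) * Ψ W (X i) = j (d i + x ^ m * (Z * W i)) := fun W i => by
    rw [hX, mul_add, ← mul_assoc, hu', one_mul, map_add, map_mul j (x ^ m)]
  have hι : ∀ W q, ι (Ψ W q) = y (aeval b q) := fun W q => by
    have : ι.comp (Ψ W) = y.comp (aeval (R := P) b).toRingHom := by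
      refine ringHom_ext (fun c => ?_) fun i => ?_
      · simp [hC, hy]
      · have e : ι (j (d i)) = ι (j (x ^ m)) * y (b i) := by rw [hd', map_pow, map_pow]
        have e' : ι (j (x ^ m)) * ι u' = 1 := by rw [← map_mul, hu', map_one]
        simp only [RingHom.comp_apply, hX, map_add, map_mul, hιZ, e, AlgHom.toRingHom_eq_coe,
          RingHom.coe_coe, aeval_X]
        linear_combination y (b i) * e'
    exact RingHom.congr_fun this q
  have hf : ∀ t, aeval b (f t) = 0 := fun t => by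
    rw [← RingHom.mem_ker, hk]; exact Ideal.subset_span ⟨t, rfl⟩
  have hS : ∀ W t, ∃ e, j e = j (x ^ m) ^ D *
      Ψ W (Sum.elim f (Sum.elim (Function.uncurry α) (Function.uncurry β)) t) := fun W =>
    hD Λ _ j.range ⟨_, rfl⟩ (Ψ W) (by
      rintro _ (⟨c, hc, rfl⟩ | ⟨i, rfl⟩)
      · obtain ⟨e, -, he⟩ := hψ c hc
        exact ⟨e, by rw [hC, map_pow, he]⟩
      · exact ⟨_, (hX' W i).symm⟩)
  obtain ⟨L, hL⟩ := ngnw_lim I
    (fun N W => ∀ t, ∃ e ∈ I ^ N, Ψ W (f t) = j (x ^ m) ^ D * j (Z * e)) (fun t => by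
      obtain ⟨e, he, he'⟩ := hD Λ _ (S₀.map j) ⟨_, pow_mem hxS m, rfl⟩ (Ψ 0) (by
        rintro _ (⟨c, hc, rfl⟩ | ⟨i, rfl⟩)
        · obtain ⟨e, h, he⟩ := hψ c hc
          exact ⟨e, h, by rw [hC, map_pow, he]⟩
        · exact ⟨_, hd i, by rw [hX', Pi.zero_apply, mul_zero, mul_zero, add_zero]⟩) (Sum.inl t)
      rw [Sum.elim_inl] at he'
      obtain ⟨c, rfl⟩ := h0 e he (by rw [he', map_mul, hι, hf, map_zero, mul_zero])
      obtain ⟨r, rfl⟩ := Nat.exists_eq_add_of_le ha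
      refine ⟨x ^ r * c, by simp, (hu.pow D).mul_left_cancel ?_⟩
      rw [← he']
      simp only [map_mul, map_pow]
      ring) (fun N W h => by
      choose e he he' using h
      choose A hA using hS W
      have key : Ψ (fun i => W i + ∑ t, A (Sum.inr (Sum.inl (i, t))) * e t) =
          (Ψ W).comp ν.toRingHom := by
        refine ringHom_ext (fun c => ?_) fun i => ?_
        · have : ν (C c) = C c := ν.commutes c
          simp [hC, this]
        · simp only [RingHom.comp_apply, AlgHom.toRingHom_eq_coe, RingHom.coe_coe, hα, hX, map_add,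
            map_sum, map_mul, he', hA, mul_add, Finset.mul_sum, add_assoc, Sum.elim_inr,
            Sum.elim_inl, Function.uncurry_apply_pair]
          congr 2
          exact Finset.sum_congr rfl fun _ _ => by ring
      refine ⟨fun i => W i + ∑ t, A (Sum.inr (Sum.inl (i, t))) * e t,
        fun t => ⟨∑ r, A (Sum.inr (Sum.inr (t, r))) * (e r.1 * Z) * e r.2,
        sum_mem fun r _ => Ideal.mul_mem_right _ _ (Ideal.mul_mem_left _ _
          (pow_succ I N ▸ Ideal.mul_mem_mul (he _) hZ)), ?_⟩, fun i => ?_⟩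
      · rw [key]
        simp only [RingHom.comp_apply, AlgHom.toRingHom_eq_coe, RingHom.coe_coe, hβ,
          map_sum, map_mul, he', hA, Finset.mul_sum, Sum.elim_inr, Function.uncurry_apply_pair]
        exact Finset.sum_congr rfl fun _ _ => by ring
      · rw [add_sub_cancel_left]
        exact sum_mem fun t _ => Ideal.mul_mem_left _ _ (he t))
  have hz : ∀ t, Ψ L (f t) = 0 := fun t => by
    obtain ⟨e, he⟩ := hS L (Sum.inl t)
    rw [Sum.elim_inl] at he
    have : e = 0 := IsHausdorff.haus (I := I) inferInstance e fun N => by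
      rw [SModEq.zero, smul_eq_mul, Ideal.mul_top]
      obtain ⟨W, h1, h2⟩ := hL N
      obtain ⟨c, hc, hc'⟩ := h1 t
      obtain ⟨w, hw, hw'⟩ := hD (Λ × Λ) (j (x ^ m), j (x ^ m))
        ((((Ideal.Quotient.mk (I ^ N)).comp (RingHom.fst S S)).eqLocus
          ((Ideal.Quotient.mk (I ^ N)).comp (RingHom.snd S S))).map (j.prodMap j))
        ⟨(x ^ m, x ^ m), rfl, rfl⟩ ((Ψ L).prod (Ψ W)) (by
          rintro _ (⟨c, hc, rfl⟩ | ⟨i, rfl⟩)
          · obtain ⟨e, -, he⟩ := hψ c hc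
            rw [← map_pow, ← hC L] at he
            exact ⟨(e, e), rfl, Prod.ext he.symm (by rw [hC, ← hC W] at he; exact he.symm)⟩
          · refine ⟨(d i + x ^ m * (Z * L i), d i + x ^ m * (Z * W i)), Ideal.Quotient.eq.2 ?_,
              Prod.ext (hX' L i).symm (hX' W i).symm⟩
            have := Ideal.mul_mem_left _ (x ^ m * Z) (h2 i)
            convert this using 1
            simp only [RingHom.coe_fst, RingHom.coe_snd]
            ring) (Sum.inl t)
      have e1 : j w.1 = j (x ^ m) ^ D * Ψ L (f t) := congrArg Prod.fst hw'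
      have e2 : j w.2 = j (x ^ m) ^ D * Ψ W (f t) := congrArg Prod.snd hw'
      have e3 : w.1 - w.2 ∈ I ^ N := Ideal.Quotient.eq.1 hw
      rw [hc', ← map_pow, ← map_mul, ← map_mul] at e2
      rw [hinj (he.trans e1.symm), ← sub_add_cancel w.1 w.2]
      refine add_mem e3 ?_
      rw [hinj e2]
      exact Ideal.mul_mem_left _ _ (Ideal.mul_mem_left _ _ (Ideal.mul_mem_left _ _ hc))
    rw [this, map_zero] at he
    exact ((hu.pow D).mul_right_eq_zero).1 he.symm
  have hle : RingHom.ker (aeval (R := P) b).toRingHom ≤ RingHom.ker (Ψ L) := by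
    refine hk.le.trans (Ideal.span_le.2 ?_)
    rintro _ ⟨t, rfl⟩
    exact hz t
  have hc : ∀ q, (aeval (R := P) b).toRingHom.liftOfSurjective hπ ⟨Ψ L, hle⟩ (aeval b q) = Ψ L q :=
    fun q => RingHom.liftOfRightInverse_comp_apply _ _ _ _ q
  refine ⟨(aeval (R := P) b).toRingHom.liftOfSurjective hπ ⟨Ψ L, hle⟩, fun c => ?_, fun z => ?_⟩
  · rw [← hC L, ← hc, aeval_C]
  · obtain ⟨q, rfl⟩ := hπ z
    rw [hc, hι]

end Pool.Agent.MP_855f4c_ag.LP

namespace Pool.Agent.MP_855f4c_ag.LP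

/-- Etale charts of a smooth algebra. -/
lemma charts (O B : Type) [CommRing O] [CommRing B] [Algebra O B] [Algebra.Smooth O B] :
    ∃ (k : ℕ) (g c : Fin k → B), ∑ i, c i * g i = 1 ∧ ∀ i, ∃ (d : ℕ)
      (φ : MvPolynomial (Fin d) O →+* Localization.Away (g i)), φ.Etale ∧
        ∀ o, φ (MvPolynomial.C o) = algebraMap B _ (algebraMap O B o) := by
  obtain ⟨s, hs, h⟩ := Algebra.Smooth.exists_span_eq_top_isStandardSmooth O B
  have h1 : (1 : B) ∈ Submodule.span B s := by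
    have : (1 : B) ∈ Ideal.span s := by rw [hs]; trivial
    exact this
  obtain ⟨k, c, g, hg⟩ := Submodule.mem_span_set'.mp h1
  refine ⟨k, fun i => (g i : B), c, by simpa [smul_eq_mul] using hg, fun i => ?_⟩
  have := h _ (g i).2
  have h2 : (algebraMap O (Localization.Away (g i : B))).IsStandardSmooth :=
    (RingHom.isStandardSmooth_algebraMap).mpr this
  obtain ⟨d, φ, h3, h4⟩ := h2.exists_etale_mvPolynomial
  refine ⟨d, φ, h4, fun o => ?_⟩
  have h5 := congrArg (fun f : O →+* Localization.Away (g i : B) => f o) h3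
  simp only [RingHom.comp_apply] at h5
  rw [h5, ← IsScalarTower.algebraMap_apply]

/-- Points of an etale algebra over an algebraic point are algebraic. -/
lemma alg_et {P B R Ω : Type} [CommRing P] [CommRing B] [Algebra P B] [Algebra.Etale P B]
    [CommRing R] [IsDomain R] [Field Ω] [Algebra R Ω] (y : B →+* Ω)
    (h : ∀ c, IsAlgebraic R (y (algebraMap P B c))) (z : B) : IsAlgebraic R (y z) := by
  let S := Subalgebra.algebraicClosure R Ω
  let κ : Subfield Ω :=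
    { S.toSubring with inv_mem' := fun x hx => IsAlgebraic.inv (R := R) (x := x) hx }
  let j : P →+* κ := (y.comp (algebraMap P B)).codRestrict κ h
  let _ : Algebra P κ := j.toAlgebra
  let _ : Algebra P Ω := (y.comp (algebraMap P B)).toAlgebra
  have : IsScalarTower P κ Ω := IsScalarTower.of_algebraMap_eq fun _ => rfl
  have : Module.Finite κ (TensorProduct P κ B) :=
    Algebra.FormallyUnramified.finite_of_free κ (TensorProduct P κ B)
  let y' : B →ₐ[P] Ω := { y with commutes' := fun _ => rfl }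
  let ψ : TensorProduct P κ B →ₐ[κ] Ω :=
    Algebra.TensorProduct.lift (Algebra.ofId κ Ω) y' fun _ _ => Commute.all _ _
  have h1 : IsIntegral κ (ψ ((1 : κ) ⊗ₜ[P] z)) :=
    (Algebra.IsIntegral.isIntegral (R := κ) ((1 : κ) ⊗ₜ[P] z)).map ψ
  have h2 : ψ ((1 : κ) ⊗ₜ[P] z) = y z := by
    simp only [ψ, Algebra.TensorProduct.lift_tmul, map_one, one_mul]
    rfl
  rw [h2] at h1
  obtain ⟨Q, h3, h4⟩ := h1
  have h5 : IsIntegral S (y z) :=
    ⟨Q.map (κ.subtype.codRestrict S fun x => x.2), h3.map _, by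
      rw [Polynomial.eval₂_map]; exact h4⟩
  exact h5.isAlgebraic.restrictScalars _

end Pool.Agent.MP_855f4c_ag.LP

namespace Pool.Agent.MP_855f4c_ag.LP

/-- Tensor powers. -/
lemma tpow (A S : Type) [CommRing A] [CommRing S] [Algebra A S] [Module.Finite A S]
    [Algebra.Etale A S] (k : ℕ) :
    ∃ (B : Type) (_ : CommRing B) (_ : Algebra A B) (_ : Module.Finite A B) (_ : Algebra.Etale A B)
      (j : Fin k → S →ₐ[A] B), ∀ (Ω : Type) [CommRing Ω] [Algebra A Ω] (s : Fin k → S →ₐ[A] Ω),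
        ∃ b : B →ₐ[A] Ω, ∀ i, b.comp (j i) = s i := by
  induction k with
  | zero =>
    exact ⟨A, inferInstance, inferInstance, inferInstance, inferInstance, Fin.elim0,
      fun Ω _ _ _ => ⟨Algebra.ofId A Ω, fun i => i.elim0⟩⟩
  | succ k ih =>
    obtain ⟨B, _, _, _, _, j, hj⟩ := ih
    have hE : Algebra.Etale A (TensorProduct A B S) := Algebra.Etale.comp A B _
    refine ⟨TensorProduct A B S, inferInstance, inferInstance, inferInstance, hE,
      Fin.cons Algebra.TensorProduct.includeRight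
        (fun i => Algebra.TensorProduct.includeLeft.comp (j i)), fun Ω _ _ s => ?_⟩
    obtain ⟨b, hb⟩ := hj Ω (fun i => s i.succ)
    refine ⟨Algebra.TensorProduct.productMap b (s 0), fun i => ?_⟩
    refine Fin.cases ?_ (fun i => ?_) i
    · ext x
      simp
    · ext x
      have := AlgHom.congr_fun (hb i) x
      simpa using this

/-- The fibres of a finite algebra are bounded. -/
lemma fib_bound (A S : Type) [CommRing A] [CommRing S] [Algebra A S] [Module.Finite A S] :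
    ∃ N : ℕ, ∀ (Ω : Type) [Field Ω] [Algebra A Ω], ∃ k ≤ N, ∃ s : Fin k → S →ₐ[A] Ω,
      Function.Surjective s := by
  obtain ⟨N, g, hg⟩ := Module.Finite.exists_fin (R := A) (M := S)
  refine ⟨N, fun Ω _ _ => ?_⟩
  let e : (S →ₗ[A] Ω) →ₗ[Ω] (Fin N → Ω) :=
    { toFun := fun f i => f (g i)
      map_add' := fun _ _ => rfl
      map_smul' := fun _ _ => rfl }
  have he : LinearMap.ker e = ⊥ := by
    rw [LinearMap.ker_eq_bot']
    intro f hf
    exact LinearMap.ext_on_range hg (fun i => congrFun hf i)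
  have hl := (linearIndependent_algHom_toLinearMap A S Ω).map' e he
  have hfin : Finite (S →ₐ[A] Ω) := hl.finite
  let _ : Fintype (S →ₐ[A] Ω) := Fintype.ofFinite _
  have hc := hl.fintype_card_le_finrank
  rw [Module.finrank_fin_fun] at hc
  exact ⟨_, hc, (Fintype.equivFin _).symm, (Fintype.equivFin _).symm.surjective⟩

end Pool.Agent.MP_855f4c_ag.LP

namespace Pool.Agent.MP_855f4c_ag.LP

open IsLocalRing

/-- The hypotheses on the base ring `S` and the field `Ω`. -/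
structure Base (p : ℕ) (S Ω : Type) [CommRing S] [IsLocalRing S] [Field Ω] [Algebra S Ω]
    (X Y : S) : Prop where
  pp : p.Prime
  noeth : IsNoetherianRing S
  cpl : IsAdicComplete (maximalIdeal S) S
  inj : Function.Injective (algebraMap S Ω)
  ne : X ≠ 0
  hm : maximalIdeal S = Ideal.span {X, Y}
  hY : ∀ k : ℕ, ¬ X ∣ Y ^ k
  hp : ∃ N : ℕ, (p : S) ∣ (X * Y) ^ N
  nu : ¬ IsUnit (p : S)

variable {S Ω : Type} [CommRing S] [Field Ω] [Algebra S Ω]

/-- Stages: adjoin roots of units and of the parameter, of order prime to `p`. -/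
inductive St (p : ℕ) (X : S) : Subalgebra S Ω → Ω → Prop
  | bot : St p X ⊥ (algebraMap S Ω X)
  | unit {E : Subalgebra S Ω} {τ c : Ω} {n : ℕ} : St p X E τ → ¬ p ∣ n → c ≠ 0 → c ^ n ∈ E →
      (c ^ n)⁻¹ ∈ E → St p X (E ⊔ Algebra.adjoin S {c}) τ
  | ram {E : Subalgebra S Ω} {τ c : Ω} {n : ℕ} : St p X E τ → ¬ p ∣ n → c ^ n = τ →
      St p X (E ⊔ Algebra.adjoin S {c}) c

/-- `E[1/X]`. -/
def Lo (X : S) (E : Subalgebra S Ω) : Subalgebra S Ω where
  carrier := {c | ∃ k : ℕ, algebraMap S Ω X ^ k * c ∈ E}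
  mul_mem' := fun {a b} ⟨i, h⟩ ⟨j, k⟩ => ⟨i + j, by
    rw [pow_add, mul_mul_mul_comm]; exact mul_mem h k⟩
  add_mem' := fun {a b} ⟨i, h⟩ ⟨j, k⟩ => ⟨i + j, by
    have e : algebraMap S Ω X ^ (i + j) * (a + b) = algebraMap S Ω X ^ j * (algebraMap S Ω X ^ i * a)
        + algebraMap S Ω X ^ i * (algebraMap S Ω X ^ j * b) := by ring
    rw [e]
    exact add_mem (mul_mem (pow_mem (E.algebraMap_mem X) j) h)
      (mul_mem (pow_mem (E.algebraMap_mem X) i) k)⟩
  algebraMap_mem' := fun s => ⟨0, by rw [pow_zero, one_mul]; exact E.algebraMap_mem s⟩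

lemma le_Lo (X : S) (E : Subalgebra S Ω) : E ≤ Lo X E := fun c h =>
  ⟨0, by rwa [pow_zero, one_mul]⟩

lemma Lo_mono (X : S) {E E' : Subalgebra S Ω} (h : E ≤ E') : Lo X E ≤ Lo X E' :=
  fun _ ⟨k, hk⟩ => ⟨k, h hk⟩

lemma Lo_Lo (X : S) {E E' : Subalgebra S Ω} (h : E ≤ Lo X E') : Lo X E ≤ Lo X E' :=
  fun _ ⟨k, hk⟩ => (h hk).elim fun i hi => ⟨i + k, by rwa [pow_add, mul_assoc]⟩

variable {p : ℕ} {X Y : S} {E : Subalgebra S Ω} {τ : Ω}

lemma ngsf_mem (E : Subalgebra S Ω) (c z : Ω) :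
    z ∈ E ⊔ Algebra.adjoin S {c} ↔ z ∈ Algebra.adjoin E {c} := by
  rw [← Subalgebra.mem_restrictScalars S (U := Algebra.adjoin E {c}),
    Algebra.restrictScalars_adjoin, Algebra.adjoin_union, Algebra.adjoin_eq]

lemma ngsf_fin [Module.Finite S E] {c : Ω} {n : ℕ} (hn : n ≠ 0) (hc : c ^ n ∈ E) :
    IsIntegral S c :=
  IsIntegral.of_pow (Nat.pos_of_ne_zero hn)
    ((Algebra.IsIntegral.isIntegral (R := S) (⟨_, hc⟩ : E)).map E.val)

lemma ngsf_sup [Module.Finite S E] {c : Ω} (hc : IsIntegral S c) :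
    Module.Finite S (E ⊔ Algebra.adjoin S {c} : Subalgebra S Ω) :=
  have := Algebra.finite_adjoin_simple_of_isIntegral hc
  Subalgebra.finite_sup _ _

lemma St.easy (h : St p X E τ) :
    Module.Finite S E ∧ τ ∈ E ∧ ∃ n : ℕ, n ≠ 0 ∧ τ ^ n = algebraMap S Ω X := by
  induction h with
  | bot => exact ⟨Subalgebra.finite_bot, Subalgebra.algebraMap_mem _ _, 1, one_ne_zero, pow_one _⟩
  | @unit E τ c n _ hn _ hc _ ih =>
    obtain ⟨h1, h2, h3⟩ := ih
    exact ⟨ngsf_sup (ngsf_fin (fun h : n = 0 => hn (h ▸ dvd_zero p)) hc),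
      le_sup_left (a := E) h2, h3⟩
  | @ram E τ c n _ hn hc ih =>
    obtain ⟨h1, h2, m, h3, h4⟩ := ih
    have h0 : n ≠ 0 := fun h => hn (h ▸ dvd_zero p)
    exact ⟨ngsf_sup (ngsf_fin h0 (hc ▸ h2)),
      (ngsf_mem E c c).2 (Algebra.self_mem_adjoin_singleton E c), n * m,
      mul_ne_zero h0 h3, by rw [pow_mul, hc, h4]⟩

lemma ngsf_unit {R : Type} [CommRing R] [Algebra R Ω] {F : Subalgebra R Ω} {z : F} :
    IsUnit z ↔ (z : Ω) ≠ 0 ∧ (z : Ω)⁻¹ ∈ F := by
  refine ⟨fun h => ?_, fun ⟨h1, h2⟩ =>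
    .of_mul_eq_one ⟨_, h2⟩ (Subtype.ext (mul_inv_cancel₀ h1))⟩
  obtain ⟨w, hw⟩ := h.exists_right_inv
  have e : (z : Ω) * w = 1 := congrArg Subtype.val hw
  exact ⟨left_ne_zero_of_mul_eq_one e, inv_eq_of_mul_eq_one_right e ▸ w.2⟩

lemma ngsf_loc {R T : Type} [CommRing R] [CommRing T] [Algebra R T] [Module.Finite R T]
    (h : Function.Injective (algebraMap R T)) : IsLocalHom (algebraMap R T) :=
  have := (faithfulSMul_iff_algebraMap_injective R T).2 h
  inferInstance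

lemma ngsf_max {R : Type} [CommRing R] [Algebra R Ω] [IsNoetherianRing S] [IsLocalRing S]
    [IsAdicComplete (maximalIdeal S) S] [Algebra S R] [Module.Finite S R] [IsScalarTower S R Ω]
    (h : Function.Injective (algebraMap R Ω)) {a b u v : R} {s : S} {c : Ω} {n : ℕ} (hn : n ≠ 0)
    (hs : (n : S) * s = 1) (hu : c ^ n = algebraMap R Ω u) (hv : u * v = 1)
    (hm : ∀ w : R, ¬ IsUnit w → ∃ x y, x * a + y * b = w) {z : Ω} (hz : z ∈ Algebra.adjoin R {c}) :
    (z ≠ 0 ∧ z⁻¹ ∈ Algebra.adjoin R {c}) ∨ ∃ x ∈ Algebra.adjoin R {c}, ∃ y ∈ Algebra.adjoin R {c},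
      z = x * algebraMap R Ω a + y * algebraMap R Ω b := by
  have := h.isDomain
  have := Algebra.finite_adjoin_simple_of_isIntegral
    (IsIntegral.of_pow (Nat.pos_of_ne_zero hn) (hu ▸ isIntegral_algebraMap (R := R)))
  have := Module.Finite.trans (R := S) R (Algebra.adjoin R {c})
  have : IsLocalRing R := cp_local (R := S)
  have : IsLocalRing (Algebra.adjoin R {c}) := cp_local (R := S)
  have : Algebra.FormallyUnramified R (Algebra.adjoin R {c}) := by
    refine unr_adjoin c (Polynomial.X ^ n - Polynomial.C u) (by simp [hu])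
      ⟨algebraMap R Ω (algebraMap S R s * v) * c, mul_mem (Subalgebra.algebraMap_mem _ _)
        (Algebra.self_mem_adjoin_singleton R c), ?_⟩
    have e : (n : Ω) * algebraMap S Ω s = 1 := by simpa using congrArg (algebraMap S Ω) hs
    have e' : c ^ n * algebraMap R Ω v = 1 := by rw [hu, ← map_mul, hv, map_one]
    rw [Polynomial.derivative_sub, Polynomial.derivative_C, sub_zero, Polynomial.derivative_X_pow,
      map_mul, map_pow, Polynomial.aeval_X, Polynomial.aeval_C, map_natCast, map_mul,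
      ← IsScalarTower.algebraMap_apply]
    linear_combination (c ^ (n - 1) * c * algebraMap R Ω v) * e + e' +
      algebraMap R Ω v * pow_sub_one_mul hn c
  by_cases h1 : IsUnit (⟨z, hz⟩ : Algebra.adjoin R {c})
  · exact .inl (ngsf_unit.1 h1)
  have := ngsf_loc (R := R) (T := Algebra.adjoin R {c}) fun a b hab => h (Subtype.mk.inj hab)
  have h4 := Ideal.map_mono (f := algebraMap R (Algebra.adjoin R {c}))
    (show maximalIdeal R ≤ Ideal.span {a, b} from fun w hw => Ideal.mem_span_pair.2 (hm w hw))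
  rw [Algebra.FormallyUnramified.map_maximalIdeal, Ideal.map_span, Set.image_pair] at h4
  obtain ⟨x, y, e⟩ := Ideal.mem_span_pair.1 (h4 ((mem_maximalIdeal _).2 h1))
  exact .inr ⟨x, x.2, y, y.2, (congrArg Subtype.val e).symm⟩

lemma ngsf_div {R : Type} [CommRing R] [Algebra R Ω] {c z : Ω} (hz : z ∈ Algebra.adjoin R {c}) :
    ∃ w ∈ Algebra.adjoin R {c}, ∃ e : R, z = w * c + algebraMap R Ω e := by
  obtain ⟨f, hf⟩ := (Algebra.adjoin_singleton_eq_range_aeval R c).le hz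
  refine ⟨_, Polynomial.aeval_mem_adjoin_singleton R c (p := f.divX), f.coeff 0,
    hf.symm.trans (?_ : Polynomial.aeval c f = _)⟩
  conv_lhs => rw [← f.divX_mul_X_add, map_add, map_mul, Polynomial.aeval_X, Polynomial.aeval_C]

variable [IsLocalRing S]

/-- A stage is local with maximal ideal `(τ, Y)`. -/
lemma St.max (B : Base p S Ω X Y) (h : St p X E τ) (z : Ω) (hz : z ∈ E) :
    (z ≠ 0 ∧ z⁻¹ ∈ E) ∨ ∃ a ∈ E, ∃ b ∈ E, z = a * τ + b * algebraMap S Ω Y := by
  have := B.noeth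
  have := B.cpl
  induction h generalizing z with
  | bot =>
    obtain ⟨s, rfl⟩ := Algebra.mem_bot.1 hz
    by_cases hs : IsUnit s
    · exact .inl (ngsf_unit.1 (hs.map (algebraMap S (⊥ : Subalgebra S Ω))))
    · obtain ⟨a, b, rfl⟩ := Ideal.mem_span_pair.1 (B.hm ▸ (mem_maximalIdeal s).2 hs)
      exact .inr ⟨_, Subalgebra.algebraMap_mem _ a, _, Subalgebra.algebraMap_mem _ b, by
        rw [map_add, map_mul, map_mul]⟩
  | @unit E τ c n h hn h0 hc hc' ih =>
    obtain ⟨h1, h2, -⟩ := h.easy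
    obtain ⟨s, hs⟩ : ∃ s : S, (n : S) * s = 1 := by
      obtain ⟨a, b, hab⟩ := ((Nat.Prime.coprime_iff_not_dvd B.pp).2 hn).cast (R := S)
      exact (isUnit_of_mul_isUnit_right ((isUnit_or_isUnit_of_add_one hab).resolve_left fun h =>
        B.nu (isUnit_of_mul_isUnit_right h))).exists_right_inv
    simp only [ngsf_mem] at hz ⊢
    refine ngsf_max (R := E) (a := ⟨τ, h2⟩) (b := algebraMap S E Y) (u := ⟨_, hc⟩) (v := ⟨_, hc'⟩)
      Subtype.val_injective (fun h : n = 0 => hn (h ▸ dvd_zero p)) hs rfl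
      (Subtype.ext (mul_inv_cancel₀ (pow_ne_zero n h0))) (fun w hw => ?_) hz
    obtain ⟨a, ha, b, hb, e⟩ := (ih w w.2).resolve_left fun h => hw (ngsf_unit.2 h)
    exact ⟨⟨a, ha⟩, ⟨b, hb⟩, Subtype.ext e.symm⟩
  | @ram E τ c n h hn hc ih =>
    obtain ⟨h1, -, m, hm, h3⟩ := (h.ram hn hc).easy
    have : IsLocalRing (E ⊔ Algebra.adjoin S {c} : Subalgebra S Ω) := cp_local (R := S)
    have hcm := (ngsf_mem E c c).2 (Algebra.self_mem_adjoin_singleton E c)
    obtain ⟨w, hw, ⟨f, hf⟩, e : z = w * c + f⟩ := ngsf_div ((ngsf_mem E c z).1 hz)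
    rw [← ngsf_mem] at hw
    rcases ih f hf with ⟨h4, h5⟩ | ⟨a, ha, b, hb, h4⟩
    · have h6 : IsUnit (⟨z, hz⟩ + -⟨_, hw⟩ * ⟨c, hcm⟩ :
          (E ⊔ Algebra.adjoin S {c} : Subalgebra S Ω)) := by
        have e' : z + -w * c = f := by rw [e]; ring
        exact ngsf_unit.2 ⟨e'.trans_ne h4, (congrArg (·⁻¹) e').symm ▸ le_sup_left (a := E) h5⟩
      refine .inl (ngsf_unit.1 ((isUnit_or_isUnit_of_isUnit_add h6).resolve_right fun h => ?_))
      have := ngsf_loc (R := S) (T := (E ⊔ Algebra.adjoin S {c} : Subalgebra S Ω)) fun a b hab =>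
        B.inj (congrArg Subtype.val hab)
      have h7 : IsUnit (algebraMap S (E ⊔ Algebra.adjoin S {c} : Subalgebra S Ω) X) := by
        convert (isUnit_of_mul_isUnit_right h).pow m using 1
        exact Subtype.ext h3.symm
      exact (mem_maximalIdeal X).1 (B.hm ▸ Ideal.subset_span (Set.mem_insert _ _))
        (IsUnit.of_map _ _ h7)
    · obtain ⟨k, rfl⟩ := Nat.exists_eq_succ_of_ne_zero fun h : n = 0 => hn (h ▸ dvd_zero p)
      refine .inr ⟨w + a * c ^ k, add_mem hw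
        (mul_mem (le_sup_left (a := E) ha) (pow_mem hcm k)), b, le_sup_left (a := E) hb, ?_⟩
      rw [e, h4, ← hc, pow_succ]
      ring

end Pool.Agent.MP_855f4c_ag.LP

namespace Pool.Agent.MP_855f4c_ag.LP

open IsLocalRing

variable {S Ω : Type} [CommRing S] [IsLocalRing S] [Field Ω] [Algebra S Ω]
  {p : ℕ} {X Y : S} {E : Subalgebra S Ω} {τ : Ω}

lemma ngsg_ne (B : Base p S Ω X Y) (h : St p X E τ) : τ ≠ 0 := by
  obtain ⟨n, hn, e⟩ := h.easy.2.2
  rintro rfl
  rw [zero_pow hn] at e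
  exact B.ne (B.inj (by rw [← e, map_zero]))

omit [IsLocalRing S] in
lemma ngsg_unit {F : Subalgebra S Ω} (z : F) (h0 : (z : Ω) ≠ 0) (h1 : (z : Ω)⁻¹ ∈ F) : IsUnit z :=
  IsUnit.of_mul_eq_one ⟨_, h1⟩ (Subtype.ext (mul_inv_cancel₀ h0))

lemma ngsg_data (B : Base p S Ω X Y) (h : St p X E τ) :
    ∃ (_ : IsNoetherianRing E) (_ : IsLocalRing E), (⟨τ, h.easy.2.1⟩ : E) ≠ 0 ∧
      maximalIdeal E = Ideal.span {⟨τ, h.easy.2.1⟩, algebraMap S E Y} ∧
      ∀ k : ℕ, ¬ (⟨τ, h.easy.2.1⟩ : E) ∣ algebraMap S E Y ^ k := by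
  obtain ⟨hf, ht, n, hn, e⟩ := h.easy
  have := B.noeth
  have := B.cpl
  have hl : IsLocalRing E := cp_local (R := S)
  have inj : Function.Injective (algebraMap S E) := fun a b hab =>
    B.inj (congrArg Subtype.val hab)
  have e' : (⟨τ, ht⟩ : E) ^ n = algebraMap S E X := Subtype.ext e
  have loc : IsLocalHom (algebraMap S E) :=
    RingHom.IsIntegral.isLocalHom (Algebra.IsIntegral.isIntegral (R := S) (A := E)) inj
  have hX : X ∈ maximalIdeal S := B.hm ▸ Ideal.subset_span (by simp)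
  have hY : Y ∈ maximalIdeal S := B.hm ▸ Ideal.subset_span (by simp)
  refine ⟨IsNoetherianRing.of_finite S E, hl, fun h0 => ngsg_ne B h (congrArg Subtype.val h0),
    le_antisymm (fun z hz => ?_) ?_, fun k hk => ?_⟩
  · rcases h.max B z z.2 with ⟨h0, h1⟩ | ⟨a, ha, b, hb, hz⟩
    · exact (hz (ngsg_unit z h0 h1)).elim
    · exact Ideal.mem_span_pair.2 ⟨⟨a, ha⟩, ⟨b, hb⟩, Subtype.ext hz.symm⟩
  · rw [Ideal.span_le, Set.insert_subset_iff, Set.singleton_subset_iff]
    exact ⟨fun hu => hX (loc.map_nonunit X (e' ▸ hu.pow n)), fun hu => hY (loc.map_nonunit Y hu)⟩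
  · have hp := kr_prime X Y B.ne B.hm B.hY
    have := (Ideal.span_singleton_prime B.ne).2 hp
    obtain ⟨Q, hQ, hc⟩ := Ideal.exists_ideal_over_prime_of_isIntegral_of_isDomain (S := E)
      (Ideal.span {X}) (by rw [(RingHom.injective_iff_ker_eq_bot _).1 inj]; exact bot_le)
    have h1 : algebraMap S E X ∈ Q := by
      rw [← Ideal.mem_comap, hc]; exact Ideal.mem_span_singleton_self X
    have h2 := Q.mem_of_dvd hk (hQ.mem_of_pow_mem n (e' ▸ h1))
    rw [← map_pow, ← Ideal.mem_comap, hc, Ideal.mem_span_singleton] at h2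
    exact B.hY k h2

lemma ngsg_loc (B : Base p S Ω X Y) (h : St p X E τ) :
    letI := (Subalgebra.inclusion (le_Lo X E)).toRingHom.toAlgebra
    IsLocalization.Away (⟨τ, h.easy.2.1⟩ : E) (Lo X E) := by
  let := (Subalgebra.inclusion (le_Lo X E)).toRingHom.toAlgebra
  obtain ⟨hf, ht, n, hn, e⟩ := h.easy
  have h0 := ngsg_ne B h
  refine IsLocalization.Away.mk _ (ngsg_unit _ h0 ⟨1, ?_⟩) (fun ⟨s, k, hk⟩ => ⟨n * k, ⟨_, hk⟩,
    Subtype.ext ?_⟩) (fun a b hab => ⟨0, ?_⟩)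
  · obtain ⟨m, rfl⟩ := Nat.exists_eq_succ_of_ne_zero hn
    change algebraMap S Ω X ^ 1 * τ⁻¹ ∈ E
    rw [pow_one, ← e, pow_succ, mul_inv_cancel_right₀ h0]
    exact pow_mem ht m
  · change s * τ ^ (n * k) = algebraMap S Ω X ^ k * s
    rw [pow_mul, e, mul_comm]
  · rw [show a = b from Subtype.ext (congrArg (fun z : Lo X E => (z : Ω)) hab)]

lemma St.pid (B : Base p S Ω X Y) (h : St p X E τ) : IsPrincipalIdealRing (Lo X E) := by
  let := (Subalgebra.inclusion (le_Lo X E)).toRingHom.toAlgebra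
  obtain ⟨_, _, h0, hm, hy⟩ := ngsg_data B h
  have := ngsg_loc B h
  exact kr_pid _ _ h0 hm hy (Lo X E)

lemma St.units (B : Base p S Ω X Y) (h : St p X E τ) (c : Ω) (h0 : c ≠ 0) (h1 : c ∈ Lo X E)
    (h2 : c⁻¹ ∈ Lo X E) :
    ∃ (i j : ℕ) (w : Ω), w ≠ 0 ∧ w ∈ E ∧ w⁻¹ ∈ E ∧ c * τ ^ j = w * τ ^ i := by
  let := (Subalgebra.inclusion (le_Lo X E)).toRingHom.toAlgebra
  obtain ⟨_, _, t0, hm, hy⟩ := ngsg_data B h
  have := ngsg_loc B h
  obtain ⟨i, j, w, hw, e⟩ := kr_unit _ (kr_prime _ _ t0 hm hy) (Lo X E) ⟨c, h1⟩ (ngsg_unit _ h0 h2)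
  obtain ⟨v, hv⟩ := hw.exists_right_inv
  have hv' : (w : Ω) * v = 1 := congrArg Subtype.val hv
  exact ⟨i, j, w, left_ne_zero_of_mul_eq_one hv', w.2, eq_inv_of_mul_eq_one_right hv' ▸ v.2,
    congrArg Subtype.val e⟩

/-- The prime `p` does not split in a stage. -/
lemma St.ns (B : Base p S Ω X Y) (h : St p X E τ) {K : Type} [Field K] [CharP K p]
    (b b' : Lo X E →+* K) (c : Lo X E) (hc : b c = 0) : b' c = 0 := by
  let := (Subalgebra.inclusion (le_Lo X E)).toRingHom.toAlgebra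
  obtain ⟨_, _, t0, hm, hy⟩ := ngsg_data B h
  have := ngsg_loc B h
  obtain ⟨_, ht, n, hn, e⟩ := h.easy
  have hu := IsLocalization.Away.algebraMap_isUnit (S := Lo X E) (⟨τ, ht⟩ : E)
  have e' : (⟨τ, ht⟩ : E) ^ n = algebraMap S E X := Subtype.ext e
  have key (d : Lo X E →+* K) : d (algebraMap E (Lo X E) (algebraMap S E Y)) = 0 := by
    obtain ⟨N, s, hs⟩ := B.hp
    have h1 := congrArg ((d.comp (algebraMap E (Lo X E))).comp (algebraMap S E)) hs
    rw [map_mul, map_natCast, CharP.cast_eq_zero, zero_mul, map_pow, map_mul] at h1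
    refine (mul_eq_zero.1 (eq_zero_of_pow_eq_zero h1)).resolve_left ?_
    rw [RingHom.comp_apply, ← e', map_pow]
    exact pow_ne_zero _ (hu.map d).ne_zero
  obtain ⟨k, a, ha⟩ := IsLocalization.Away.surj (⟨τ, ht⟩ : E) c
  have h1 : a ∈ RingHom.ker (b.comp (algebraMap E (Lo X E))) := by
    rw [RingHom.mem_ker, RingHom.comp_apply, ← ha, map_mul, hc, zero_mul]
  have := RingHom.ker_isPrime (b.comp (algebraMap E (Lo X E)))
  obtain ⟨g, hg⟩ := kr_over _ _ hm _ (key b) (hu.map b).ne_zero a h1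
  have h2 := congrArg b' ha
  rw [hg, map_mul, map_mul, map_mul, key b', zero_mul, map_pow] at h2
  exact (mul_eq_zero.1 h2).resolve_right (pow_ne_zero _ (hu.map b').ne_zero)

end Pool.Agent.MP_855f4c_ag.LP

namespace Pool.Agent.MP_855f4c_ag.LP

open IsLocalRing

variable {S Ω : Type} [CommRing S] [IsLocalRing S] [Field Ω] [IsAlgClosed Ω] [Algebra S Ω]
  {p : ℕ} {X Y : S} {E E' : Subalgebra S Ω} {τ τ' : Ω}

omit [IsAlgClosed Ω] in
lemma ngtt_ne (B : Base p S Ω X Y) (h : St p X E τ) : τ ≠ 0 := by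
  obtain ⟨-, -, n, hn, e⟩ := h.easy
  intro z
  rw [z, zero_pow hn] at e
  exact B.ne (B.inj (by rw [← e, map_zero]))

omit [IsAlgClosed Ω] in
lemma ngtt_inv (B : Base p S Ω X Y) (h : St p X E τ) : τ⁻¹ ∈ Lo X E := by
  have h0 := ngtt_ne B h
  obtain ⟨-, ht, n, hn, e⟩ := h.easy
  obtain ⟨m, rfl⟩ := Nat.exists_eq_succ_of_ne_zero hn
  refine ⟨1, ?_⟩
  rw [pow_one, ← e, pow_succ, mul_assoc, mul_inv_cancel₀ h0, mul_one]
  exact pow_mem ht m

lemma St.root (B : Base p S Ω X Y) (h : St p X E τ) {n : ℕ} (hn : ¬ p ∣ n) {c : Ω} (h0 : c ≠ 0)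
    (h1 : c ^ n ∈ Lo X E) (h2 : (c ^ n)⁻¹ ∈ Lo X E) :
    ∃ (E₁ : Subalgebra S Ω) (τ₁ : Ω), St p X E₁ τ₁ ∧ E ≤ E₁ ∧ c ∈ Lo X E₁ := by
  have n0 : n ≠ 0 := fun z => hn (z ▸ dvd_zero p)
  obtain ⟨i, j, w, w0, w1, w2, e⟩ := h.units B (c ^ n) (pow_ne_zero n h0) h1 h2
  obtain ⟨t, ht⟩ := IsAlgClosed.exists_pow_nat_eq τ (Nat.pos_of_ne_zero n0)
  have k1 := h.ram hn ht
  have t0 := ngtt_ne B k1
  have τ0 := ngtt_ne B h
  have hd : (c * t ^ j * t⁻¹ ^ i) ^ n = w := by
    rw [mul_pow, mul_pow, pow_right_comm t, pow_right_comm t⁻¹, inv_pow t n, ht, e, mul_assoc,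
      ← mul_pow, mul_inv_cancel₀ τ0, one_pow, mul_one]
  have l1 : E ≤ E ⊔ Algebra.adjoin S {t} := le_sup_left
  have k2 := k1.unit (c := c * t ^ j * t⁻¹ ^ i) hn
    (mul_ne_zero (mul_ne_zero h0 (pow_ne_zero j t0)) (pow_ne_zero i (inv_ne_zero t0)))
    (hd ▸ l1 w1) (hd ▸ l1 w2)
  refine ⟨_, t, k2, l1.trans le_sup_left, ?_⟩
  have e2 : c = c * t ^ j * t⁻¹ ^ i * t ^ i * t⁻¹ ^ j := by
    rw [mul_assoc (c * t ^ j), ← mul_pow, inv_mul_cancel₀ t0, one_pow, mul_one, mul_assoc,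
      ← mul_pow, mul_inv_cancel₀ t0, one_pow, mul_one]
  have m1 := le_Lo X _ ((le_sup_right : _ ≤ E ⊔ Algebra.adjoin S {t} ⊔ _)
    (Algebra.self_mem_adjoin_singleton S (c * t ^ j * t⁻¹ ^ i)))
  have m2 := mul_mem (mul_mem m1 (pow_mem (le_Lo X _ k2.easy.2.1) i)) (pow_mem (ngtt_inv B k2) j)
  rwa [← e2] at m2

lemma St.dir (B : Base p S Ω X Y) (h : St p X E τ) (h' : St p X E' τ') :
    ∃ (E₁ : Subalgebra S Ω) (τ₁ : Ω), St p X E₁ τ₁ ∧ Lo X E ≤ Lo X E₁ ∧ Lo X E' ≤ Lo X E₁ := by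
  have key : ∀ {D : Subalgebra S Ω} {c : Ω} {n : ℕ}, ¬ p ∣ n → c ≠ 0 → c ^ n ∈ Lo X D →
      (c ^ n)⁻¹ ∈ Lo X D → (∃ (E₁ : Subalgebra S Ω) (τ₁ : Ω), St p X E₁ τ₁ ∧ Lo X E ≤ Lo X E₁ ∧
        Lo X D ≤ Lo X E₁) → ∃ (E₁ : Subalgebra S Ω) (τ₁ : Ω), St p X E₁ τ₁ ∧ Lo X E ≤ Lo X E₁ ∧
        Lo X (D ⊔ Algebra.adjoin S {c}) ≤ Lo X E₁ := by
    rintro D c n hn h0 h1 h2 ⟨E₁, τ₁, k, a, b⟩
    obtain ⟨E₂, τ₂, k2, l, m⟩ := k.root B hn h0 (b h1) (b h2)
    exact ⟨E₂, τ₂, k2, a.trans (Lo_mono X l), Lo_Lo X (sup_le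
      ((le_Lo X D).trans (b.trans (Lo_mono X l)))
      (Algebra.adjoin_le (Set.singleton_subset_iff.2 m)))⟩
  induction h' with
  | bot => exact ⟨E, τ, h, le_rfl, Lo_mono X bot_le⟩
  | unit _ hn h0 h1 h2 ih => exact key hn h0 (le_Lo X _ h1) (le_Lo X _ h2) ih
  | ram k hn e ih =>
    refine key hn (fun z => ngtt_ne B k ?_) (e ▸ le_Lo X _ k.easy.2.1) (e ▸ ngtt_inv B k) ih
    rw [← e, z, zero_pow]
    rintro rfl
    exact hn (dvd_zero p)

/-- The tame closure. -/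
def Tm (B : Base p S Ω X Y) : Subalgebra S Ω where
  carrier := {c | ∃ (E : Subalgebra S Ω) (τ : Ω), St p X E τ ∧ c ∈ Lo X E}
  mul_mem' := fun ⟨_, _, h, a⟩ ⟨_, _, k, b⟩ =>
    (h.dir B k).elim fun E ⟨τ, h1, h2, h3⟩ => ⟨E, τ, h1, mul_mem (h2 a) (h3 b)⟩
  add_mem' := fun ⟨_, _, h, a⟩ ⟨_, _, k, b⟩ =>
    (h.dir B k).elim fun E ⟨τ, h1, h2, h3⟩ => ⟨E, τ, h1, add_mem (h2 a) (h3 b)⟩
  algebraMap_mem' := fun s => ⟨⊥, _, St.bot, Subalgebra.algebraMap_mem _ s⟩

lemma Tm.lo (B : Base p S Ω X Y) (h : St p X E τ) : Lo X E ≤ Tm B := fun _ hc => ⟨E, τ, h, hc⟩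

lemma Tm.inv (B : Base p S Ω X Y) : (algebraMap S Ω X)⁻¹ ∈ Tm B := by
  exact Tm.lo B St.bot (ngtt_inv B St.bot)

lemma Tm.int (B : Base p S Ω X Y) (c : Ω) (hc : c ∈ Tm B) :
    ∃ k : ℕ, IsIntegral S (algebraMap S Ω X ^ k * c) := by
  obtain ⟨E, τ, h, k, hk⟩ := hc
  have := h.easy.1
  exact ⟨k, (Algebra.IsIntegral.isIntegral (R := S) (⟨_, hk⟩ : E)).map E.val⟩

lemma Tm.ns (B : Base p S Ω X Y) {K : Type} [Field K] [CharP K p] (b b' : Tm B →+* K) (c : Tm B)
    (hc : b c = 0) : b' c = 0 := by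
  obtain ⟨c, E, τ, h, hE⟩ := c
  exact h.ns B (b.comp (Subalgebra.inclusion (Tm.lo B h)).toRingHom)
    (b'.comp (Subalgebra.inclusion (Tm.lo B h)).toRingHom) ⟨c, hE⟩ hc

lemma Tm.root (B : Base p S Ω X Y) {n : ℕ} (hn : ¬ p ∣ n) {c : Ω} (h0 : c ≠ 0)
    (h1 : c ^ n ∈ Tm B) (h2 : (c ^ n)⁻¹ ∈ Tm B) : c ∈ Tm B := by
  obtain ⟨E, τ, h, a⟩ := h1
  obtain ⟨E', τ', h', a'⟩ := h2
  obtain ⟨E₁, τ₁, k, b, b'⟩ := h.dir B h'
  obtain ⟨E₂, τ₂, k2, -, m⟩ := k.root B hn h0 (b a) (b' a')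
  exact ⟨E₂, τ₂, k2, m⟩

end Pool.Agent.MP_855f4c_ag.LP

namespace Pool.Agent.MP_855f4c_ag.LP

open IsLocalRing

lemma ngtr_root {T R K : Type} [CommRing T] [CommRing R] [IsDomain R] [Field K] {p : ℕ}
    [CharP K p] (a : R →+* K) (γ γ' : T →+* R) (h2 : ∀ c, a (γ c) = a (γ' c)) {c : T}
    (hc : IsUnit c) {n : ℕ} (hn : ¬ p ∣ n) (h : γ (c ^ n) = γ' (c ^ n)) : γ c = γ' c := by
  have e := geom_sum₂_mul (γ c) (γ' c) n
  rw [← map_pow, ← map_pow, h, sub_self, mul_eq_zero, sub_eq_zero] at e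
  refine e.resolve_left fun e => hn ?_
  have := congrArg a e
  simp only [map_sum, map_mul, map_pow, ← h2, map_zero, geom_sum₂_self, mul_eq_zero] at this
  exact (CharP.cast_eq_zero_iff K p n).1
    (this.resolve_right (pow_ne_zero _ ((hc.map γ).map a).ne_zero))

variable {S Ω : Type} [CommRing S] [IsLocalRing S] [Field Ω] [IsAlgClosed Ω] [Algebra S Ω]
  {p : ℕ} {X Y : S} {E E' : Subalgebra S Ω} {τ τ' : Ω}

lemma Tm.rigid (B : Base p S Ω X Y) {R K : Type} [CommRing R] [IsDomain R] [Field K] [CharP K p]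
    (a : R →+* K) (γ γ' : Tm B →+* R) (h1 : ∀ s : S, γ (algebraMap S _ s) = γ' (algebraMap S _ s))
    (h2 : ∀ c, a (γ c) = a (γ' c)) : γ = γ' := by
  let M0 : Subalgebra S (Tm B) := { γ.eqLocus γ' with algebraMap_mem' := h1 }
  have hM : ∀ c : Tm B, (c : Ω) ∈ M0.map (Tm B).val ↔ γ c = γ' c := fun c =>
    ⟨fun ⟨d, hd, e⟩ => Subtype.ext e ▸ hd, fun h => ⟨c, h, rfl⟩⟩
  have X0 : algebraMap S Ω X ≠ 0 := (map_ne_zero_iff _ B.inj).2 B.ne
  have un : ∀ (c : Tm B) (n : ℕ), n ≠ 0 → (c : Ω) ^ n ≠ 0 → ((c : Ω) ^ n)⁻¹ ∈ Tm B → IsUnit c :=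
    fun c n hn h0 h => (isUnit_pow_iff hn).1
      (IsUnit.of_mul_eq_one ⟨_, h⟩ (Subtype.ext (mul_inv_cancel₀ h0)))
  have step : ∀ {E : Subalgebra S Ω} {c t : Ω} {n : ℕ}, E ≤ M0.map (Tm B).val → ¬ p ∣ n →
      St p X (E ⊔ Algebra.adjoin S {c}) t → c ^ n ∈ E →
      (∀ h : c ∈ Tm B, IsUnit (⟨c, h⟩ : Tm B)) →
      E ⊔ Algebra.adjoin S {c} ≤ M0.map (Tm B).val := fun {E c t n} ih hn st hc hu => by
    have m : c ∈ Tm B := Tm.lo B st (le_Lo X _
      ((le_sup_right : _ ≤ E ⊔ _) (Algebra.self_mem_adjoin_singleton S c)))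
    refine sup_le ih (Algebra.adjoin_le (Set.singleton_subset_iff.2 ?_))
    exact (hM ⟨c, m⟩).2 (ngtr_root a γ γ' h2 (hu m) hn ((hM _).1 (ih hc)))
  have key : ∀ {E : Subalgebra S Ω} {t : Ω}, St p X E t → E ≤ M0.map (Tm B).val := fun h => by
    induction h with
    | bot => exact bot_le
    | @unit E t c n h hn c0 k1 k2 ih =>
      exact step ih hn (h.unit hn c0 k1 k2) k1 fun m => un _ n (fun e => hn (e ▸ dvd_zero p))
        (pow_ne_zero _ c0) (Tm.lo B h (le_Lo X _ k2))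
    | @ram E t c n h hn e ih =>
      obtain ⟨-, k1, m, m0, k2⟩ := h.easy
      refine step ih hn (h.ram hn e) (e ▸ k1) fun _ => un _ (n * m)
        (mul_ne_zero (fun e => hn (e ▸ dvd_zero p)) m0) ?_ ?_
      · rwa [pow_mul, e, k2]
      · rw [pow_mul, e, k2]; exact Tm.inv B
  ext c
  obtain ⟨E, t, h, k, hk⟩ := c.2
  have := (hM (algebraMap S _ X ^ k * c)).1 (key h hk)
  rw [map_mul, map_mul, map_pow, map_pow, ← h1] at this
  refine mul_left_cancel₀ (pow_ne_zero _ (IsUnit.map γ (un _ 1 one_ne_zero ?_ ?_)).ne_zero) this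
  · rwa [pow_one]
  · rw [pow_one]; exact Tm.inv B

end Pool.Agent.MP_855f4c_ag.LP

namespace Pool.Agent.MP_855f4c_ag.LP

/-- Lagrange resolvents. -/
lemma eig {G Ω : Type} [Group G] [Field Ω] (ρ : G →* (Ω ≃+* Ω)) (D : Subring Ω)
    (hD : ∀ g, ∀ d ∈ D, ρ g d ∈ D) (χ : G →* Ωˣ) (h1 : ∀ g, (χ g : Ω) ∈ D)
    (h2 : ∀ g h, ρ g (χ h) = χ h) (H : Subgroup G) [H.FiniteIndex]
    (h3 : ∀ g ∈ H, ∀ d ∈ D, ρ g d = d) (h4 : ∀ g, (∀ d ∈ D, ρ g d = d) → χ g = 1) :
    ∃ c ∈ D, c ≠ 0 ∧ ∀ g, ρ g c = χ g * c := by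
  classical
  have hm : ∀ g h d, ρ (g * h) d = ρ g (ρ h d) := fun g h d => by rw [map_mul]; rfl
  let N : Subgroup G :=
    { carrier := {g | ∀ d ∈ D, ρ g d = d}
      mul_mem' := fun {a b} ha hb d hd => by rw [hm, hb d hd, ha d hd]
      one_mem' := fun d _ => by rw [map_one]; rfl
      inv_mem' := fun {a} ha d hd => by
        conv_lhs => rw [← ha d hd, ← hm, inv_mul_cancel, map_one]
        rfl }
  have : N.FiniteIndex := Subgroup.finiteIndex_of_le (H := H) h3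
  have := Fintype.ofFinite (G ⧸ N)
  let φ : G ⧸ N → (D →* Ω) := fun q => ((ρ q.out).toRingHom.comp D.subtype).toMonoidHom
  have hφ : Function.Injective φ := fun q q' e => by
    rw [← q.out_eq, ← q'.out_eq]
    refine QuotientGroup.eq.2 fun d hd => ?_
    have e1 : ρ q.out d = ρ q'.out d := DFunLike.congr_fun e ⟨d, hd⟩
    rw [hm, ← e1, ← hm, inv_mul_cancel, map_one]; rfl
  have hli := Fintype.linearIndependent_iff.1 ((linearIndependent_monoidHom D Ω).comp φ hφ)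
    fun q => (χ q.out⁻¹ : Ω)
  have hne : ∃ d ∈ D, ∑ q : G ⧸ N, (χ q.out⁻¹ : Ω) * ρ q.out d ≠ 0 := by
    by_contra hc
    refine (χ ((1 : G) : G ⧸ N).out⁻¹).ne_zero (hli (funext fun d => ?_) ((1 : G) : G ⧸ N))
    rw [Finset.sum_apply]
    by_contra h0
    exact hc ⟨d, d.2, h0⟩
  obtain ⟨d, hd, h0⟩ := hne
  refine ⟨_, sum_mem fun q _ => mul_mem (h1 _) (hD _ d hd), h0, fun g => ?_⟩
  rw [map_sum, Finset.mul_sum, ← Equiv.sum_comp (MulAction.toPerm g)
    fun q : G ⧸ N => (χ g : Ω) * ((χ q.out⁻¹ : Ω) * ρ q.out d)]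
  refine Finset.sum_congr rfl fun q _ => ?_
  have hn : (g * q.out)⁻¹ * (g • q).out ∈ N := by
    refine QuotientGroup.eq.1 ?_
    rw [QuotientGroup.out_eq']
    conv_rhs => rw [← q.out_eq]
    rfl
  obtain ⟨n, hn, e⟩ : ∃ n ∈ N, (g • q).out = g * q.out * n := ⟨_, hn, by group⟩
  rw [map_mul, h2, MulAction.toPerm_apply, e, hm, hn d hd, hm, ← mul_assoc, ← Units.val_mul,
    ← map_mul, map_mul, map_inv, map_inv, map_mul, map_mul, h4 n hn]
  congr 2
  rw [mul_one, mul_inv_rev, mul_comm, mul_assoc, inv_mul_cancel, mul_one]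

end Pool.Agent.MP_855f4c_ag.LP

namespace Pool.Agent.MP_855f4c_ag.LP

lemma ngds_red {R D : Type} [CommRing R] [IsDomain R] [IsPrincipalIdealRing R] [CommRing D]
    [Algebra R D] [Module.Finite R D] [Algebra.FormallyUnramified R D] {q : R}
    (hq : Irreducible q) {c : D} {l : ℕ} (h : algebraMap R D q ∣ c ^ l) : algebraMap R D q ∣ c := by
  have := PrincipalIdealRing.isMaximal_of_irreducible hq
  let _ := Ideal.Quotient.field (Ideal.span {q})
  have : Module.Finite (R ⧸ Ideal.span {q}) (D ⧸ (Ideal.span {q}).map (algebraMap R D)) :=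
    Module.Finite.of_restrictScalars_finite R _ _
  have := Algebra.FormallyUnramified.isReduced_of_field (R ⧸ Ideal.span {q})
    (D ⧸ (Ideal.span {q}).map (algebraMap R D))
  have e : ∀ x : D, Ideal.Quotient.mk ((Ideal.span {q}).map (algebraMap R D)) x = 0 ↔
      algebraMap R D q ∣ x := fun x => by
    rw [Ideal.Quotient.eq_zero_iff_mem, Ideal.map_span, Set.image_singleton,
      Ideal.mem_span_singleton]
  exact (e c).1 (IsNilpotent.eq_zero ⟨l, by rw [← map_pow]; exact (e _).2 h⟩)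

/-- Descent in an unramified extension of a principal ideal domain. -/
lemma desc {R D : Type} [CommRing R] [IsDomain R] [IsPrincipalIdealRing R] [CommRing D]
    [IsDomain D] [Algebra R D] [Module.Finite R D] [Algebra.FormallyUnramified R D]
    (hinj : Function.Injective (algebraMap R D)) (l : ℕ) (hl : l ≠ 0) (c : D) (hc : c ≠ 0)
    (a b : R) (hb : b ≠ 0) (h : algebraMap R D b * c ^ l = algebraMap R D a) :
    ∃ (q u : R) (c' : D), IsUnit u ∧ c = algebraMap R D q * c' ∧ c' ^ l = algebraMap R D u := by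
  have := (faithfulSMul_iff_algebraMap_injective R D).2 hinj
  have dv : ∀ (q f : R) (x : D), q ≠ 0 → algebraMap R D q * x = algebraMap R D f →
      ∃ g, f = q * g ∧ x = algebraMap R D g := fun q f x hq e => by
    have : f ∈ ((Ideal.span {q}).map (algebraMap R D)).comap (algebraMap R D) := by
      rw [Ideal.mem_comap, Ideal.map_span, Set.image_singleton, Ideal.mem_span_singleton]
      exact ⟨x, e.symm⟩
    rw [Ideal.comap_map_eq_self_of_faithfullyFlat, Ideal.mem_span_singleton] at this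
    obtain ⟨g, rfl⟩ := this
    rw [map_mul] at e
    exact ⟨g, rfl, mul_left_cancel₀ ((map_ne_zero_iff _ hinj).2 hq) e⟩
  obtain ⟨f, -, hf⟩ := dv b a _ hb h
  clear h
  induction f using (wellFounded_dvdNotUnit (α := R)).induction generalizing c with
  | _ f ih =>
    by_cases hu : IsUnit f
    · exact ⟨1, f, c, hu, by simp, hf⟩
    have f0 : f ≠ 0 := fun e => pow_ne_zero l hc (by rw [hf, e, map_zero])
    obtain ⟨q, hq, hd⟩ := WfDvdMonoid.exists_irreducible_factor hu f0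
    obtain ⟨d, rfl⟩ := ngds_red hq (c := c) (l := l) (hf ▸ map_dvd _ hd)
    rw [mul_pow, ← map_pow] at hf
    obtain ⟨g, rfl, hg⟩ := dv _ _ _ (pow_ne_zero l hq.ne_zero) hf
    obtain ⟨r, u, c', h1, h2, h3⟩ := ih g ⟨right_ne_zero_of_mul f0, q ^ l,
      fun e => hq.not_isUnit ((isUnit_pow_iff hl).1 e), mul_comm _ _⟩ d (right_ne_zero_of_mul hc) hg
    exact ⟨q * r, u, c', h1, by rw [h2, map_mul, mul_assoc], h3⟩

/-- Elements fixed by all automorphisms over a subring are fractions. -/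
lemma fixd {Ω : Type} [Field Ω] [IsAlgClosed Ω] [CharZero Ω] (T : Subring Ω)
    [Algebra.IsAlgebraic T Ω] (f : Ω) (hf : ∀ g : Ω ≃+* Ω, (∀ c ∈ T, g c = c) → g f = f) :
    ∃ a ∈ T, ∃ b ∈ T, b ≠ 0 ∧ b * f = a := by
  obtain ⟨F, hF⟩ : ∃ F : Subfield Ω, F = Subfield.closure T := ⟨_, rfl⟩
  have le : T ≤ F.toSubring := fun c hc => hF ▸ Subfield.subset_closure hc
  let _ : Algebra T F := (Subring.inclusion le).toAlgebra
  have : IsScalarTower T F Ω := .of_algebraMap_eq fun _ => rfl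
  have : Algebra.IsAlgebraic F Ω :=
    Algebra.IsAlgebraic.extendScalars (R := T) (Subring.inclusion_injective le)
  have : IsAlgClosure F Ω := ⟨inferInstance, inferInstance⟩
  have : IsGalois F Ω := {}
  obtain ⟨⟨x, hx⟩, rfl⟩ := (InfiniteGalois.mem_range_algebraMap_iff_fixed (k := F) f).2
    fun g => hf g.toRingEquiv fun c hc => g.commutes ⟨c, le hc⟩
  obtain ⟨y, hy, z, hz, rfl⟩ := Subfield.mem_closure_iff.1 (hF ▸ hx)
  rw [Subring.closure_eq] at hy hz
  change ∃ a ∈ T, ∃ b ∈ T, b ≠ 0 ∧ b * (y / z) = a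
  by_cases h : z = 0
  · exact ⟨0, zero_mem _, 1, one_mem _, one_ne_zero, by simp [h]⟩
  · exact ⟨y, hy, z, hz, h, mul_div_cancel₀ _ h⟩

end Pool.Agent.MP_855f4c_ag.LP

namespace Pool.Agent.MP_855f4c_ag.LP

open IsLocalRing

lemma ngku_unr {A R D Ω : Type} [CommRing A] [CommRing R] [CommRing D] [CommRing Ω] [Algebra A R]
    [Algebra A D] [Algebra A Ω] [Algebra R Ω] [IsScalarTower A R Ω] [Module.Finite A D]
    [Algebra.FormallyUnramified A D] (t : Finset (D →ₐ[A] Ω)) :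
    Module.Finite R (Algebra.adjoin R (⋃ s ∈ t, Set.range s)) ∧
      Algebra.FormallyUnramified R (Algebra.adjoin R (⋃ s ∈ t, Set.range s)) := by
  classical
  induction t using Finset.induction_on with
  | empty =>
    refine bb_range (Algebra.ofId R Ω) _ ?_
    rw [show (⋃ s ∈ (∅ : Finset (D →ₐ[A] Ω)), Set.range s) = ∅ by simp, Algebra.adjoin_empty]
    ext x
    exact Iff.rfl
  | insert s t _ ih =>
    rw [Finset.set_biUnion_insert, Algebra.adjoin_union]
    obtain ⟨h1, h2⟩ := ih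
    obtain ⟨h3, h4⟩ := unr_image (B := R) s
    exact unr_sup _ _

lemma ngku_alg {S Ω : Type} [CommRing S] [Field Ω] [Algebra S Ω] [Algebra.IsAlgebraic S Ω]
    (hi : Function.Injective (algebraMap S Ω)) (T : Subalgebra S Ω) :
    Algebra.IsAlgebraic T.toSubring Ω := by
  refine ⟨fun z => ?_⟩
  obtain ⟨P, hP, h0⟩ := Algebra.IsAlgebraic.isAlgebraic (R := S) z
  let f : S →+* T.toSubring := (algebraMap S Ω).codRestrict T.toSubring T.algebraMap_mem
  have hf : Function.Injective f := fun x y h => hi (congrArg Subtype.val h)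
  refine ⟨P.map f, (Polynomial.map_ne_zero_iff hf).2 hP, ?_⟩
  rw [Polynomial.aeval_def, Polynomial.eval₂_map]
  exact h0

lemma ngku_sub {G A D Ω : Type} [Group G] [CommRing A] [CommRing D] [Field Ω] [Algebra A D]
    [Algebra A Ω] [Finite (D →ₐ[A] Ω)] (ρ : G →* (Ω ≃+* Ω))
    (h : ∀ g a, ρ g (algebraMap A Ω a) = algebraMap A Ω a) :
    (∀ g (s : D →ₐ[A] Ω), ∃ s' : D →ₐ[A] Ω, ∀ z, ρ g (s z) = s' z) ∧
      ∃ H : Subgroup G, H.FiniteIndex ∧ ∀ g ∈ H, ∀ (s : D →ₐ[A] Ω) (z : D), ρ g (s z) = s z := by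
  let m : G → (D →ₐ[A] Ω) → (D →ₐ[A] Ω) := fun g s =>
    { (ρ g).toRingHom.comp s.toRingHom with
      commutes' := fun a => (congrArg (ρ g) (s.commutes a)).trans (h g a) }
  have hm : ∀ g s z, m g s z = ρ g (s z) := fun _ _ _ => rfl
  let : MulAction G (D →ₐ[A] Ω) :=
    { smul := m
      one_smul := fun s => AlgHom.ext fun z => by
        change ρ 1 (s z) = s z
        rw [map_one]; rfl
      mul_smul := fun g k s => AlgHom.ext fun z => by
        change ρ (g * k) (s z) = ρ g (ρ k (s z))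
        rw [map_mul]; rfl }
  refine ⟨fun g s => ⟨m g s, fun _ => rfl⟩, (MulAction.toPermHom G (D →ₐ[A] Ω)).ker,
    inferInstance, fun g hg s z => ?_⟩
  have h1 : MulAction.toPermHom G (D →ₐ[A] Ω) g s = s := by rw [MonoidHom.mem_ker.1 hg]; rfl
  exact AlgHom.congr_fun h1 z

variable {S Ω : Type} [CommRing S] [IsLocalRing S] [Field Ω] [IsAlgClosed Ω] [Algebra S Ω]
  {p : ℕ} {X Y : S}

lemma ngku_stage (B : Base p S Ω X Y) (U : Set Ω) (c : Ω)
    (hc : c ∈ Subring.closure ((Tm B : Set Ω) ∪ U)) :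
    ∃ (E : Subalgebra S Ω) (τ : Ω), St p X E τ ∧ c ∈ Subring.closure ((Lo X E : Set Ω) ∪ U) := by
  have two : ∀ x y : Ω,
      (∃ (E : Subalgebra S Ω) (τ : Ω), St p X E τ ∧ x ∈ Subring.closure ((Lo X E : Set Ω) ∪ U)) →
      (∃ (E : Subalgebra S Ω) (τ : Ω), St p X E τ ∧ y ∈ Subring.closure ((Lo X E : Set Ω) ∪ U)) →
      ∃ (E : Subalgebra S Ω) (τ : Ω), St p X E τ ∧ x ∈ Subring.closure ((Lo X E : Set Ω) ∪ U) ∧
        y ∈ Subring.closure ((Lo X E : Set Ω) ∪ U) := by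
    rintro x y ⟨E, τ, h, hx⟩ ⟨E', τ', h', hy⟩
    obtain ⟨E₁, τ₁, k, k1, k2⟩ := h.dir B h'
    exact ⟨E₁, τ₁, k, Subring.closure_mono (Set.union_subset_union_left U k1) hx,
      Subring.closure_mono (Set.union_subset_union_left U k2) hy⟩
  induction hc using Subring.closure_induction with
  | mem x hx =>
    rcases hx with ⟨E, τ, h, hx⟩ | hx
    · exact ⟨E, τ, h, Subring.subset_closure (Or.inl hx)⟩
    · exact ⟨⊥, _, St.bot, Subring.subset_closure (Or.inr hx)⟩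
  | zero => exact ⟨⊥, _, St.bot, zero_mem _⟩
  | one => exact ⟨⊥, _, St.bot, one_mem _⟩
  | add x y _ _ hx hy =>
    obtain ⟨E, τ, h, h1, h2⟩ := two x y hx hy
    exact ⟨E, τ, h, add_mem h1 h2⟩
  | neg x _ hx =>
    obtain ⟨E, τ, h, h1⟩ := hx
    exact ⟨E, τ, h, neg_mem h1⟩
  | mul x y _ _ hx hy =>
    obtain ⟨E, τ, h, h1, h2⟩ := two x y hx hy
    exact ⟨E, τ, h, mul_mem h1 h2⟩

lemma ngku_desc (B : Base p S Ω X Y) (l : ℕ) (hl : l ≠ 0) (hpl : ¬ p ∣ l) {A D : Type}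
    [CommRing A] [Algebra A Ω] (hA : ∀ a, algebraMap A Ω a ∈ Lo X (⊥ : Subalgebra S Ω))
    [CommRing D] [Algebra A D] [Module.Finite A D] [Algebra.FormallyUnramified A D]
    (t : Finset (D →ₐ[A] Ω)) {E : Subalgebra S Ω} {τ : Ω} (h : St p X E τ) (c a b : Ω)
    (h0 : c ≠ 0) (hc : c ∈ Subring.closure ((Lo X E : Set Ω) ∪ ⋃ s ∈ t, Set.range s))
    (ha : a ∈ Lo X E) (hb : b ∈ Lo X E) (hb0 : b ≠ 0) (hab : b * c ^ l = a) : c ∈ Tm B := by
  let : Algebra A (Lo X E) :=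
    ((algebraMap A Ω).codRestrict (Lo X E) fun x => Lo_mono X bot_le (hA x)).toAlgebra
  have : IsScalarTower A (Lo X E) Ω := IsScalarTower.of_algebraMap_eq fun _ => rfl
  have := h.pid B
  obtain ⟨k1, k2⟩ := ngku_unr (R := Lo X E) t
  set D1 : Subalgebra (Lo X E) Ω := Algebra.adjoin (Lo X E) (⋃ s ∈ t, Set.range s) with hD1
  have hc1 : c ∈ D1 := by
    refine (Subring.closure_le (t := D1.toSubring)).2 ?_ hc
    rintro x (hx | hx)
    · exact D1.algebraMap_mem ⟨x, hx⟩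
    · exact Algebra.subset_adjoin hx
  obtain ⟨q, u, c', hu, e1, e2⟩ := desc (R := Lo X E) (D := D1)
    (fun x y e => Subtype.ext (congrArg (fun w : D1 => (w : Ω)) e)) l hl ⟨c, hc1⟩
    (fun e => h0 (congrArg Subtype.val e)) ⟨a, ha⟩ ⟨b, hb⟩ (fun e => hb0 (congrArg Subtype.val e))
    (Subtype.ext hab)
  have e3 : c = (q : Ω) * (c' : Ω) := congrArg Subtype.val e1
  have e4 : (c' : Ω) ^ l = (u : Ω) := congrArg Subtype.val e2
  obtain ⟨v, hv⟩ := hu.exists_right_inv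
  have e5 : (u : Ω) * (v : Ω) = 1 := congrArg Subtype.val hv
  have e6 : (c' : Ω) ∈ Tm B := by
    refine Tm.root B hpl (fun e => h0 (by rw [e3, e, mul_zero])) ?_ ?_
    · rw [e4]; exact Tm.lo B h u.2
    · rw [e4, ← eq_inv_of_mul_eq_one_right e5]; exact Tm.lo B h v.2
  rw [e3]
  exact mul_mem (Tm.lo B h q.2) e6

/-- Kummer theory: the tame closure has no unramified cyclic cover of degree `l`. -/
lemma Tm.kummer [CharZero Ω] [Algebra.IsAlgebraic S Ω] (B : Base p S Ω X Y) (l : ℕ)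
    (hl : l.Prime) (hlp : l ≠ p) {A D G : Type} [CommRing A] [Algebra A Ω]
    (hA : ∀ a, algebraMap A Ω a ∈ Lo X (⊥ : Subalgebra S Ω)) [CommRing D] [Algebra A D]
    [Module.Finite A D] [Algebra.FormallyUnramified A D] [Group G] (ρ : G →* (Ω ≃+* Ω))
    (h1 : ∀ g, ∀ c ∈ Tm B, ρ g c = c)
    (h2 : ∀ σ : Ω ≃+* Ω, (∀ c ∈ Tm B, σ c = c) → ∃ g, ρ g = σ)
    (χ : G →* Multiplicative (ZMod l))
    (h3 : ∀ g, (∀ (s : D →ₐ[A] Ω) (z : D), ρ g (s z) = s z) → χ g = 1) (g : G) : χ g = 1 := by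
  classical
  have hpl : ¬ p ∣ l := fun e => hlp ((Nat.prime_dvd_prime_iff_eq B.pp hl).1 e).symm
  have : NeZero l := ⟨hl.ne_zero⟩
  have : Finite (D →ₐ[A] Ω) := by
    obtain ⟨N, hN⟩ := fib_bound A D
    obtain ⟨k, -, s, hs⟩ := hN Ω
    exact Finite.of_surjective s hs
  have := Fintype.ofFinite (D →ₐ[A] Ω)
  obtain ⟨ζ, hζ⟩ := HasEnoughRootsOfUnity.exists_primitiveRoot Ω l
  have hz0 : ζ ≠ 0 := hζ.ne_zero hl.ne_zero
  have hzT : ζ ∈ Tm B := Tm.root B hpl hz0 (by rw [hζ.pow_eq_one]; exact one_mem _)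
    (by rw [hζ.pow_eq_one, inv_one]; exact one_mem _)
  have hzu : Units.mk0 ζ hz0 ^ l = 1 := Units.ext (by simpa using hζ.pow_eq_one)
  let χ' : G →* Ωˣ := (AddChar.zmodChar l hzu).toMonoidHom.comp χ
  have hχ : ∀ k, (χ' k : Ω) = ζ ^ (χ k).toAdd.val := fun k => by
    simp [χ', AddChar.zmodChar_apply]
  have hχT : ∀ k, (χ' k : Ω) ∈ Tm B := fun k => by rw [hχ]; exact pow_mem hzT _
  obtain ⟨m1, H, hH, m2⟩ := ngku_sub (D := D) ρ fun k a => h1 k _ (Tm.lo B St.bot (hA a))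
  set U : Set Ω := ⋃ s ∈ (Finset.univ : Finset (D →ₐ[A] Ω)), Set.range s with hU
  have hUm : ∀ x, x ∈ U ↔ ∃ (s : D →ₐ[A] Ω) (z : D), s z = x := fun x => by simp [hU]
  obtain ⟨c, hc, c0, hcg⟩ := eig ρ (Subring.closure ((Tm B : Set Ω) ∪ U))
    (fun k d hd => by
      refine (Subring.closure_le (t := (Subring.closure ((Tm B : Set Ω) ∪ U)).comap
        (ρ k).toRingHom)).2 ?_ hd
      rintro x (hx | hx)
      · change ρ k x ∈ Subring.closure _
        rw [h1 k x hx]; exact Subring.subset_closure (Or.inl hx)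
      · obtain ⟨s, z, rfl⟩ := (hUm x).1 hx
        obtain ⟨s', hs'⟩ := m1 k s
        change ρ k (s z) ∈ Subring.closure _
        rw [hs']; exact Subring.subset_closure (Or.inr ((hUm _).2 ⟨s', z, rfl⟩)))
    χ' (fun k => Subring.subset_closure (Or.inl (hχT k))) (fun k j => h1 k _ (hχT j)) H
    (fun k hk d hd => by
      refine (Subring.closure_le (t := RingHom.eqLocus (ρ k).toRingHom (RingHom.id Ω))).2 ?_ hd
      rintro x (hx | hx)
      · exact h1 k x hx
      · obtain ⟨s, z, rfl⟩ := (hUm x).1 hx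
        exact m2 k hk s z)
    (fun k hk => by
      have e := h3 k fun s z => hk _ (Subring.subset_closure (Or.inr ((hUm _).2 ⟨s, z, rfl⟩)))
      change (AddChar.zmodChar l hzu).toMonoidHom (χ k) = 1
      rw [e, map_one])
  have := ngku_alg B.inj (Tm B)
  obtain ⟨a, ha, b, hb, b0, hab⟩ := fixd (Tm B).toSubring (c ^ l) fun σ hσ => by
    obtain ⟨k, rfl⟩ := h2 σ hσ
    rw [map_pow, hcg, mul_pow, hχ, ← pow_mul, mul_comm _ l, pow_mul, hζ.pow_eq_one, one_pow,
      one_mul]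
  obtain ⟨E₁, τ₁, s1, hc1⟩ := ngku_stage B U c hc
  obtain ⟨E₂, τ₂, s2, ha2⟩ := ha
  obtain ⟨E₃, τ₃, s3, hb3⟩ := hb
  obtain ⟨E₄, τ₄, s4, l2, l3⟩ := s2.dir B s3
  obtain ⟨E, τ, s5, l1, l4⟩ := s1.dir B s4
  have hcT : c ∈ Tm B := ngku_desc B l hl.ne_zero hpl hA Finset.univ s5 c a b c0
    (Subring.closure_mono (Set.union_subset_union_left U l1) hc1) (l4 (l2 ha2)) (l4 (l3 hb3)) b0 hab
  have e1 : ζ ^ (χ g).toAdd.val = 1 := by
    have e := hcg g
    rw [h1 g c hcT, hχ] at e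
    exact mul_right_cancel₀ c0 (e.symm.trans (one_mul c).symm)
  have e2 := Nat.eq_zero_of_dvd_of_lt (hζ.dvd_of_pow_eq_one _ e1) (ZMod.val_lt _)
  exact toAdd_eq_zero.1 ((ZMod.val_eq_zero _).1 e2)

end Pool.Agent.MP_855f4c_ag.LP

namespace Pool.Agent.MP_855f4c_ag.LP

lemma ngla_dual {K Q : Type} [Field K] [AddCommGroup Q] [Module K Q] (x : Q)
    (h : ∀ φ : Q →+ K, φ x = 0) : x = 0 :=
  (Module.forall_dual_apply_eq_zero_iff K x).1 fun φ => h φ.toAddMonoidHom

lemma ngla_sep {V : Type} [AddCommGroup V] (l : ℕ) (hl : l.Prime) (w : V)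
    (h : ∀ φ : V →+ ZMod l, φ w = 0) : ∃ u : V, w = l • u := by
  have : Fact l.Prime := ⟨hl⟩
  have hQ : ∀ x : V ⧸ (nsmulAddMonoidHom l : V →+ V).range, l • x = 0 := fun x => by
    obtain ⟨y, rfl⟩ := QuotientAddGroup.mk_surjective x
    rw [← QuotientAddGroup.mk_nsmul, QuotientAddGroup.eq_zero_iff]
    exact ⟨y, rfl⟩
  let _ := AddCommGroup.zmodModule hQ
  have h0 : (QuotientAddGroup.mk w : V ⧸ (nsmulAddMonoidHom l : V →+ V).range) = 0 :=
    ngla_dual (K := ZMod l) _ fun φ => h (φ.comp (QuotientAddGroup.mk' _))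
  obtain ⟨u, hu⟩ := (QuotientAddGroup.eq_zero_iff _).1 h0
  exact ⟨u, hu.symm⟩

/-- `l`-adic descent. -/
lemma lad {G F H : Type} [Group G] [Field F] [CharZero F] [AddCommGroup H] [Module F H]
    (ρ : G →* Module.End F H) (l : ℕ) (hl : l.Prime) (V : AddSubgroup H)
    (h1 : Submodule.span F (V : Set H) = ⊤) (h2 : ∀ v : H, (∀ n : ℕ, ∃ w ∈ V, v = l ^ n • w) → v = 0)
    (h3 : ∀ g, ∀ v ∈ V, ρ g v ∈ V) (P : ℕ → G → Prop)
    (h4 : ∀ n g, P n g → ∀ v ∈ V, ∃ w ∈ V, ρ g v - v = l ^ n • w) (h5 : ∀ g, P 1 g)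
    (h6 : ∀ (n : ℕ) (χ : G →* Multiplicative (ZMod l)), (∀ g, P n g → χ g = 1) → ∀ g, χ g = 1)
    (g : G) : ρ g = 1 := by
  have hinj : ∀ (n : ℕ) (a b : H), l ^ n • a = l ^ n • b → a = b := fun n a b e => by
    rw [← Nat.cast_smul_eq_nsmul F, ← Nat.cast_smul_eq_nsmul F] at e
    exact smul_right_injective H (Nat.cast_ne_zero.2 (pow_pos hl.pos n).ne') e
  have key : ∀ n : ℕ, ∀ v ∈ V, ∀ g, ∃ w ∈ V, ρ g v - v = l ^ (n + 1) • w := by
    intro n
    induction n with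
    | zero => exact fun v hv g => h4 1 g (h5 g) v hv
    | succ n ih =>
      intro v hv g0
      choose w hw e using ih v hv
      have hm : ∀ a b, w (a * b) = ρ a (w b) + w a := fun a b => hinj (n + 1) _ _ (by
        rw [← e, smul_add, ← map_nsmul, ← e, ← e, map_mul, Module.End.mul_apply, map_sub]
        abel)
      obtain ⟨u, hu⟩ := ngla_sep l hl (⟨w g0, hw g0⟩ : V) fun φ => by
        have hφ : ∀ x : V, φ (l • x) = 0 := fun x => by
          rw [map_nsmul, nsmul_eq_mul, ZMod.natCast_self, zero_mul]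
        let χ : G →* Multiplicative (ZMod l) := MonoidHom.mk'
          (fun a => Multiplicative.ofAdd (φ ⟨w a, hw a⟩)) fun a b => by
            obtain ⟨x, hx, ex⟩ := h4 1 a (h5 a) (w b) (hw b)
            have e1 : (⟨w (a * b), hw _⟩ : V) = ⟨w a, hw a⟩ + ⟨w b, hw b⟩ + l • ⟨x, hx⟩ := by
              apply Subtype.ext
              simp only [AddSubgroup.coe_add, AddSubgroup.coe_nsmul]
              rw [hm, ← pow_one l, ← ex]
              abel
            rw [e1, φ.map_add, φ.map_add, hφ, add_zero, ofAdd_add]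
        refine h6 (n + 2) χ (fun a ha => ?_) g0
        obtain ⟨x, hx, ex⟩ := h4 (n + 2) a ha v hv
        have e1 : (⟨w a, hw a⟩ : V) = l • ⟨x, hx⟩ := Subtype.ext (hinj (n + 1) _ _ (by
          rw [← e, ex, pow_succ, mul_smul]; rfl))
        change Multiplicative.ofAdd (φ ⟨w a, hw a⟩) = 1
        rw [e1, hφ, ofAdd_zero]
      refine ⟨u, u.2, ?_⟩
      rw [e, pow_succ l (n + 1), mul_smul]
      exact congrArg (fun x : V => l ^ (n + 1) • (x : H)) hu
  refine LinearMap.ext_on h1 fun v hv => sub_eq_zero.1 (h2 _ fun n => ?_)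
  obtain ⟨w, hw, e⟩ := key n v hv g
  exact ⟨l • w, V.nsmul_mem hw l, by rw [← mul_smul, ← pow_succ]; exact e⟩

/-- Endomorphisms of the integral closure extend to automorphisms. -/
lemma ext_aut {Λ Ω : Type} [CommRing Λ] [IsDomain Λ] [Field Ω] [Algebra Λ Ω]
    [Algebra.IsAlgebraic Λ Ω] (hinj : Function.Injective (algebraMap Λ Ω))
    (γ : integralClosure Λ Ω →ₐ[Λ] integralClosure Λ Ω) :
    ∃ g : Ω ≃ₐ[Λ] Ω, ∀ c : integralClosure Λ Ω, g c = γ c := by
  have := integralClosure.isFractionRing_of_algebraic (A := Λ) (L := Ω)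
    fun x hx => hinj (hx.trans (map_zero _).symm)
  have hγ : Function.Injective ((integralClosure Λ Ω).val.comp γ) := by
    rw [injective_iff_map_eq_zero]
    intro c hc
    have h0 : RingHom.ker ((integralClosure Λ Ω).val.comp γ) = ⊥ :=
      Ideal.eq_bot_of_comap_eq_bot (R := Λ) (eq_bot_iff.2 fun x hx => hinj (by
        rw [map_zero]
        exact (((integralClosure Λ Ω).val.comp γ).commutes x).symm.trans hx))
    exact h0.le hc
  have : Module.IsTorsionFree Λ Ω := Module.isTorsionFree_iff_algebraMap_injective.2 hinj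
  let y : Ω →ₐ[Λ] Ω := IsFractionRing.liftAlgHom hγ
  exact ⟨AlgEquiv.ofBijective y (Algebra.IsAlgebraic.algHom_bijective y),
    fun c => IsFractionRing.lift_algebraMap hγ c⟩

/-- Two integral points with the same kernel are conjugate. -/
lemma conj_pt {T Ω : Type} [CommRing T] [Field Ω] [IsAlgClosed Ω] (b b' : T →+* Ω)
    (hb : b.IsIntegral) (hb' : b'.IsIntegral) (h : ∀ c, b c = 0 → b' c = 0) :
    ∃ g : Ω ≃+* Ω, ∀ c, g (b c) = b' c := by
  obtain ⟨y, hy⟩ := ext_int b hb b' h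
  have e : y.comp b = b' := RingHom.ext hy
  exact ⟨RingEquiv.ofBijective y (IsAlgClosed.ringHom_bijective_of_isIntegral y
    (RingHom.IsIntegral.tower_top b y (e ▸ hb'))), hy⟩

end Pool.Agent.MP_855f4c_ag.LP
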