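import Pool.Agent.MP_855f4c_ag.NG.Defs
import Pool.Agent.MP_855f4c_ag.NG.Tame
import Pool.Agent.MP_855f4c_ag.LP.Transfer

namespace Pool.Agent.MP_855f4c_ag.LP

open PowerSeries IsLocalRing

variable {p : ℕ} [Fact p.Prime]

/-- A regular surface over a frame with a `p`-adic point and a point of characteristic `p`. -/
structure Surf (Φ : Frame p) where
  S : Type
  [cr : CommRing S]
  [dom : IsDomain S]
  [noeth : IsNoetherianRing S]
  [loc : IsLocalRing S]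
  [cpl : IsAdicComplete (maximalIdeal S) S]
  j : Φ.U.W⟦X⟧ →+* S
  Y : S
  hm : maximalIdeal S = Ideal.span {j X, Y}
  hY : ∀ k : ℕ, ¬ j X ∣ Y ^ k
  hp : ∃ N : ℕ, (p : S) ∣ (j X * Y) ^ N
  ι : S →+* PadicAlgCl p
  hι : ∀ f, ι (j f) = Φ.ι f
  hs : ∀ s, ∃ f, ι s = Φ.ι f
  r0 : Lam Φ.U.W →+* Omp p
  hr0 : ∀ f : ℤ_[p]⟦X⟧,
    r0 (algebraMap Φ.U.W⟦X⟧ _ (PowerSeries.map (algebraMap ℤ_[p] Φ.U.W) f)) =
      algebraMap (ZMod p)⟦X⟧ (Omp p) (PowerSeries.map PadicInt.toZMod f)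
  r : S →+* Omp p
  hr : ∀ f, r (j f) = r0 (algebraMap Φ.U.W⟦X⟧ _ f)

attribute [instance] Surf.cr Surf.dom Surf.noeth Surf.loc Surf.cpl

variable {Φ : Frame p}

/-- `S[1/X]`. -/
abbrev Surf.L (Q : Surf Φ) : Type := Localization.Away (Q.j X)

lemma Surf.ι_unit (Q : Surf Φ) : IsUnit (Q.ι (Q.j X)) := by
  rw [Q.hι]; exact IsUnit.mk0 _ Φ.ne

lemma Surf.r_unit (Q : Surf Φ) : IsUnit (Q.r (Q.j X)) := by
  rw [Q.hr]; exact (IsLocalization.Away.algebraMap_isUnit (X : Φ.U.W⟦X⟧)).map _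

lemma Surf.X_ne (Q : Surf Φ) : Q.j X ≠ 0 := fun h => Q.ι_unit.ne_zero (by rw [h, map_zero])

/-- The `p`-adic point of `S[1/X]`. -/
noncomputable def Surf.ev (Q : Surf Φ) : Q.L →+* PadicAlgCl p :=
  IsLocalization.Away.lift (Q.j X) Q.ι_unit

/-- The point of characteristic `p` of `S[1/X]`. -/
noncomputable def Surf.red (Q : Surf Φ) : Q.L →+* Omp p :=
  IsLocalization.Away.lift (Q.j X) Q.r_unit

@[simp] lemma Surf.ev_algebraMap (Q : Surf Φ) (s : Q.S) :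
    Q.ev (algebraMap _ Q.L s) = Q.ι s := IsLocalization.Away.lift_eq _ _ _

@[simp] lemma Surf.red_algebraMap (Q : Surf Φ) (s : Q.S) :
    Q.red (algebraMap _ Q.L s) = Q.r s := IsLocalization.Away.lift_eq _ _ _

end Pool.Agent.MP_855f4c_ag.LP

namespace Pool.Agent.MP_855f4c_ag.LP

open PowerSeries IsLocalRing

variable {p : ℕ} [Fact p.Prime]

lemma ngsr_dec {R : Type*} [CommRing R] (f : R⟦X⟧) : ∃ g, f = C (constantCoeff f) + X * g := by
  have h : (X : R⟦X⟧) ∣ f - C (constantCoeff f) := by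
    rw [X_dvd_iff, map_sub, constantCoeff_C, sub_self]
  obtain ⟨g, hg⟩ := h
  exact ⟨g, by rw [← hg]; ring⟩

lemma ngsr_p (U : Unr p) : (p : U.W) ∈ maximalIdeal U.W := by
  rw [U.max_eq]; exact Ideal.mem_span_singleton_self _

lemma ngsr_nu (U : Unr p) (f : U.W⟦X⟧) (hf : ¬ IsUnit f) :
    ∃ w g : U.W⟦X⟧, f = (p : U.W⟦X⟧) * w + X * g := by
  obtain ⟨g, hg⟩ := ngsr_dec f
  rw [PowerSeries.isUnit_iff_constantCoeff] at hf
  obtain ⟨c, hc⟩ := ps_dvd U _ hf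
  refine ⟨C c, g, ?_⟩
  rw [hg, hc, map_mul, map_natCast]

/-- A generator of the kernel of a frame. -/
lemma Frame.ker_dvd (Φ : Frame p) (q c : Φ.U.W⟦X⟧) (hq : Φ.ι q = 0)
    (hc : q = X * c - (p : Φ.U.W⟦X⟧)) (f : Φ.U.W⟦X⟧) (hf : Φ.ι f = 0) : q ∣ f := by
  have hm : maximalIdeal Φ.U.W⟦X⟧ = Ideal.span {X, q} := by
    apply le_antisymm
    · intro t ht
      obtain ⟨w, g, hg⟩ := ngsr_nu Φ.U t ht
      exact Ideal.mem_span_pair.2 ⟨c * w + g, -w, by rw [hg, hc]; ring⟩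
    · rw [Ideal.span_le]
      rintro t (rfl | rfl)
      · change ¬ IsUnit _
        rw [PowerSeries.isUnit_iff_constantCoeff, constantCoeff_X]
        exact not_isUnit_zero
      · change ¬ IsUnit _
        rw [PowerSeries.isUnit_iff_constantCoeff, hc, map_sub, map_mul, constantCoeff_X, zero_mul,
          zero_sub, map_natCast, IsUnit.neg_iff]
        exact ngsr_p Φ.U
  by_contra hn
  obtain ⟨i, u, d, hu, hd⟩ := kr X q hm f hn
  rw [hd, map_add, map_mul, map_mul, hq, zero_mul, add_zero, map_pow] at hf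
  exact mul_ne_zero (pow_ne_zero i Φ.ne) (hu.map Φ.ι).ne_zero hf

lemma ngsr_cx {R : Type*} [CommRing R] (d : R⟦X⟧⟦X⟧)
    (hd : PowerSeries.map (constantCoeff (R := R)) d = 0) : C (X : R⟦X⟧) ∣ d := by
  have h : ∀ n, ∃ c, coeff n d = X * c := fun n => by
    have h1 := congrArg (coeff n) hd
    rw [coeff_map, map_zero] at h1
    exact X_dvd_iff.2 h1
  choose c hc using h
  refine ⟨PowerSeries.mk c, ?_⟩
  ext1 n
  rw [coeff_C_mul, coeff_mk, hc]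

/-- The ring `W[[X]][[Z]] / (v (X ^ a Y) ^ e - p)`, `Y = X h + Z`. -/
lemma ss_ring (U : Unr p) (a e : ℕ) (ha : a ≠ 0) (he : e ≠ 0) (h : U.W⟦X⟧) (v : U.W⟦X⟧⟦X⟧)
    (hv : IsUnit v) (S : Type) [CommRing S] (π : U.W⟦X⟧⟦X⟧ →+* S) (hπ : Function.Surjective π)
    (hk : RingHom.ker π =
      Ideal.span {v * (C (X ^ a) * (C (X * h) + X)) ^ e - (p : U.W⟦X⟧⟦X⟧)}) :
    ∃ (_ : IsDomain S) (_ : IsNoetherianRing S) (_ : IsLocalRing S),
      IsAdicComplete (maximalIdeal S) S ∧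
      maximalIdeal S = Ideal.span {π (C X), π (C (X * h) + X)} ∧
      (∀ k : ℕ, ¬ π (C X) ∣ π (C (X * h) + X) ^ k) ∧
      ∃ N : ℕ, (p : S) ∣ (π (C X) * π (C (X * h) + X)) ^ N := by
  obtain ⟨g, hg⟩ : ∃ g, g = v * (C (X ^ a) * (C (X * h) + X)) ^ e - (p : U.W⟦X⟧⟦X⟧) := ⟨_, rfl⟩
  rw [← hg] at hk
  have hker : ∀ t, π t = 0 ↔ g ∣ t := fun t => by
    rw [← Ideal.mem_span_singleton, ← hk, RingHom.mem_ker]
  have hp : (p : S) = π v * (π (C X) ^ a * π (C (X * h) + X)) ^ e := by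
    have h1 := (hker g).2 dvd_rfl
    rw [hg, map_sub, map_natCast, sub_eq_zero, map_mul, map_pow, map_mul, map_pow, map_pow] at h1
    exact h1.symm
  have hY : ∀ k : ℕ, ¬ π (C X) ∣ π (C (X * h) + X) ^ k := by
    rintro k ⟨s, hs⟩
    obtain ⟨t, rfl⟩ := hπ s
    have h1 : g ∣ (C (X * h) + X) ^ k - C X * t := by
      rw [← hker, map_sub, map_pow, map_mul π, hs, sub_self]
    have h2 := map_dvd (PowerSeries.map ((residue U.W).comp (constantCoeff (R := U.W)))) h1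
    have h3 : ((p : ℕ) : (ResidueField U.W)⟦X⟧) = 0 := by
      rw [← map_natCast (C (R := ResidueField U.W)), ← map_natCast (residue U.W),
        (residue_eq_zero_iff _).2 (ngsr_p U), map_zero]
    rw [hg] at h2
    simp [ha, he, h3] at h2
  have : Nontrivial S := by
    by_contra hn
    rw [not_nontrivial_iff_subsingleton] at hn
    exact hY 0 ⟨0, Subsingleton.elim _ _⟩
  have hN : IsNoetherianRing S := isNoetherianRing_of_surjective _ S π hπ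
  have hL : IsLocalRing S := IsLocalRing.of_surjective' π hπ
  have : IsLocalHom π := IsLocalHom.of_surjective π hπ
  have : IsAdicComplete (maximalIdeal U.W⟦X⟧) U.W⟦X⟧ := cp_ps
  have : IsAdicComplete (maximalIdeal U.W⟦X⟧⟦X⟧) U.W⟦X⟧⟦X⟧ := cp_ps
  have hm : maximalIdeal S = Ideal.span {π (C X), π (C (X * h) + X)} := by
    apply le_antisymm
    · intro s hs
      obtain ⟨t, rfl⟩ := hπ s
      have ht : ¬ IsUnit (constantCoeff t) := fun hu =>
        hs ((PowerSeries.isUnit_iff_constantCoeff.2 hu).map π)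
      obtain ⟨g1, hg1⟩ := ngsr_dec t
      obtain ⟨w, g2, hg2⟩ := ngsr_nu U _ ht
      obtain ⟨e', rfl⟩ := Nat.exists_eq_succ_of_ne_zero he
      refine Ideal.mem_span_pair.2 ⟨π (C g2) - π (C h) * π g1, π g1 + π v *
        (π (C X) ^ a * π (C (X * h) + X)) ^ e' * π (C X) ^ a * π (C w), ?_⟩
      have h1 : π t = (p : S) * π (C w) + π (C X) * π (C g2) + π X * π g1 := by
        conv_lhs => rw [hg1, hg2]
        simp only [map_add, map_mul, map_natCast]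
      rw [h1, hp, pow_succ]
      simp only [map_add, map_mul]
      ring
    · rw [Ideal.span_le]
      rintro t (rfl | rfl)
      · exact fun hu => hY 0 hu.dvd
      · intro hu
        have h1 := isUnit_of_map_unit π _ hu
        rw [PowerSeries.isUnit_iff_constantCoeff, PowerSeries.isUnit_iff_constantCoeff] at h1
        simp at h1
  have h0 : π (C X) ∈ nonZeroDivisors S := by
    rw [mem_nonZeroDivisors_iff_right]
    intro s hs
    obtain ⟨t, rfl⟩ := hπ s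
    rw [← map_mul, hker] at hs
    obtain ⟨d, hd⟩ := hs
    have h1 := congrArg (PowerSeries.map (constantCoeff (R := U.W))) hd
    have h2 : ((p : ℕ) : U.W⟦X⟧) ≠ 0 := by
      rw [← map_natCast (C (R := U.W))]
      exact fun h3 => Nat.cast_ne_zero.2 (Fact.out : p.Prime).ne_zero
        (C_injective (h3.trans (map_zero _).symm))
    have h3 : PowerSeries.map (constantCoeff (R := U.W)) d = 0 := by
      rw [hg] at h1
      simpa [ha, he, h2] using h1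
    obtain ⟨d', rfl⟩ := ngsr_cx d h3
    have h4 : (C X : U.W⟦X⟧⟦X⟧) ≠ 0 := fun h5 =>
      X_ne_zero (C_injective (h5.trans (map_zero _).symm))
    exact (hker t).2 ⟨d', mul_right_cancel₀ h4 (by rw [hd]; ring)⟩
  have hD : IsDomain S :=
    kr_domain _ (kr_prime _ _ (nonZeroDivisors.ne_zero h0) hm hY) h0
  refine ⟨hD, hN, hL, cp_quot π hπ, hm, hY, a * e, ?_⟩
  obtain ⟨a', rfl⟩ := Nat.exists_eq_succ_of_ne_zero ha
  rw [hp, (hv.map π).mul_left_dvd, pow_mul]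
  exact pow_dvd_pow_of_dvd ⟨π (C (X * h) + X) ^ a', by rw [Nat.succ_eq_add_one]; ring⟩ e

end Pool.Agent.MP_855f4c_ag.LP

namespace Pool.Agent.MP_855f4c_ag.LP

open PowerSeries IsLocalRing

variable {p : ℕ} [Fact p.Prime]

lemma ngss_nu {W : Type*} [CommRing W] [Nontrivial W] (f : W⟦X⟧⟦X⟧)
    (hf : constantCoeff (constantCoeff f) = 0) : ¬ IsUnit f := fun h => by
  have := (h.map (constantCoeff (R := W⟦X⟧))).map (constantCoeff (R := W))
  rw [hf] at this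
  exact not_isUnit_zero this

lemma ngss_e (Ψ : Frame p) (u : Ψ.U.W⟦X⟧) (hu : IsUnit u) (e : ℕ)
    (he : Ψ.ι (u * X ^ e) = p) : e ≠ 0 := by
  rintro rfl
  obtain ⟨v, hv⟩ := hu.exists_right_inv
  have hp : ‖(p : PadicAlgCl p)‖ < 1 := by
    rw [← map_natCast (algebraMap ℚ_[p] (PadicAlgCl p))]
    exact (PadicAlgCl.norm_extends p _).trans_lt Padic.norm_p_lt_one
  rw [pow_zero, mul_one] at he
  have h1 : ‖Ψ.ι (u * v)‖ < 1 := by
    rw [map_mul, norm_mul, he]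
    exact (mul_le_of_le_one_right (norm_nonneg _) (Ψ.le _)).trans_lt hp
  rw [hv, map_one, norm_one] at h1
  exact lt_irrefl _ h1

lemma ngss_q {T : Type} [CommRing T] (g : T) : ∃ (S : Type) (_ : CommRing S) (π : T →+* S),
    Function.Surjective π ∧ RingHom.ker π = Ideal.span {g} ∧ π g = 0 ∧
      ∀ (Ω : Type) [CommRing Ω] (φ : T →+* Ω), φ g = 0 → ∃ ψ : S →+* Ω, ∀ t, ψ (π t) = φ t :=
  ⟨T ⧸ Ideal.span {g}, inferInstance, Ideal.Quotient.mk _, Ideal.Quotient.mk_surjective,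
    Ideal.mk_ker, Ideal.Quotient.eq_zero_iff_mem.2 (Ideal.mem_span_singleton_self _),
    fun _ _ φ hφ => ⟨Ideal.Quotient.lift _ φ (fun t ht => by
      obtain ⟨c, rfl⟩ := Ideal.mem_span_singleton.1 ht
      rw [map_mul, hφ, zero_mul]), fun _ => rfl⟩⟩

/-- The surface attached to two frames. -/
lemma ss (Ψ Φ : Frame p) (θ : Ψ.U.W →+* Φ.U.W) (hθ : ∀ w, Φ.ι (C (θ w)) = Ψ.ι (C w)) (a e : ℕ)
    (ha : a ≠ 0) (h : Φ.U.W⟦X⟧) (hh : Φ.ι (X ^ a * (X * h)) = Ψ.ι X) (u : Ψ.U.W⟦X⟧)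
    (hu : IsUnit u) (he : Ψ.ι (u * X ^ e) = p) :
    ∃ (Q : Surf Φ) (Z : Q.S) (σ : Ψ.U.W⟦X⟧ →+* Q.S), Z ∈ maximalIdeal Q.S ∧ Q.ι Z = 0 ∧
      (∀ f, Q.ι (σ f) = Ψ.ι f) ∧ (∀ f, Ψ.ι f = 0 → σ f = 0) ∧
      (∀ f, ∃ f', Q.j X ^ a * Z ∣ σ f - Q.j f') ∧ (∀ f, Φ.ι f = 0 → Q.j X ^ a * Z ∣ Q.j f) ∧
      Q.r (σ X) = 0 ∧ ∀ w, σ (C w) = Q.j (C (θ w)) := by
  have he0 : e ≠ 0 := ngss_e Ψ u hu e he
  have c1 : IsAdicComplete (maximalIdeal Φ.U.W⟦X⟧) Φ.U.W⟦X⟧ := cp_ps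
  have c2 : IsAdicComplete (maximalIdeal Φ.U.W⟦X⟧⟦X⟧) Φ.U.W⟦X⟧⟦X⟧ := cp_ps
  have hy : ¬ IsUnit (C (X ^ a) * (C (X * h) + X) : Φ.U.W⟦X⟧⟦X⟧) := ngss_nu _ (by simp)
  obtain ⟨s, hs1, hs2⟩ := cp_ev (maximalIdeal Φ.U.W⟦X⟧⟦X⟧)
    ((C (R := Φ.U.W⟦X⟧)).comp ((C (R := Φ.U.W)).comp θ)) _ hy
  obtain ⟨ev, hev1, hev2⟩ := cp_ev (maximalIdeal Φ.U.W⟦X⟧) (RingHom.id Φ.U.W⟦X⟧) (-(X * h))
    (fun hx => by
      have := hx.map (constantCoeff (R := Φ.U.W))
      simp at this)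
  obtain ⟨r0, hr0⟩ := exists_red Φ.U
  obtain ⟨g, hg⟩ : ∃ g : Φ.U.W⟦X⟧⟦X⟧,
    g = s u * (C (X ^ a) * (C (X * h) + X)) ^ e - (p : Φ.U.W⟦X⟧⟦X⟧) := ⟨_, rfl⟩
  have hgs : s (u * X ^ e - (p : Ψ.U.W⟦X⟧)) = g := by
    rw [hg, map_sub, map_mul, map_pow, hs2, map_natCast]
  have hι : ∀ f, Φ.ι (constantCoeff (s f)) = Ψ.ι f := by
    have := hom_ext_norm Ψ.ι (Φ.ι.comp ((constantCoeff (R := Φ.U.W⟦X⟧)).comp s)) Ψ.le
      (fun f => Φ.le _) Ψ.lt (fun w => by simp [hs1, hθ]) (by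
        rw [← hh]; simp [hs2])
    intro f
    rw [this]; rfl
  have hq : Ψ.ι (u * X ^ e - (p : Ψ.U.W⟦X⟧)) = 0 := by
    rw [map_sub, he, map_natCast, sub_self]
  have hιg : Φ.ι (constantCoeff g) = 0 := by rw [← hgs, hι, hq]
  have hevy : ev (C (X ^ a) * (C (X * h) + X)) = 0 := by
    rw [map_mul, map_add, hev1, hev1, hev2]; simp
  have hrg : r0 (algebraMap Φ.U.W⟦X⟧ (Lam Φ.U.W) (ev g)) = 0 := by
    have := gp_char (p := p)
    rw [hg, map_sub, map_mul, map_pow, hevy, zero_pow he0, mul_zero, zero_sub, map_neg, map_neg,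
      map_natCast, map_natCast, map_natCast, CharP.cast_eq_zero, neg_zero]
  have hd : ∀ f, C (X ^ a) * X ∣ s f - C (constantCoeff (s f)) := fun f =>
    cp_ext s ((C (R := Φ.U.W⟦X⟧)).comp ((constantCoeff (R := Φ.U.W⟦X⟧)).comp s)) _
      (fun w => by simp [hs1]) ⟨1, by simp [hs2]; ring⟩ (by rw [hs2]; exact hy)
      (ngss_nu _ (by simp [hs2])) f
  obtain ⟨S, i0, π, hπs, hk, hπg, hl⟩ := ngss_q g
  obtain ⟨i1, i2, i3, i4, hm, hY, hp⟩ := ss_ring Φ.U a e ha he0 h (s u) (hu.map s) S π hπs (by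
    rw [hk, hg])
  obtain ⟨ι, hι'⟩ := hl _ (Φ.ι.comp (constantCoeff (R := Φ.U.W⟦X⟧))) hιg
  obtain ⟨r, hr⟩ := hl _ (r0.comp ((algebraMap Φ.U.W⟦X⟧ (Lam Φ.U.W)).comp ev)) hrg
  have hd' : ∀ f, π (C X) ^ a * π X ∣ π (s f) - π (C (constantCoeff (s f))) := fun f => by
    have := map_dvd π (hd f)
    rwa [map_mul, map_sub, map_pow, map_pow] at this
  have hZ : ι (π X) = 0 := by rw [hι']; simp
  refine ⟨{ S := S, j := π.comp C, Y := π (C (X * h) + X), hm := hm,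
            hY := hY, hp := hp, ι := ι, hι := fun f => by simp [hι'], hs := fun t => ?_, r0 := r0,
            hr0 := hr0, r := r, hr := fun f => by simp [hr, hev1] }, π X, π.comp s, ?_, hZ,
    fun f => ?_, fun f hf => ?_, fun f => ⟨_, hd' f⟩, fun f hf => ?_, ?_, fun w => ?_⟩
  · obtain ⟨t, rfl⟩ := hπs t
    exact ⟨constantCoeff t, hι' t⟩
  · intro hx
    have := hx.map ι
    rw [hZ] at this
    exact not_isUnit_zero this
  · exact (hι' _).trans (hι f)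
  · obtain ⟨e', rfl⟩ := Nat.exists_eq_succ_of_ne_zero he0
    obtain ⟨c, rfl⟩ := Ψ.ker_dvd _ (u * X ^ e') hq (by rw [pow_succ]; ring) f hf
    change π (s _) = 0
    rw [map_mul, map_mul, hgs, hπg, zero_mul]
  · obtain ⟨e', rfl⟩ := Nat.exists_eq_succ_of_ne_zero he0
    obtain ⟨c, rfl⟩ := Φ.ker_dvd _
      (constantCoeff (s u) * (X ^ a * h * (X ^ a * (X * h)) ^ e')) hιg (by
        rw [hg]; simp; ring) f hf
    change π (C X) ^ a * π X ∣ π (C _)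
    have h1 := hd' (u * X ^ e'.succ - (p : Ψ.U.W⟦X⟧))
    rw [hgs, hπg, zero_sub, dvd_neg] at h1
    rw [map_mul, map_mul]
    exact h1.mul_right _
  · change r (π (s X)) = 0
    rw [hr, hs2]
    simp only [RingHom.comp_apply, hevy, map_zero]
  · change π (s (C w)) = π (C (C (θ w)))
    rw [hs1]; rfl

end Pool.Agent.MP_855f4c_ag.LP

namespace Pool.Agent.MP_855f4c_ag.LP

open PowerSeries IsLocalRing

variable {p : ℕ} [Fact p.Prime]

lemma nglb_unit (Φ : Frame p) {f : Φ.U.W⟦X⟧} (hf : IsUnit f) : ‖Φ.ι f‖ = 1 := by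
  obtain ⟨g, hg⟩ := hf.exists_right_inv
  have h : ‖Φ.ι f‖ * ‖Φ.ι g‖ = 1 := by rw [← norm_mul, ← map_mul, hg, map_one, norm_one]
  exact le_antisymm (Φ.le f) (h ▸ mul_le_of_le_one_right (norm_nonneg _) (Φ.le g))

/-- The base ring maps to the surface. -/
lemma lf_base (K : IntermediateField ℚ_[p] (PadicAlgCl p)) [FiniteDimensional ℚ_[p] K]
    {O : Type} [CommRing O] (o : O →+* PadicAlgCl p) (ho : ∀ c, o c ∈ K ∧ ‖o c‖ ≤ 1) :
    ∃ ϖ : PadicAlgCl p, ϖ ≠ 0 ∧ ‖ϖ‖ < 1 ∧ ∀ (D : ℕ) (z : PadicAlgCl p), z ^ (D + 2) = ϖ →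
      ∀ t : Set (PadicAlgCl p), t.Finite → (∀ y ∈ t, ‖z * y‖ ≤ 1) →
      ∃ (Φ : Frame p) (Q : Surf Φ) (Z : Q.S) (m a : ℕ) (S₀ : Subring Q.S) (β : O →+* Q.S),
        Z ∈ maximalIdeal Q.S ∧ Q.ι Z = 0 ∧ m * D ≤ a ∧ (∀ f, Q.j f ∈ S₀) ∧
        (∀ c ∈ S₀, Q.ι c = 0 → Q.j X ^ a * Z ∣ c) ∧
        (∀ c, β c ∈ S₀ ∧ Q.ι (β c) = o c ∧ IsAlgebraic (Polynomial (ZMod p)) (Q.r (β c)) ∧
          (‖o c‖ < 1 → Q.r (β c) = 0)) ∧
        ∀ y ∈ t, ∃ q : Polynomial Φ.U.W, Φ.ι q = Φ.ι X ^ m * y := by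
  obtain ⟨Ψ, h1, h2, h3⟩ := fk K
  obtain ⟨e, u, hu, he⟩ := rf_unit Ψ K h1 h2 h3 (natCast_mem K p)
    (Nat.cast_ne_zero.2 (Fact.out : p.Prime).ne_zero) (IsUltrametricDist.norm_natCast_le_one _ p)
  refine ⟨Ψ.ι X, Ψ.ne, Ψ.lt, fun D z hz t ht hzt => ?_⟩
  have := (ht.insert z).to_subtype
  have : FiniteDimensional ℚ_[p] (IntermediateField.adjoin ℚ_[p] (insert z t)) :=
    IntermediateField.finiteDimensional_adjoin fun x _ =>
      (Algebra.IsAlgebraic.isAlgebraic x).isIntegral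
  have hK : ∀ x ∈ K, x ∈ K ⊔ IntermediateField.adjoin ℚ_[p] (insert z t) :=
    fun x hx => (le_sup_left : K ≤ _) hx
  have hT : ∀ x ∈ insert z t, x ∈ K ⊔ IntermediateField.adjoin ℚ_[p] (insert z t) :=
    fun x hx => (le_sup_right : _ ≤ K ⊔ _) (IntermediateField.subset_adjoin _ _ hx)
  obtain ⟨Φ, g1, g2, g3⟩ := fk (K ⊔ IntermediateField.adjoin ℚ_[p] (insert z t))
  obtain ⟨θ, hθ, -⟩ := rf_theta Ψ Φ fun w => g1 _ (hK _ (h2 _)) (Ψ.le _)
  have z0 : z ≠ 0 := fun h => Ψ.ne (by rw [← hz, h, zero_pow (by omega)])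
  have z1 : ‖z‖ < 1 := lt_of_not_ge fun h =>
    Ψ.lt.not_ge (by rw [← hz, norm_pow]; exact one_le_pow₀ h)
  obtain ⟨m, v, hv, hm⟩ := rf_unit Φ _ g1 g2 g3 (hT z (.inl rfl)) z0 z1.le
  have zn : ‖z‖ = ‖Φ.ι X‖ ^ m := by
    rw [← hm, map_mul, map_pow, norm_mul, norm_pow, nglb_unit Φ hv, one_mul]
  have m0 : m ≠ 0 := fun h => z1.ne (by rw [zn, h, pow_zero])
  have π0 := norm_pos_iff.2 Φ.ne
  obtain ⟨h, hh⟩ := g1 (Ψ.ι X / Φ.ι X ^ (m * (D + 1) + 1))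
    (div_mem (hK _ (h2 _)) (pow_mem (g2 _) _)) (by
      rw [norm_div, norm_pow, div_le_one (pow_pos π0 _), ← hz, norm_pow, zn, ← pow_mul]
      exact pow_le_pow_of_le_one π0.le Φ.lt.le (by rw [mul_add m (D + 1) 1]; omega))
  obtain ⟨Q, Z, σ, s1, s2, s3, s4, s5, s6, s7, s8⟩ := ss Ψ Φ θ hθ (m * (D + 1)) e
    (mul_ne_zero m0 D.succ_ne_zero) h (by
      rw [← mul_assoc, ← pow_succ, map_mul, map_pow, hh, mul_div_cancel₀ _ (pow_ne_zero _ Φ.ne)])
    u hu he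
  let I : Ideal Q.S := Ideal.span {Q.j X ^ (m * (D + 1)) * Z}
  have hS : ∀ s, s ∈ ((Ideal.Quotient.mk I).comp Q.j).range.comap (Ideal.Quotient.mk I) ↔
      ∃ f, Q.j X ^ (m * (D + 1)) * Z ∣ s - Q.j f := fun s =>
    exists_congr fun f => eq_comm.trans (Ideal.Quotient.eq.trans Ideal.mem_span_singleton)
  have hk : RingHom.ker Ψ.ι.rangeRestrict ≤ RingHom.ker σ := fun f hf =>
    s4 f (congrArg Subtype.val hf)
  let β : O →+* Q.S := (Ψ.ι.rangeRestrict.liftOfSurjective Ψ.ι.rangeRestrict_surjective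
    ⟨σ, hk⟩).comp (o.codRestrict Ψ.ι.range fun c => h1 _ (ho c).1 (ho c).2)
  refine ⟨Φ, Q, Z, m, m * (D + 1), _, β, s1, s2, Nat.mul_le_mul_left m D.le_succ,
    fun f => (hS _).2 ⟨f, by rw [sub_self]; exact dvd_zero _⟩, fun c hc h0 => ?_, fun c => ?_,
    fun y hy => ?_⟩
  · obtain ⟨f, hf⟩ := (hS c).1 hc
    have := map_dvd Q.ι hf
    rw [map_mul, s2, mul_zero, zero_dvd_iff, map_sub, h0, Q.hι, zero_sub, neg_eq_zero] at this
    exact (sub_add_cancel c (Q.j f)) ▸ hf.add (s6 f this)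
  · obtain ⟨f, hf⟩ := h1 _ (ho c).1 (ho c).2
    have hc : o.codRestrict Ψ.ι.range (fun c => h1 _ (ho c).1 (ho c).2) c = Ψ.ι.rangeRestrict f :=
      Subtype.ext hf.symm
    have hb : β c = σ f := (congrArg _ hc).trans (RingHom.liftOfSurjective_comp_apply _ _ _ _)
    have hr : Q.r (σ f) = Q.r (Q.j (C (θ (constantCoeff f)))) := by
      rw [← s8]
      conv_lhs => rw [eq_X_mul_shift_add_const f, map_add, map_mul, map_add, map_mul, s7,
        zero_mul, zero_add]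
    rw [hb, hr, s3]
    refine ⟨(hS _).2 (s5 f), hf, ?_, fun hn => ?_⟩
    · rw [Q.hr, ← Polynomial.coe_C]
      exact al_red _ Q.r0 Q.hr0 _ (al_poly _ _)
    · obtain ⟨w, hw⟩ := ps_dvd Ψ.U (constantCoeff f) fun g =>
        hn.ne (hf ▸ nglb_unit Ψ (isUnit_iff_constantCoeff.2 g))
      have := gp_char (p := p)
      simp only [hw, map_mul, map_natCast, CharP.cast_eq_zero, zero_mul]
  · obtain ⟨f, hf⟩ := g1 (Φ.ι X ^ m * y) (mul_mem (pow_mem (g2 _) _) (hT y (.inr hy)))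
      (by rw [norm_mul, norm_pow, ← zn, ← norm_mul]; exact hzt y hy)
    exact hf ▸ Φ.poly f

end Pool.Agent.MP_855f4c_ag.LP

namespace Pool.Agent.MP_855f4c_ag.LP

open PowerSeries IsLocalRing

variable {p : ℕ} [Fact p.Prime]

lemma nglc_alg {Φ : Frame p} (Q : Surf Φ) (q : Polynomial Φ.U.W) :
    IsAlgebraic (Polynomial (ZMod p)) (Q.r (Q.j (q : Φ.U.W⟦X⟧))) := by
  rw [Q.hr]
  exact al_red Φ.U Q.r0 Q.hr0 _ (al_poly Φ.U q)

/-- Lifting on one chart. -/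
lemma lf_chart (K : IntermediateField ℚ_[p] (PadicAlgCl p)) [FiniteDimensional ℚ_[p] K]
    {O : Type} [CommRing O] (o : O →+* PadicAlgCl p) (ho : ∀ c, o c ∈ K ∧ ‖o c‖ ≤ 1)
    {G : Type} [CommRing G] {d : ℕ} (φ : MvPolynomial (Fin d) O →+* G) (hφ : φ.Etale) :
    ∃ (R : ℝ) (k : ℕ) (b : Fin k → G), 1 < R ∧ ∀ y : G →+* PadicAlgCl p,
      (∀ c, y (φ (MvPolynomial.C c)) = o c) → (∀ i, ‖y (b i)‖ ≤ R) →
      ∃ (Φ : Frame p) (Q : Surf Φ) (ψ : G →+* Q.L), (∀ z, Q.ev (ψ z) = y z) ∧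
        (∀ z, IsAlgebraic (Polynomial (ZMod p)) (Q.red (ψ z))) ∧
        ∀ c, ‖o c‖ < 1 → Q.red (ψ (φ (MvPolynomial.C c))) = 0 := by
  let _ : Algebra (MvPolynomial (Fin d) O) G := φ.toAlgebra
  have _ : Algebra.Etale (MvPolynomial (Fin d) O) G := hφ
  obtain ⟨T, hT⟩ := (Algebra.FiniteType.out : (⊤ : Subalgebra (MvPolynomial (Fin d) O) G).FG)
  let b' : Fin T.card → G := fun i => (T.equivFin.symm i : G)
  have hb' : Algebra.adjoin (MvPolynomial (Fin d) O) (Set.range b') = ⊤ := by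
    rw [← hT]
    congr 1
    ext g
    exact ⟨fun ⟨i, hi⟩ => hi ▸ (T.equivFin.symm i).2,
      fun hg => ⟨T.equivFin ⟨g, hg⟩, by simp [b']⟩⟩
  have hs : Subring.closure (Set.range (MvPolynomial.C : O → MvPolynomial (Fin d) O) ∪
      Set.range MvPolynomial.X) = ⊤ := by
    rw [eq_top_iff]
    intro f hf
    clear hf
    induction f using MvPolynomial.induction_on with
    | C c => exact Subring.subset_closure (Or.inl ⟨c, rfl⟩)
    | add f g hf hg => exact add_mem hf hg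
    | mul_X f i hf => exact mul_mem hf (Subring.subset_closure (Or.inr ⟨i, rfl⟩))
  obtain ⟨D, hD⟩ := newton _ hs b' hb'
  obtain ⟨ϖ, h0, h1, hϖ⟩ := lf_base K o ho
  obtain ⟨z, hz⟩ := IsAlgClosed.exists_pow_nat_eq ϖ (Nat.succ_pos (D + 1))
  have hz0 : z ≠ 0 := fun h => h0 (by rw [← hz, h, zero_pow (Nat.succ_ne_zero _)])
  have hz1 : ‖z‖ < 1 := by
    rw [← hz, norm_pow] at h1
    exact lt_of_pow_lt_pow_left₀ _ zero_le_one (by rwa [one_pow])
  have hzp : 0 < ‖z‖ := norm_pos_iff.mpr hz0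
  refine ⟨‖z‖⁻¹, T.card + d, Fin.append b' (fun i => φ (MvPolynomial.X i)),
    (one_lt_inv₀ hzp).mpr hz1, fun y hy hR => ?_⟩
  obtain ⟨Φ, Q, Z, m, a, S₀, β, hZ, hZ0, hm, hj, hk, hβ, hq⟩ := hϖ D z hz
    (Set.range fun i => y (Fin.append b' (fun i => φ (MvPolynomial.X i)) i))
    (Set.finite_range _) (by
      rintro _ ⟨i, rfl⟩
      rw [norm_mul]
      exact (mul_le_mul_of_nonneg_left (hR i) hzp.le).trans (mul_inv_cancel₀ hzp.ne').le)
  choose q hq using fun i => hq _ ⟨i, rfl⟩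
  beta_reduce at hq
  let v : Q.L := IsLocalization.Away.invSelf (Q.j X)
  have hv : algebraMap Q.S Q.L (Q.j X) * v = 1 := IsLocalization.Away.mul_invSelf _
  let ψ₀ : MvPolynomial (Fin d) O →+* Q.L := MvPolynomial.eval₂Hom ((algebraMap Q.S Q.L).comp β)
    (fun i => algebraMap Q.S Q.L (Q.j (q (Fin.natAdd T.card i) : Φ.U.W⟦X⟧)) * v ^ m)
  have hC : ∀ c, ψ₀ (MvPolynomial.C c) = algebraMap Q.S Q.L (β c) := fun c =>
    MvPolynomial.eval₂Hom_C _ _ c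
  have hX : ∀ i, ψ₀ (MvPolynomial.X i) =
      algebraMap Q.S Q.L (Q.j (q (Fin.natAdd T.card i) : Φ.U.W⟦X⟧)) * v ^ m := fun i =>
    MvPolynomial.eval₂Hom_X' _ _ i
  have hc : y.comp φ = Q.ev.comp ψ₀ := by
    refine MvPolynomial.ringHom_ext (fun c => ?_) (fun i => ?_)
    · rw [RingHom.comp_apply, RingHom.comp_apply, hy, hC, Q.ev_algebraMap, (hβ c).2.1]
    · have e := congrArg Q.ev hv
      rw [map_mul, map_one, Q.ev_algebraMap, Q.hι] at e
      rw [RingHom.comp_apply, RingHom.comp_apply, hX, map_mul, map_pow, Q.ev_algebraMap, Q.hι, hq,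
        Fin.append_right, mul_right_comm, ← mul_pow, e, one_pow, one_mul]
  obtain ⟨ψ, hψ, hψ'⟩ := hD Q.S Q.L (PadicAlgCl p) (maximalIdeal Q.S) (Q.j X) Z Q.ev m a S₀ ψ₀ y
    Q.X_ne hZ (by rw [Q.ev_algebraMap, hZ0]) hm (hj X)
    (fun c h h' => hk c h (by rwa [Q.ev_algebraMap] at h'))
    (by
      rintro _ (⟨c, rfl⟩ | ⟨i, rfl⟩)
      · exact ⟨Q.j X ^ m * β c, mul_mem (pow_mem (hj X) m) (hβ c).1, by
          rw [hC, map_mul, map_pow]⟩
      · exact ⟨_, hj (q (Fin.natAdd T.card i)), by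
          rw [hX, mul_left_comm, ← mul_pow, hv, one_pow, mul_one]⟩)
    (fun c => RingHom.congr_fun hc c)
    (fun i => ⟨_, hj (q (Fin.castAdd d i)), by
      rw [Q.ev_algebraMap, Q.ev_algebraMap, Q.hι, Q.hι, hq, Fin.append_left]⟩)
  have hva : IsAlgebraic (Polynomial (ZMod p)) (Q.red v) := by
    have e := congrArg Q.red hv
    rw [map_mul, map_one, Q.red_algebraMap] at e
    have h := nglc_alg Q Polynomial.X
    rw [Polynomial.coe_X] at h
    rw [eq_inv_of_mul_eq_one_right e]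
    exact h.inv
  refine ⟨Φ, Q, ψ, hψ', fun w => alg_et (P := MvPolynomial (Fin d) O) (Q.red.comp ψ)
    (fun f => ?_) w, fun c h => ?_⟩
  · rw [RingHom.comp_apply, hψ]
    induction f using MvPolynomial.induction_on with
    | C c => rw [hC, Q.red_algebraMap]; exact (hβ c).2.2.1
    | add f g hf hg => rw [map_add, map_add]; exact hf.add hg
    | mul_X f i hf =>
      rw [map_mul, map_mul, hX, map_mul, map_pow, Q.red_algebraMap]
      exact hf.mul ((nglc_alg Q _).mul (hva.pow m))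
  · have e : ψ (φ (MvPolynomial.C c)) = ψ₀ (MvPolynomial.C c) := hψ _
    rw [e, hC, Q.red_algebraMap]
    exact (hβ c).2.2.2 h

end Pool.Agent.MP_855f4c_ag.LP

namespace Pool.Agent.MP_855f4c_ag.LP

open PowerSeries IsLocalRing

variable {p : ℕ} [Fact p.Prime]

/-- If a finite sum is `1`, one of its terms has norm at least `1`. -/
lemma nglf_big {k : ℕ} (f : Fin k → PadicAlgCl p) (h : ∑ i, f i = 1) : ∃ i, 1 ≤ ‖f i‖ := by
  rcases (Finset.univ : Finset (Fin k)).eq_empty_or_nonempty with h0 | h0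
  · rw [h0, Finset.sum_empty] at h
    exact absurd h zero_ne_one
  · obtain ⟨i, -, hi⟩ := IsUltrametricDist.exists_norm_finsetSum_le_of_nonempty h0 f
    rw [h, norm_one] at hi
    exact ⟨i, hi⟩

/-- Points of a smooth algebra that are close to integral lift to a surface. -/
lemma lift_near (K : IntermediateField ℚ_[p] (PadicAlgCl p)) [FiniteDimensional ℚ_[p] K]
    {O : Type} [CommRing O] (o : O →+* PadicAlgCl p) (ho : ∀ c, o c ∈ K ∧ ‖o c‖ ≤ 1)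
    (B : Type) [CommRing B] [Algebra O B] [Algebra.Smooth O B] (s : Set B)
    (hs : Algebra.adjoin O s = ⊤) :
    ∃ r : ℝ, 1 < r ∧ ∀ y : B →+* PadicAlgCl p, (∀ c, y (algebraMap O B c) = o c) →
      (∀ a ∈ s, ‖y a‖ ≤ r) →
      ∃ (Φ : Frame p) (Q : Surf Φ) (ψ : B →+* Q.L), (∀ z, Q.ev (ψ z) = y z) ∧
        (∀ z, IsAlgebraic (Polynomial (ZMod p)) (Q.red (ψ z))) ∧
        ∀ c, ‖o c‖ < 1 → Q.red (ψ (algebraMap O B c)) = 0 := by
  obtain ⟨k, g, c, hsum, hch⟩ := charts O B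
  choose d φ hφe hφC using hch
  choose R n b hR hlift using fun i => lf_chart K o ho (φ i) (hφe i)
  have hs' := closure_adjoin s hs
  obtain ⟨D1, hD1⟩ := grow_norm _ hs' c
  choose D2 hD2 using fun i => grow_norm _ (closure_away (G := Localization.Away (g i)) (g i) _ hs'
    (IsLocalization.Away.invSelf (g i)) (IsLocalization.Away.mul_invSelf (g i))) (b i)
  obtain ⟨r, hr, hrR⟩ := near_one R hR (fun i => (D1 + 1) * D2 i)
  refine ⟨r, hr, fun y hy1 hy2 => ?_⟩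
  have hy : ∀ a ∈ Set.range (algebraMap O B) ∪ s, ‖y a‖ ≤ r := by
    rintro a (⟨x, rfl⟩ | ha)
    · rw [hy1]
      exact (ho x).2.trans hr.le
    · exact hy2 a ha
  obtain ⟨i, hi⟩ := nglf_big (fun i => y (c i) * y (g i)) (by
    simp only [← map_mul, ← map_sum, hsum, map_one])
  rw [norm_mul] at hi
  have hc := hD1 p r hr.le y hy i
  have hg0 : y (g i) ≠ 0 := by
    intro h
    rw [h, norm_zero, mul_zero] at hi
    exact absurd hi (by norm_num)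
  have hu : IsUnit (y (g i)) := IsUnit.mk0 _ hg0
  let y' : Localization.Away (g i) →+* PadicAlgCl p := IsLocalization.Away.lift (g i) hu
  have hy' : ∀ a, y' (algebraMap B _ a) = y a := IsLocalization.Away.lift_eq (g i) hu
  have hr1 : 1 ≤ r ^ (D1 + 1) := one_le_pow₀ hr.le
  have ht : ‖y' (IsLocalization.Away.invSelf (g i))‖ ≤ r ^ (D1 + 1) := by
    have h1 : y (g i) * y' (IsLocalization.Away.invSelf (g i)) = 1 := by
      rw [← hy', ← map_mul, IsLocalization.Away.mul_invSelf, map_one]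
    have h2 : ‖y (g i)‖ * ‖y' (IsLocalization.Away.invSelf (g i))‖ = 1 := by
      rw [← norm_mul, h1, norm_one]
    calc ‖y' (IsLocalization.Away.invSelf (g i))‖
        ≤ ‖y (c i)‖ * ‖y (g i)‖ * ‖y' (IsLocalization.Away.invSelf (g i))‖ :=
          le_mul_of_one_le_left (norm_nonneg _) hi
      _ = ‖y (c i)‖ := by rw [mul_assoc, h2, mul_one]
      _ ≤ r ^ D1 := hc
      _ ≤ r ^ (D1 + 1) := pow_le_pow_right₀ hr.le (Nat.le_succ _)
  have hb : ∀ j, ‖y' (b i j)‖ ≤ R i := fun j => by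
    refine (hD2 i p (r ^ (D1 + 1)) hr1 y' ?_ j).trans ?_
    · rintro a (⟨x, hx, rfl⟩ | ha)
      · rw [hy']
        exact (hy x hx).trans (le_self_pow₀ hr.le (Nat.succ_ne_zero _))
      · rw [Set.mem_singleton_iff.1 ha]
        exact ht
    · rw [← pow_mul]
      exact hrR i
  obtain ⟨Φ, Q, ψ, h1, h2, h3⟩ := hlift i y' (fun x => by rw [hφC, hy', hy1]) hb
  refine ⟨Φ, Q, ψ.comp (algebraMap B _), fun z => ?_, fun z => h2 _, fun x hx => ?_⟩
  · rw [RingHom.comp_apply, h1, hy']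
  · rw [RingHom.comp_apply, ← hφC]
    exact h3 x hx

end Pool.Agent.MP_855f4c_ag.LP

namespace Pool.Agent.MP_855f4c_ag.LP

open PowerSeries IsLocalRing CategoryTheory CommAlgCat

/-- Automorphisms over the tame closure act trivially. -/
lemma co_triv {S Ω : Type} [CommRing S] [IsLocalRing S] [Field Ω] [IsAlgClosed Ω] [Algebra S Ω]
    [CharZero Ω] [Algebra.IsAlgebraic S Ω] {p : ℕ} {X Y : S} (B : Base p S Ω X Y) (l : ℕ)
    (hl : l.Prime) (hlp : l ≠ p) {A F : Type} [CommRing A] [Field F] [CharZero F] (L : LocSys A F)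
    [Algebra A Ω] (hA : ∀ a, algebraMap A Ω a ∈ Lo X (⊥ : Subalgebra S Ω))
    (V : AddSubgroup (L.obj ⟨FiniteEtale.fiber.{0} A Ω⟩))
    (h1 : Submodule.span F (V : Set (L.obj ⟨FiniteEtale.fiber.{0} A Ω⟩)) = ⊤)
    (h2 : ∀ v, (∀ n : ℕ, ∃ w ∈ V, v = l ^ n • w) → v = 0)
    (h3 : ∀ g : Ω ≃ₐ[A] Ω, ∀ v ∈ V, rho L g v ∈ V) (T : ℕ → (FiniteEtale.{0} A)ᵒᵖ)
    (h4 : ∀ n (g : Ω ≃ₐ[A] Ω), NatTrans.app (act g).hom (T n) = 𝟙 _ →
      ∀ v ∈ V, ∃ w ∈ V, rho L g v - v = l ^ n • w)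
    (h5 : ∀ (s : (T 1).unop →ₐ[A] Ω) z, s z ∈ Tm B) (δ : Ω ≃ₐ[A] Ω) (hδ : ∀ c ∈ Tm B, δ c = c) :
    rho L δ = 1 := by
  let G : Subgroup (Ω ≃ₐ[A] Ω) :=
    { carrier := {g | ∀ c ∈ Tm B, g c = c}
      mul_mem' := fun {a b} ha hb c hc => by rw [AlgEquiv.mul_apply, hb c hc, ha c hc]
      one_mem' := fun _ _ => rfl
      inv_mem' := fun {a} ha c hc => a.injective (by
        rw [ha c hc]; exact a.apply_symm_apply c) }
  let ρ : G →* Module.End F (L.obj ⟨FiniteEtale.fiber.{0} A Ω⟩) :=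
    { toFun := fun g => rho L g.1
      map_one' := pa_one L
      map_mul' := fun g h => pa_mul L g.1 h.1 }
  let ρ' : G →* (Ω ≃+* Ω) :=
    { toFun := fun g => g.1.toRingEquiv
      map_one' := rfl
      map_mul' := fun _ _ => rfl }
  refine lad ρ l hl V h1 h2 (fun g => h3 g.1)
    (fun n g => ∀ (s : (T n).unop →ₐ[A] Ω) z, g.1 (s z) = s z) (fun n g hg => h4 n g.1 ?_)
    (fun g s z => g.2 _ (h5 s z)) (fun n χ hχ => Tm.kummer B l hl hlp hA (D := (T n).unop) ρ'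
      (fun g => g.2) (fun σ hσ => ?_) χ hχ) ⟨δ, hδ⟩
  · ext s
    exact AlgHom.ext (hg s)
  · exact ⟨⟨{ σ with commutes' := fun a => hσ _ (Tm.lo B St.bot (hA a)) }, hσ⟩, rfl⟩

variable {p : ℕ} [Fact p.Prime] {Φ : Frame p}

instance Surf.domL (Q : Surf Φ) : IsDomain Q.L :=
  IsLocalization.isDomain_localization (powers_le_nonZeroDivisors_of_noZeroDivisors Q.X_ne)

instance Surf.pidL (Q : Surf Φ) : IsPrincipalIdealRing Q.L :=
  kr_pid (Q.j X) Q.Y Q.X_ne Q.hm Q.hY _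

/-- The algebraic closure of the fraction field of `S[1/X]`. -/
abbrev Surf.Om (Q : Surf Φ) : Type := AlgebraicClosure (FractionRing Q.L)

/-- The integral closure of `S[1/X]`. -/
abbrev Surf.Cl (Q : Surf Φ) : Type := integralClosure Q.L Q.Om

lemma Surf.injL (Q : Surf Φ) : Function.Injective (algebraMap Q.L Q.Om) := by
  rw [IsScalarTower.algebraMap_eq Q.L (FractionRing Q.L)]
  exact (algebraMap (FractionRing Q.L) _).injective.comp (IsFractionRing.injective Q.L _)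

lemma Surf.injS (Q : Surf Φ) : Function.Injective (algebraMap Q.S Q.L) :=
  IsLocalization.injective Q.L (powers_le_nonZeroDivisors_of_noZeroDivisors Q.X_ne)

lemma Surf.base (Q : Surf Φ) : Base p Q.S Q.Om (Q.j X) Q.Y where
  pp := Fact.out
  noeth := inferInstance
  cpl := inferInstance
  inj := by
    rw [IsScalarTower.algebraMap_eq Q.S Q.L]
    exact Q.injL.comp Q.injS
  ne := Q.X_ne
  hm := Q.hm
  hY := Q.hY
  hp := Q.hp
  nu := fun h => (h.map Q.r).ne_zero (by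
    have := gp_char (p := p)
    rw [map_natCast, CharP.cast_eq_zero])

instance Surf.charZero (Q : Surf Φ) : CharZero Q.Om := by
  have : CharZero Q.S := Q.ι.charZero
  exact charZero_of_injective_algebraMap Q.base.inj

instance Surf.algL (Q : Surf Φ) : Algebra.IsAlgebraic Q.L Q.Om :=
  (IsFractionRing.comap_isAlgebraic_iff (K := FractionRing Q.L)).2 inferInstance

instance Surf.algS (Q : Surf Φ) : Algebra.IsAlgebraic Q.S Q.Om := by
  have : Algebra.IsAlgebraic Q.S Q.L := IsLocalization.isAlgebraic Q.L (Submonoid.powers (Q.j X))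
  exact Algebra.IsAlgebraic.trans Q.S Q.L Q.Om

lemma Surf.memL (Q : Surf Φ) (b : Q.L) :
    algebraMap Q.L Q.Om b ∈ Lo (Q.j X) (⊥ : Subalgebra Q.S Q.Om) := by
  obtain ⟨⟨s, x, k, rfl⟩, h⟩ := IsLocalization.surj (Submonoid.powers (Q.j X)) b
  refine ⟨k, s, ?_⟩
  have := congrArg (algebraMap Q.L Q.Om) h
  simp only [map_mul, map_pow, ← IsScalarTower.algebraMap_apply] at this
  rw [mul_comm, this]
  rfl

lemma Surf.int (Q : Surf Φ) (c : Q.Om) (hc : c ∈ Tm Q.base) : IsIntegral Q.L c := by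
  obtain ⟨k, hk⟩ := Tm.int Q.base c hc
  refine ge_unit ((IsLocalization.Away.algebraMap_isUnit (S := Q.L) (Q.j X)).pow k) ?_
  rw [map_pow, ← IsScalarTower.algebraMap_apply]
  exact hk.tower_top

lemma co_step (Q : Surf Φ) (a0 : Q.Cl →+* PadicAlgCl p)
    (ha0 : ∀ b, a0 (algebraMap Q.L _ b) = Q.ev b) (ap : Q.Cl →+* Omp p)
    (hap : ∀ b, ap (algebraMap Q.L _ b) = Q.red b) (g : PadicAlgCl p →+* PadicAlgCl p)
    (hg : ∀ b, g (Q.ev b) = Q.ev b) (N : ℕ) (hN : Fr0 N g) :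
    ∃ (γ γ' : Q.Cl →ₐ[Q.L] Q.Cl) (g' : Omp p ≃+* Omp p), (∀ c, a0 (γ c) = g (a0 c)) ∧
      (∀ c, ap (γ' c) = g' (ap c)) ∧ (∀ c : Q.Cl, (c : Q.Om) ∈ Tm Q.base → γ c = γ' c) ∧
      Frob (ZMod p)⟦X⟧ N g' := by
  have hch := gp_char (p := p)
  have hC := splits_ic Q.L
  have : FaithfulSMul Q.L Q.Cl := (faithfulSMul_iff_algebraMap_injective _ _).2
    fun a b h => Q.injL (congrArg Subtype.val h)
  have : Module.Flat Q.L Q.Cl := inferInstance
  obtain ⟨γ, hγ⟩ := sec (A := Q.L) (B := Q.Cl) hC a0 (g.comp a0)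
    (fun r => by simp only [RingHom.comp_apply, ha0, hg])
  let κ : Tm Q.base →+* Q.Cl := (Tm Q.base).val.toRingHom.codRestrict (integralClosure Q.L Q.Om)
    fun c => Q.int c c.2
  let μ : Q.L →+* Tm Q.base := (algebraMap Q.L Q.Om).codRestrict (Tm Q.base)
    fun b => Tm.lo Q.base St.bot (Q.memL b)
  have hκ : ∀ b, κ (μ b) = algebraMap Q.L Q.Cl b := fun b => rfl
  let ν : Lam Φ.U.W →+* Q.L := IsLocalization.Away.lift (g := (algebraMap Q.S Q.L).comp Q.j)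
    (X : Φ.U.W⟦X⟧) (IsLocalization.Away.algebraMap_isUnit (Q.j X))
  have hν : Q.red.comp ν = Q.r0 :=
    IsLocalization.ringHom_ext (Submonoid.powers (X : Φ.U.W⟦X⟧)) (RingHom.ext fun f => by
      simp only [RingHom.comp_apply, ν, IsLocalization.Away.lift_eq, Surf.red_algebraMap, Q.hr])
  have hi : Q.red.IsIntegral := RingHom.IsIntegral.tower_top ν Q.red
    (hν ▸ gp_int Φ.U Q.r0 (gp_range Φ.U Q.r0 Q.hr0))
  have e1 : (ap.comp κ).comp μ = Q.red := RingHom.ext fun b => hap b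
  have e2 : (ap.comp (γ.toRingHom.comp κ)).comp μ = Q.red := RingHom.ext fun b =>
    (congrArg ap (γ.commutes b)).trans (hap b)
  obtain ⟨g', hg'⟩ := conj_pt (ap.comp κ) (ap.comp (γ.toRingHom.comp κ))
    (RingHom.IsIntegral.tower_top μ _ (e1 ▸ hi)) (RingHom.IsIntegral.tower_top μ _ (e2 ▸ hi))
    (Tm.ns Q.base _ _)
  have h1 : ∀ b, g' (ap (algebraMap Q.L Q.Cl b)) = ap (algebraMap Q.L Q.Cl b) := fun b =>
    (hg' (μ b)).trans (congrArg ap (γ.commutes b))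
  obtain ⟨γ', hγ'⟩ := sec (A := Q.L) (B := Q.Cl) hC ap (g'.toRingHom.comp ap) h1
  have h2 := Tm.rigid Q.base ap (γ.toRingHom.comp κ) (γ'.toRingHom.comp κ)
    (fun s => (γ.commutes (algebraMap Q.S Q.L s)).trans (γ'.commutes (algebraMap Q.S Q.L s)).symm)
    fun c => (hg' c).symm.trans (hγ' (κ c)).symm
  have h3 : ∀ c : Q.Cl, (c : Q.Om) ∈ Tm Q.base → γ c = γ' c := fun c hc =>
    RingHom.congr_fun h2 ⟨c, hc⟩
  refine ⟨γ, γ', g', hγ, hγ', h3, frob_p g'.toRingHom (fun o => ?_) N (fun f hf w hw => ?_)⟩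
  · obtain ⟨f, rfl⟩ := PowerSeries.map_surjective (PadicInt.toZMod (p := p))
      (ZMod.ringHom_surjective _) o
    rw [← Q.hr0, ← Q.hr, ← Q.red_algebraMap, ← hap]
    exact h1 _
  · have hq : 1 < p ^ f := Nat.one_lt_pow hf (Fact.out : p.Prime).one_lt
    have hmon : (Polynomial.X ^ p ^ f - Polynomial.X : Polynomial Q.Cl).Monic :=
      Polynomial.monic_X_pow_sub (by rw [Polynomial.degree_X]; exact_mod_cast hq)
    obtain ⟨c, hc, rfl⟩ := mn_root hC ap _ hmon w (by simp [Polynomial.eval₂_sub, hw])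
    have hc' : c ^ p ^ f = c := by simpa [sub_eq_zero] using hc
    have hT : (c : Q.Om) ∈ Tm Q.base := by
      by_cases h0 : (c : Q.Om) = 0
      · rw [h0]; exact zero_mem _
      have h4 : (c : Q.Om) ^ (p ^ f - 1) = 1 := by
        apply mul_right_cancel₀ h0
        rw [← pow_succ, Nat.sub_add_cancel hq.le, one_mul]
        exact congrArg Subtype.val hc'
      refine Tm.root Q.base (n := p ^ f - 1) (fun h => ?_) h0 (h4 ▸ one_mem _)
        (by rw [h4, inv_one]; exact one_mem _)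
      have := (Nat.dvd_sub_iff_right hq.le (dvd_pow_self p hf)).1 h
      exact (Fact.out : p.Prime).one_lt.ne' (Nat.dvd_one.1 this)
    have h6 : γ c ^ N = c := by
      refine teich_eq a0 f hf _ _ ?_ hc' ?_
      · rw [← pow_mul, mul_comm, pow_mul, ← map_pow γ c, hc']
      · rw [map_pow, hγ]
        exact hN _ (f0_le_of_pow hq (by rw [← map_pow, hc']))
    change g' (ap c) ^ N = ap c
    rw [← show ap (γ' c) = g' (ap c) from hγ' c, ← h3 c hT, ← map_pow, h6]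

end Pool.Agent.MP_855f4c_ag.LP

namespace Pool.Agent.MP_855f4c_ag.LP

open PowerSeries IsLocalRing CategoryTheory CommAlgCat

variable {p : ℕ} [Fact p.Prime] {Φ : Frame p}

theorem ng_core (l : ℕ) (hl : l.Prime) (hlp : l ≠ p) {A F : Type} [CommRing A] [Field F]
    [CharZero F] (L : LocSys A F) (i : ℤ)
    (V : ∀ Ψ : (FiniteEtale.{0} A)ᵒᵖ ⥤ FintypeCat.{0}, AddSubgroup (L.obj ⟨Ψ⟩))
    (hV : ∀ Ψ, Submodule.span F (V Ψ : Set (L.obj ⟨Ψ⟩)) = ⊤ ∧
      (∀ v, (∀ n : ℕ, ∃ w ∈ V Ψ, v = l ^ n • w) → v = 0) ∧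
      ∀ g : Ψ ≅ Ψ, ∀ v ∈ V Ψ, (L.map ⟨g⟩).hom v ∈ V Ψ) (T : ℕ → (FiniteEtale.{0} A)ᵒᵖ)
    (hT : ∀ n Ψ (g : Ψ ≅ Ψ), NatTrans.app g.hom (T n) = 𝟙 _ →
      ∀ v ∈ V Ψ, ∃ w ∈ V Ψ, (L.map ⟨g⟩).hom v - v = l ^ n • w)
    [Algebra A (PadicAlgCl p)] (Q : Surf Φ) (x : A →+* Q.L)
    (hx : ∀ r, Q.ev (x r) = algebraMap A (PadicAlgCl p) r)
    (hS : ∀ s : (T 1).unop →ₐ[A] PadicAlgCl p, ∃ t : (T 1).unop →+* Q.L,
      (∀ a, t (algebraMap A _ a) = x a) ∧ ∀ z, Q.ev (t z) = s z)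
    (H : ∀ [Algebra A (Omp p)], (∀ a, algebraMap A (Omp p) a = Q.red (x a)) →
      WM L l i (ZMod p)⟦X⟧ (Omp p)) :
    WM L l i ℤ_[p] (PadicAlgCl p) := by
  intro φ u N hN hφ hu hmv
  have hch := gp_char (p := p)
  have hC := splits_ic Q.L
  have hinj : Function.Injective (algebraMap Q.L Q.Cl) :=
    fun a b h => Q.injL (congrArg Subtype.val h)
  have hint : (algebraMap Q.L Q.Cl).IsIntegral := Algebra.IsIntegral.isIntegral
  have hker := (RingHom.injective_iff_ker_eq_bot _).1 hinj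
  obtain ⟨a0, ha0⟩ := ext_int _ hint Q.ev (by rw [hker]; exact bot_le)
  obtain ⟨ap, hap⟩ := ext_int _ hint Q.red (by rw [hker]; exact bot_le)
  obtain ⟨m1, hm1, h1⟩ := fix_pow Φ φ.toRingEquiv.toRingHom hφ.1
  obtain ⟨m2, hm2, h2⟩ := fix_pow Φ u.toRingEquiv.toRingHom hu.1
  have hm : m1 * m2 ≠ 0 := mul_ne_zero hm1 hm2
  have c1 : ∀ g : PadicAlgCl p ≃ₐ[A] PadicAlgCl p,
      ⇑(g ^ (m1 * m2)).toRingEquiv.toRingHom = (⇑g.toRingEquiv.toRingHom)^[m1 * m2] :=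
    fun g => AlgEquiv.coe_pow g _
  have up : ∀ g : PadicAlgCl p →+* PadicAlgCl p, (∀ b, g (Φ.ev b) = Φ.ev b) →
      ∀ b, g (Q.ev b) = Q.ev b := fun g hg => RingHom.congr_fun
    (IsLocalization.ringHom_ext (Submonoid.powers (Q.j X)) (j := g.comp Q.ev) (k := Q.ev)
      (RingHom.ext fun s => by
        obtain ⟨f, hf⟩ := Q.hs s
        simp only [RingHom.comp_apply, Surf.ev_algebraMap, hf, ← Φ.ev_algebraMap, hg]))
  have f1 := up (φ ^ (m1 * m2)).toRingEquiv.toRingHom fun b => by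
    rw [c1]; exact Function.IsPeriodicPt.mul_const (h1 b) m2
  have f2 := up (u ^ (m1 * m2)).toRingEquiv.toRingHom fun b => by
    rw [c1]; exact Function.IsPeriodicPt.const_mul (h2 b) m1
  obtain ⟨γ, γ', φ', g1, g2, g3, g4⟩ := co_step Q a0 ha0 ap hap _ f1 (N ^ (m1 * m2))
    (by rw [c1]; exact Fr0.iterate (Q := N) φ.toRingEquiv.toRingHom hφ.1 hφ.fr0 (m1 * m2))
  obtain ⟨δ, δ', u', d1, d2, d3, d4⟩ := co_step Q a0 ha0 ap hap _ f2 (1 ^ (m1 * m2))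
    (by rw [c1]; exact Fr0.iterate (Q := 1) u.toRingEquiv.toRingHom hu.1 hu.fr0 (m1 * m2))
  rw [one_pow] at d4
  set Z : Q.L := algebraMap Q.S _ (Q.j X) with hZ
  have hZe : Q.ev Z = Φ.ι X := by rw [hZ, Q.ev_algebraMap, Q.hι]
  obtain ⟨n, ρ, hρ, hρ'⟩ := mv l hl hlp u.toRingEquiv.toRingHom hu.1 hu.fr0 _ hm (Φ.ι X) Φ.ne Φ.lt
    (by rw [← c1, ← hZe]; exact f2 _) hmv
  rw [← c1] at hρ'
  have hn : l ^ n ≠ 0 := pow_ne_zero _ hl.ne_zero
  have hpn : ¬ p ∣ l ^ n := fun h => hlp.symm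
    ((Nat.prime_dvd_prime_iff_eq Fact.out hl).1 ((Fact.out : p.Prime).dvd_of_dvd_pow h))
  have hZu : IsUnit Z := IsLocalization.Away.algebraMap_isUnit _
  obtain ⟨c, hc, rfl⟩ := mn_root hC a0 _ (Polynomial.monic_X_pow_sub_C (algebraMap _ Q.Cl Z) hn) ρ
    (by simp [Polynomial.eval₂_sub, hρ, ha0, hZe])
  have hc' : c ^ l ^ n = algebraMap _ Q.Cl Z := by simpa [sub_eq_zero] using hc
  have hcu : IsUnit c := (isUnit_pow_iff hn).1 (hc' ▸ hZu.map _)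
  have hcT : (c : Q.Om) ∈ Tm Q.base := by
    have e : (c : Q.Om) ^ l ^ n = algebraMap Q.S Q.Om (Q.j X) := congrArg Subtype.val hc'
    exact Tm.root Q.base hpn (hcu.map (integralClosure Q.L Q.Om).val).ne_zero
      (e ▸ Subalgebra.algebraMap_mem _ _) (e ▸ Tm.inv Q.base)
  have hpc : ap c ^ l ^ n = algebraMap (ZMod p)⟦X⟧ (Omp p) X := by
    have := Q.hr0 X
    rw [PowerSeries.map_X, PowerSeries.map_X] at this
    rw [← map_pow, hc', hap, hZ, Q.red_algebraMap, Q.hr, this]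
  have hmove : u' (ap c) ≠ ap c := by
    intro h
    rw [← d2, ← d3 c hcT] at h
    have e1 : δ c - c ≠ 0 := fun e => hρ' (by rw [← d1, sub_eq_zero.1 e])
    have e2 := (Commute.all (δ c) c).geom_sum₂_mul (l ^ n)
    rw [← map_pow δ, hc', AlgHom.commutes, sub_self] at e2
    have e3 := congrArg ap ((mul_eq_zero.1 e2).resolve_right e1)
    simp only [map_sum, map_mul, map_pow, h, map_zero] at e3
    rw [geom_sum₂_self] at e3
    exact mul_ne_zero (fun h => hpn ((CharP.cast_eq_zero_iff (Omp p) p _).1 h))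
      (pow_ne_zero _ (hcu.map ap).ne_zero) e3
  let : Algebra A Q.L := x.toAlgebra
  let : Algebra A (Omp p) := (ap.comp (algebraMap A Q.Cl)).toAlgebra
  let b0 : Q.Cl →ₐ[A] PadicAlgCl p := { a0 with commutes' := fun r => (ha0 (x r)).trans (hx r) }
  let bp : Q.Cl →ₐ[A] Omp p := { ap with commutes' := fun _ => rfl }
  let bo : Q.Cl →ₐ[A] Q.Om := { (integralClosure Q.L Q.Om).val.toRingHom with
    commutes' := fun _ => rfl }
  let ψ : Omp p ≃ₐ[A] Omp p := { φ' with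
    commutes' := fun r => (g2 _).symm.trans (congrArg ap (γ'.commutes (x r))) }
  let v : Omp p ≃ₐ[A] Omp p := { u' with
    commutes' := fun r => (d2 _).symm.trans (congrArg ap (δ'.commutes (x r))) }
  have key := H (fun a => hap (x a)) ψ v (N ^ (m1 * m2)) (Nat.one_lt_pow hm hN) g4 d4
    ⟨n, ap c, X, hpc, hmove⟩
  have hsp : ∀ (s : (T 1).unop →ₐ[A] Q.Om) z, s z ∈ Tm Q.base := fun s z => by
    obtain ⟨s', rfl⟩ := (pa_bij hC bo (T 1).unop).2 s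
    obtain ⟨t, t1, t2⟩ := hS (b0.comp s')
    let t' : (T 1).unop →ₐ[A] Q.Cl := { (algebraMap Q.L Q.Cl).comp t with
      commutes' := fun a => congrArg (algebraMap Q.L Q.Cl) (t1 a) }
    have : t' = s' := (pa_bij hC b0 (T 1).unop).1 (AlgHom.ext fun z => (ha0 _).trans (t2 z))
    subst this
    exact Tm.lo Q.base St.bot (Q.memL (t z))
  have same : ∀ (a a' : Q.Cl →ₐ[Q.L] Q.Cl), (∀ c : Q.Cl, (c : Q.Om) ∈ Tm Q.base → a c = a' c) →
      ∃ g g' : Q.Om ≃ₐ[A] Q.Om, (∀ c, bo (a c) = g (bo c)) ∧ (∀ c, bo (a' c) = g' (bo c)) ∧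
        rho L g' = rho L g := fun a a' h => by
    obtain ⟨g, hg⟩ := ext_aut Q.injL a
    obtain ⟨g', hg'⟩ := ext_aut Q.injL a'
    refine ⟨g.restrictScalars A, g'.restrictScalars A, fun c => (hg c).symm,
      fun c => (hg' c).symm, ?_⟩
    have := co_triv Q.base l hl hlp L (fun a => Q.memL (x a)) (V _) (hV _).1 (hV _).2.1
      (fun g => (hV _).2.2 (act g)) T (fun n g => hT n _ (act g)) hsp
      ((g.restrictScalars A)⁻¹ * g'.restrictScalars A) fun c hc => g.injective (by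
        have e := h ⟨c, Q.int c hc⟩ hc
        have e1 := hg ⟨c, Q.int c hc⟩
        have e2 := hg' ⟨c, Q.int c hc⟩
        rw [← e, ← e1] at e2
        exact (g.apply_symm_apply _).trans e2)
    rw [← mul_inv_cancel_left (g.restrictScalars A) (g'.restrictScalars A), pa_mul, this, mul_one]
  obtain ⟨G, G', k1, k2, k3⟩ := same γ γ' g3
  obtain ⟨D, D', j1, j2, j3⟩ := same δ δ' d3
  have key1 := path_pure L hC bo bp G' D' ψ v (γ'.restrictScalars A) (δ'.restrictScalars A) k2 j2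
    (fun S _ _ _ _ s z => ⟨g2 _, d2 _⟩) _ i key
  rw [k3, j3] at key1
  have key2 := path_pure L hC b0 bo (φ ^ (m1 * m2)) (u ^ (m1 * m2)) G D (γ.restrictScalars A)
    (δ.restrictScalars A) g1 d1 (fun S _ _ _ _ s z => ⟨k1 _, j1 _⟩) _ i key1
  rw [rho_pow, rho_pow] at key2
  exact MwPure.of_pow N hN i _ _ _ hm key2

theorem ng_main (p l : ℕ) [Fact p.Prime] (hl : l.Prime) (hlp : l ≠ p)
    (K : IntermediateField ℚ_[p] (PadicAlgCl p)) [FiniteDimensional ℚ_[p] K] (O A F : Type)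
    [CommRing O] [Algebra O (PadicAlgCl p)]
    (hO : ∀ c, algebraMap O (PadicAlgCl p) c ∈ K ∧ ‖algebraMap O (PadicAlgCl p) c‖ ≤ 1)
    [CommRing A] [Algebra O A] [Algebra.Smooth O A] (s : Set A) (hs : Algebra.adjoin O s = ⊤)
    [Field F] [CharZero F] (L : LocSys A F) (hL : Adic L l) :
    ∃ r : ℝ, 1 < r ∧ ∀ i : ℤ,
      (∀ [Algebra A (Omp p)],
        (∀ c, ‖algebraMap O (PadicAlgCl p) c‖ < 1 → algebraMap A (Omp p) (algebraMap O A c) = 0) →
        (∀ a, IsAlgebraic (Polynomial (ZMod p)) (algebraMap A (Omp p) a)) →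
        WM L l i (ZMod p)⟦X⟧ (Omp p)) →
      ∀ [Algebra A (PadicAlgCl p)] [IsScalarTower O A (PadicAlgCl p)],
        (∀ a ∈ s, ‖algebraMap A (PadicAlgCl p) a‖ ≤ r) → WM L l i ℤ_[p] (PadicAlgCl p) := by
  obtain ⟨V, hV, hT⟩ := hL
  choose T hT using hT
  obtain ⟨N, hN⟩ := fib_bound A (T 1).unop
  have step : ∀ k : Fin (N + 1), ∃ (R : ℝ) (D : ℕ), 1 < R ∧ ∀ r : ℝ, 1 ≤ r → r ^ D ≤ R →
      ∀ [Algebra A (PadicAlgCl p)] [IsScalarTower O A (PadicAlgCl p)],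
        (∀ a ∈ s, ‖algebraMap A (PadicAlgCl p) a‖ ≤ r) →
        ∀ t : Fin k → (T 1).unop →ₐ[A] PadicAlgCl p, ∃ (Φ : Frame p) (Q : Surf Φ) (x : A →+* Q.L),
          (∀ a, Q.ev (x a) = algebraMap A _ a) ∧
          (∀ a, IsAlgebraic (Polynomial (ZMod p)) (Q.red (x a))) ∧
          (∀ c, ‖algebraMap O (PadicAlgCl p) c‖ < 1 → Q.red (x (algebraMap O A c)) = 0) ∧
          ∀ i, ∃ t' : (T 1).unop →+* Q.L, (∀ a, t' (algebraMap A _ a) = x a) ∧
            ∀ z, Q.ev (t' z) = t i z := fun k => by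
    obtain ⟨B, _, _, _, _, j, hj⟩ := tpow A (T 1).unop k
    let : Algebra O B := ((algebraMap A B).comp (algebraMap O A)).toAlgebra
    have : IsScalarTower O A B := IsScalarTower.of_algebraMap_eq' rfl
    have : Algebra.Smooth O B := Algebra.Smooth.comp O A B
    obtain ⟨g, hg⟩ := (Algebra.FiniteType.out : (⊤ : Subalgebra O B).FG)
    obtain ⟨R, hR, h⟩ := lift_near K (algebraMap O (PadicAlgCl p)) hO B g hg
    obtain ⟨D, hD⟩ := grow_int (B := B) _ (closure_adjoin s hs) (fun b : g => (b : B))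
    refine ⟨R, D, hR, fun r hr hrD _ _ hx t => ?_⟩
    obtain ⟨b, hb⟩ := hj (PadicAlgCl p) t
    obtain ⟨Φ, Q, ψ, h1, h2, h3⟩ := h b.toRingHom
      (fun c => (b.commutes _).trans (IsScalarTower.algebraMap_apply O A _ c).symm)
      fun a ha => (hD p r hr b.toRingHom (by
        rintro a (⟨c, rfl⟩ | ha)
        · exact (congrArg norm ((b.commutes _).trans
            (IsScalarTower.algebraMap_apply O A _ c).symm)).trans_le ((hO c).2.trans hr)
        · exact (congrArg norm (b.commutes a)).trans_le (hx a ha)) ⟨a, ha⟩).trans hrD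
    exact ⟨Φ, Q, ψ.comp (algebraMap A B), fun a => (h1 _).trans (b.commutes a), fun a => h2 _, h3,
      fun i => ⟨ψ.comp (j i).toRingHom, fun a => congrArg ψ ((j i).commutes a),
        fun z => (h1 _).trans (AlgHom.congr_fun (hb i) z)⟩⟩
  choose R D hR h using step
  obtain ⟨r, hr, hrD⟩ := near_one R hR D
  refine ⟨r, hr, fun i H _ _ hx => ?_⟩
  obtain ⟨k, hk, t, ht⟩ := hN (PadicAlgCl p)
  obtain ⟨Φ, Q, x, h1, h2, h3, h4⟩ := h ⟨k, Nat.lt_succ_of_le hk⟩ r hr.le (hrD _) hx t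
  refine ng_core l hl hlp L i V hV T hT Q x h1 (fun s => ?_) fun e => H
    (fun c hc => (e _).trans (h3 c hc)) fun a => e a ▸ h2 a
  obtain ⟨i, rfl⟩ := ht s
  exact h4 i

end Pool.Agent.MP_855f4c_ag.LP
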