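import Pool.Agent.MP_855f4c_ag.LP.Defs

namespace Pool.Agent.MP_855f4c_ag.LP

open CategoryTheory CommAlgCat

/-- `L` is `l`-adic: the stalks contain stable, spanning, `l`-adically separated subgroups `V`, and
for each `n` there is one finite etale cover `S` such that an automorphism that is trivial on the
fibre of `S` is trivial on `V / l ^ n`. -/
def Adic {A F : Type} [CommRing A] [Field F] (L : LocSys A F) (l : ℕ) : Prop :=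
  ∃ V : ∀ Φ : (FiniteEtale.{0} A)ᵒᵖ ⥤ FintypeCat.{0}, AddSubgroup (L.obj ⟨Φ⟩),
    (∀ Φ, Submodule.span F (V Φ : Set (L.obj ⟨Φ⟩)) = ⊤ ∧
      (∀ v, (∀ n : ℕ, ∃ w ∈ V Φ, v = l ^ n • w) → v = 0) ∧
      ∀ g : Φ ≅ Φ, ∀ v ∈ V Φ, (L.map ⟨g⟩).hom v ∈ V Φ) ∧
    ∀ n : ℕ, ∃ S : (FiniteEtale.{0} A)ᵒᵖ, ∀ Φ (g : Φ ≅ Φ), NatTrans.app g.hom S = 𝟙 _ →
      ∀ v ∈ V Φ, ∃ w ∈ V Φ, (L.map ⟨g⟩).hom v - v = l ^ n • w

end Pool.Agent.MP_855f4c_ag.LP
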